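import Pool.Agent.Lib.PolyTime.Lists
import Pool.Agent.Lib.PolyTime.More
import Mathlib.Data.Nat.Size
import Mathlib.Data.Nat.Bitwise
import Mathlib.Tactic

/-!
# Binary natural numbers in the polynomial time toolkit
-/

namespace Pool.Agent.Lib.PolyTime

open Function

/-- Natural numbers, encoded in binary. -/
@[ext] structure BNz where
  /-- the number -/
  val : ℕ
deriving DecidableEq

/-- the number with given binary digits, lowest first -/
def toN : List Bool → ℕ
  | [] => 0
  | b :: l => b.toNat + 2 * toN l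

theorem toN_bits (n : ℕ) : toN (Nat.bits n) = n := by
  induction n using Nat.binaryRec' with
  | zero => simp [toN]
  | bit b n h ih =>
    rw [Nat.bits_append_bit _ _ h, toN, ih, Nat.bit_val]
    cases b <;> simp; omega

theorem bits_inj_z {m n : ℕ} (h : Nat.bits m = Nat.bits n) : m = n := by
  rw [← toN_bits m, h, toN_bits]

instance encBNz : Enc BNz where
  enc x := enc (Nat.bits x.val)
  inj := by
    intro x y h
    exact BNz.ext (bits_inj_z (Enc.inj h))

theorem size_bool_le_z (b : Bool) : size b ≤ 3 := by cases b <;> decide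

theorem size_bn (x : BNz) : size x = size (Nat.bits x.val) := rfl

theorem size_boolList_le (l : List Bool) : size l ≤ 4 * l.length + 1 := by
  induction l with
  | nil => simp
  | cons b l ih =>
    have := size_bool_le_z b
    rw [size_cons, List.length_cons]; omega

theorem size_bn_le (x : BNz) : size x ≤ 4 * Nat.size x.val + 1 := by
  rw [size_bn, ← Nat.size_eq_bits_len]; exact size_boolList_le _

theorem natSize_le_size (x : BNz) : Nat.size x.val ≤ size x := by
  rw [size_bn, ← Nat.size_eq_bits_len]; exact length_le_size _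

variable {α β γ : Type} [Enc α] [Enc β] [Enc γ]

theorem PT.bnBits {f : α → BNz} (hf : PT f) : PT (fun a => Nat.bits (f a).val) := by
  have h : PT (fun x : BNz => Nat.bits x.val) := PT.of_enc_eq (fun _ => rfl)
  exact h.comp hf

/-- The bit length. -/
theorem PT.bnzSize {f : α → BNz} (hf : PT f) : PT (fun a => Nat.size (f a).val) :=
  hf.bnBits.length.congr (fun a => Nat.size_eq_bits_len _)

/-- remove high zeros -/
def trim (l : List Bool) : List Bool :=
  l.reverse.foldl (fun acc b => if acc.isEmpty && !b then [] else b :: acc) []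

theorem trim_cons (b : Bool) (l : List Bool) :
    trim (b :: l) = if (trim l).isEmpty && !b then [] else b :: trim l := by
  unfold trim
  rw [List.reverse_cons, List.foldl_append]; rfl

theorem bits_toN (l : List Bool) : Nat.bits (toN l) = trim l := by
  induction l with
  | nil => rfl
  | cons b l ih =>
    rw [trim_cons, ← ih, toN]
    cases b
    · by_cases h : toN l = 0
      · simp [h]
      · rw [show false.toNat + 2 * toN l = 2 * toN l by simp, Nat.bit0_bits _ h]
        have : Nat.bits (toN l) ≠ [] := by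
          intro h2
          apply h
          rw [← toN_bits (toN l), h2]; rfl
        simp [this]
    · rw [show true.toNat + 2 * toN l = 2 * toN l + 1 by simp; omega, Nat.bit1_bits]
      simp

theorem PT.trim {f : α → List Bool} (hf : PT f) : PT (fun a => trim (f a)) := by
  refine PT.foldl_add (f := fun a => (f a).reverse) (init := fun _ => ([] : List Bool))
    (step := fun _ acc b => if acc.isEmpty && !b then [] else b :: acc) hf.reverse (PT.const _)
    ?_ (C := fun _ => 4) (PB.const 4) ?_
  · exact PT.cond (PT.and PT.snd.fst'.isNil (PT.not PT.snd.snd')) (PT.const [])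
      (PT.cons PT.snd.snd' PT.snd.fst')
  · intro a s b _
    have := size_bool_le_z b
    split_ifs
    · rw [size_nil]; omega
    · rw [size_cons]; omega

theorem PT.ofBits {f : α → List Bool} (hf : PT f) : PT (fun a => BNz.mk (toN (f a))) :=
  PT.congr_enc hf.trim (fun a => by
    show enc (Nat.bits (toN (f a))) = _
    rw [bits_toN])

theorem testBit_eq_bits (n i : ℕ) : n.testBit i = (Nat.bits n)[i]?.getD false := by
  induction n using Nat.binaryRec' generalizing i with
  | zero => simp
  | bit b n h ih =>
    rw [Nat.bits_append_bit _ _ h]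
    cases i with
    | zero => simp [Nat.testBit_bit_zero]
    | succ i => rw [Nat.testBit_bit_succ, ih]; simp

theorem PT.testBitz {f : α → BNz} {g : α → ℕ} (hf : PT f) (hg : PT g) :
    PT (fun a => (f a).val.testBit (g a)) := by
  have h := PT.optCases (f := fun a => (Nat.bits (f a).val)[g a]?) (g := fun _ => false)
    (h := fun _ b => b) (hg.getElem? hf.bnBits) (PT.const _) PT.snd
  refine h.congr (fun a => ?_)
  rw [testBit_eq_bits]
  cases (Nat.bits (f a).val)[g a]? <;> rfl

theorem mod_two_pow_succ' (x k : ℕ) :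
    x % 2 ^ (k + 1) = x % 2 ^ k + (x.testBit k).toNat * 2 ^ k := by
  have h1 : x % 2 ^ (k + 1) = x % (2 ^ k * 2) := by rw [pow_succ]
  rw [h1, Nat.mod_mul, Nat.testBit_eq_decide_div_mod_eq]
  have h2 : x / 2 ^ k % 2 = 0 ∨ x / 2 ^ k % 2 = 1 := by omega
  rcases h2 with h2 | h2 <;> simp [h2]

theorem toN_append (l m : List Bool) : toN (l ++ m) = toN l + 2 ^ l.length * toN m := by
  induction l with
  | nil => simp [toN]
  | cons b l ih => rw [List.cons_append, toN, toN, ih, List.length_cons, pow_succ]; ring

/-! ### Addition -/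

/-- one step of addition -/
def addStep (x y : ℕ) (s : List Bool × Bool) (i : ℕ) : List Bool × Bool :=
  ((x.testBit i ^^ (y.testBit i ^^ s.2)) :: s.1,
    (x.testBit i && y.testBit i) || ((x.testBit i && s.2) || (y.testBit i && s.2)))

theorem addStep_spec (x y k : ℕ) :
    let s := (List.range k).foldl (addStep x y) ([], false)
    s.1.length = k ∧ toN s.1.reverse + s.2.toNat * 2 ^ k = x % 2 ^ k + y % 2 ^ k := by
  induction k with
  | zero => simp [toN, Nat.mod_one]
  | succ k ih =>
    rw [List.range_succ, List.foldl_append]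
    simp only [List.foldl_cons, List.foldl_nil] at ih ⊢
    obtain ⟨h1, h2⟩ := ih
    set s := (List.range k).foldl (addStep x y) ([], false) with hs
    refine ⟨by simp [addStep, h1], ?_⟩
    rw [mod_two_pow_succ', mod_two_pow_succ']
    have h3 : toN (addStep x y s k).1.reverse = toN s.1.reverse +
        2 ^ k * (x.testBit k ^^ (y.testBit k ^^ s.2)).toNat := by
      simp only [addStep, List.reverse_cons, toN_append, List.length_reverse, h1, toN]
      simp
    rw [h3]
    have h4 : (x.testBit k ^^ (y.testBit k ^^ s.2)).toNat + 2 * (addStep x y s k).2.toNat =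
        (x.testBit k).toNat + (y.testBit k).toNat + s.2.toNat := by
      simp only [addStep]
      cases x.testBit k <;> cases y.testBit k <;> cases s.2 <;> rfl
    have h5 : (addStep x y s k).2.toNat * 2 ^ (k + 1) =
        2 ^ k * (2 * (addStep x y s k).2.toNat) := by rw [pow_succ]; ring
    rw [h5]
    have h6 : toN s.1.reverse + 2 ^ k * (x.testBit k ^^ (y.testBit k ^^ s.2)).toNat +
        2 ^ k * (2 * (addStep x y s k).2.toNat) = toN s.1.reverse +
        2 ^ k * ((x.testBit k).toNat + (y.testBit k).toNat + s.2.toNat) := by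
      rw [← h4]; ring
    rw [h6]
    linarith

theorem add_eq_toN (x y : ℕ) : x + y = toN ((List.range (Nat.size x + Nat.size y + 1)).foldl
    (addStep x y) ([], false)).1.reverse := by
  obtain ⟨h1, h2⟩ := addStep_spec x y (Nat.size x + Nat.size y + 1)
  have hx : x < 2 ^ (Nat.size x + Nat.size y + 1) :=
    (Nat.lt_size_self x).trans_le (Nat.pow_le_pow_right (by norm_num) (by omega))
  have hy : y < 2 ^ (Nat.size x + Nat.size y + 1) :=
    (Nat.lt_size_self y).trans_le (Nat.pow_le_pow_right (by norm_num) (by omega))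
  have hxy : x + y < 2 ^ (Nat.size x + Nat.size y + 1) := by
    have h3 : x < 2 ^ (Nat.size x + Nat.size y) :=
      (Nat.lt_size_self x).trans_le (Nat.pow_le_pow_right (by norm_num) (by omega))
    have h4 : y < 2 ^ (Nat.size x + Nat.size y) :=
      (Nat.lt_size_self y).trans_le (Nat.pow_le_pow_right (by norm_num) (by omega))
    rw [pow_succ]; omega
  rw [Nat.mod_eq_of_lt hx, Nat.mod_eq_of_lt hy] at h2
  set s := (List.range (Nat.size x + Nat.size y + 1)).foldl (addStep x y) ([], false)
  cases hc : s.2
  · rw [hc] at h2; simpa using h2.symm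
  · exfalso
    rw [hc] at h2
    simp at h2
    omega

theorem PT.addStep : PT (fun x : (BNz × BNz) × ((List Bool × Bool) × ℕ) =>
    addStep x.1.1.val x.1.2.val x.2.1 x.2.2) := by
  have hx : PT (fun x : (BNz × BNz) × ((List Bool × Bool) × ℕ) => x.1.1.val.testBit x.2.2) :=
    PT.testBitz PT.fst.fst' PT.snd.snd'
  have hy : PT (fun x : (BNz × BNz) × ((List Bool × Bool) × ℕ) => x.1.2.val.testBit x.2.2) :=
    PT.testBitz PT.fst.snd' PT.snd.snd'
  have hc : PT (fun x : (BNz × BNz) × ((List Bool × Bool) × ℕ) => x.2.1.2) :=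
    PT.snd.fst'.snd'
  have hF : PT (fun x : Bool × (Bool × Bool) => ((x.1 ^^ (x.2.1 ^^ x.2.2)),
      (x.1 && x.2.1) || ((x.1 && x.2.2) || (x.2.1 && x.2.2)))) := PT.ofFintype _
  have h1 := hF.comp (hx.pair (hy.pair hc))
  exact (PT.cons h1.fst' PT.snd.fst'.fst').pair h1.snd'

theorem PT.bnzAdd {f g : α → BNz} (hf : PT f) (hg : PT g) :
    PT (fun a => BNz.mk ((f a).val + (g a).val)) := by
  have h : PT (fun x : BNz × BNz => BNz.mk (x.1.val + x.2.val)) := by
    have h1 : PT (fun x : BNz × BNz => Nat.size x.1.val + Nat.size x.2.val + 1) :=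
      PT.succ ((PT.fst.bnzSize).add (PT.snd.bnzSize))
    have h2 := PT.foldl_add (f := fun x : BNz × BNz =>
        List.range (Nat.size x.1.val + Nat.size x.2.val + 1))
      (init := fun _ => (([], false) : List Bool × Bool))
      (step := fun x => PolyTime.addStep x.1.val x.2.val) h1.range (PT.const _) PT.addStep
      (C := fun _ => 10) (PB.const 10) (by
        intro a s b _
        unfold PolyTime.addStep
        rw [size_prod, size_prod, size_cons]
        simp only
        have h3 := size_bool_le_z (a.1.val.testBit b ^^ (a.2.val.testBit b ^^ s.2))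
        have h4 := size_bool_le_z ((a.1.val.testBit b && a.2.val.testBit b) ||
          ((a.1.val.testBit b && s.2) || (a.2.val.testBit b && s.2)))
        omega)
    refine (h2.fst'.reverse.ofBits).congr (fun x => ?_)
    rw [← add_eq_toN]
  exact h.comp (hf.pair hg)

/-! ### Comparison -/

/-- one step of the comparison -/
def leStep (x y : ℕ) (s : Bool) (i : ℕ) : Bool :=
  (!x.testBit i && y.testBit i) || ((x.testBit i == y.testBit i) && s)

theorem leStep_spec (x y k : ℕ) :
    (List.range k).foldl (leStep x y) true = decide (x % 2 ^ k ≤ y % 2 ^ k) := by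
  induction k with
  | zero => simp [Nat.mod_one]
  | succ k ih =>
    rw [List.range_succ, List.foldl_append, ih]
    simp only [List.foldl_cons, List.foldl_nil]
    rw [mod_two_pow_succ', mod_two_pow_succ']
    have hx := Nat.mod_lt x (y := 2 ^ k) (by positivity)
    have hy := Nat.mod_lt y (y := 2 ^ k) (by positivity)
    unfold leStep
    cases x.testBit k <;> cases y.testBit k <;> simp <;> omega

theorem le_eq_fold (x y : ℕ) : decide (x ≤ y) =
    (List.range (Nat.size x + Nat.size y)).foldl (leStep x y) true := by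
  rw [leStep_spec, Nat.mod_eq_of_lt, Nat.mod_eq_of_lt]
  · exact (Nat.lt_size_self y).trans_le (Nat.pow_le_pow_right (by norm_num) (by omega))
  · exact (Nat.lt_size_self x).trans_le (Nat.pow_le_pow_right (by norm_num) (by omega))

theorem PT.bnzLe {f g : α → BNz} (hf : PT f) (hg : PT g) :
    PT (fun a => decide ((f a).val ≤ (g a).val)) := by
  have h : PT (fun x : BNz × BNz => decide (x.1.val ≤ x.2.val)) := by
    have hx : PT (fun x : (BNz × BNz) × (Bool × ℕ) => x.1.1.val.testBit x.2.2) :=
      PT.testBitz PT.fst.fst' PT.snd.snd'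
    have hy : PT (fun x : (BNz × BNz) × (Bool × ℕ) => x.1.2.val.testBit x.2.2) :=
      PT.testBitz PT.fst.snd' PT.snd.snd'
    have hF : PT (fun x : Bool × (Bool × Bool) =>
        ((!x.1 && x.2.1) || ((x.1 == x.2.1) && x.2.2))) := PT.ofFintype _
    have h1 : PT (fun x : BNz × BNz => Nat.size x.1.val + Nat.size x.2.val) :=
      (PT.fst.bnzSize).add (PT.snd.bnzSize)
    have h2 := PT.foldl_add (f := fun x : BNz × BNz =>
        List.range (Nat.size x.1.val + Nat.size x.2.val))
      (init := fun _ => true)
      (step := fun x => leStep x.1.val x.2.val) h1.range (PT.const _)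
      (hF.comp (hx.pair (hy.pair PT.snd.fst')))
      (C := fun _ => 3) (PB.const 3) (by
        intro a s b _
        have := size_bool_le_z (leStep a.1.val a.2.val s b)
        omega)
    refine h2.congr (fun x => ?_)
    rw [← le_eq_fold]
  exact h.comp (hf.pair hg)

theorem PT.bnzLt {f g : α → BNz} (hf : PT f) (hg : PT g) :
    PT (fun a => decide ((f a).val < (g a).val)) :=
  (PT.not (PT.bnzLe hg hf)).congr (fun a => by
    rw [← decide_not, decide_eq_decide]; omega)

theorem PT.bnzEq {f g : α → BNz} (hf : PT f) (hg : PT g) :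
    PT (fun a => decide ((f a).val = (g a).val)) :=
  (PT.eq hf hg).congr (fun a => by
    rw [decide_eq_decide, BNz.ext_iff])

/-! ### Subtraction -/

/-- one step of subtraction -/
def subStep (x y : ℕ) (s : List Bool × Bool) (i : ℕ) : List Bool × Bool :=
  ((x.testBit i ^^ (y.testBit i ^^ s.2)) :: s.1,
    (!x.testBit i && y.testBit i) || ((!x.testBit i && s.2) || (y.testBit i && s.2)))

theorem subStep_spec (x y k : ℕ) :
    let s := (List.range k).foldl (subStep x y) ([], false)
    s.1.length = k ∧ toN s.1.reverse + y % 2 ^ k = x % 2 ^ k + s.2.toNat * 2 ^ k := by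
  induction k with
  | zero => simp [toN, Nat.mod_one]
  | succ k ih =>
    rw [List.range_succ, List.foldl_append]
    simp only [List.foldl_cons, List.foldl_nil] at ih ⊢
    obtain ⟨h1, h2⟩ := ih
    set s := (List.range k).foldl (subStep x y) ([], false) with hs
    refine ⟨by simp [subStep, h1], ?_⟩
    rw [mod_two_pow_succ', mod_two_pow_succ']
    have h3 : toN (subStep x y s k).1.reverse = toN s.1.reverse +
        2 ^ k * (x.testBit k ^^ (y.testBit k ^^ s.2)).toNat := by
      simp only [subStep, List.reverse_cons, toN_append, List.length_reverse, h1, toN]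
      simp
    rw [h3]
    have h4 : (x.testBit k ^^ (y.testBit k ^^ s.2)).toNat + (y.testBit k).toNat + s.2.toNat =
        (x.testBit k).toNat + 2 * (subStep x y s k).2.toNat := by
      simp only [subStep]
      cases x.testBit k <;> cases y.testBit k <;> cases s.2 <;> rfl
    have h5 : (subStep x y s k).2.toNat * 2 ^ (k + 1) =
        2 ^ k * (2 * (subStep x y s k).2.toNat) := by rw [pow_succ]; ring
    rw [h5]
    have h7 : 2 ^ k * ((x.testBit k ^^ (y.testBit k ^^ s.2)).toNat + (y.testBit k).toNat +
        s.2.toNat) = 2 ^ k * ((x.testBit k).toNat + 2 * (subStep x y s k).2.toNat) := by rw [h4]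
    linarith

theorem sub_eq_toN {x y : ℕ} (hle : y ≤ x) : x - y =
    toN ((List.range (Nat.size x + Nat.size y)).foldl (subStep x y) ([], false)).1.reverse := by
  obtain ⟨h1, h2⟩ := subStep_spec x y (Nat.size x + Nat.size y)
  have hx : x < 2 ^ (Nat.size x + Nat.size y) :=
    (Nat.lt_size_self x).trans_le (Nat.pow_le_pow_right (by norm_num) (by omega))
  have hy : y < 2 ^ (Nat.size x + Nat.size y) :=
    (Nat.lt_size_self y).trans_le (Nat.pow_le_pow_right (by norm_num) (by omega))
  rw [Nat.mod_eq_of_lt hx, Nat.mod_eq_of_lt hy] at h2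
  set s := (List.range (Nat.size x + Nat.size y)).foldl (subStep x y) ([], false)
  have hlt : ∀ l : List Bool, toN l < 2 ^ l.length := by
    intro l
    induction l with
    | nil => simp [toN]
    | cons b l ih => cases b <;> simp [toN, pow_succ] <;> omega
  have h3 := hlt s.1.reverse
  rw [List.length_reverse, h1] at h3
  cases hc : s.2
  · rw [hc] at h2
    simp at h2
    omega
  · exfalso
    rw [hc] at h2
    simp at h2
    omega

theorem PT.bnzSub {f g : α → BNz} (hf : PT f) (hg : PT g) :
    PT (fun a => BNz.mk ((f a).val - (g a).val)) := by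
  have h : PT (fun x : BNz × BNz => BNz.mk (x.1.val - x.2.val)) := by
    have hx : PT (fun x : (BNz × BNz) × ((List Bool × Bool) × ℕ) => x.1.1.val.testBit x.2.2) :=
      PT.testBitz PT.fst.fst' PT.snd.snd'
    have hy : PT (fun x : (BNz × BNz) × ((List Bool × Bool) × ℕ) => x.1.2.val.testBit x.2.2) :=
      PT.testBitz PT.fst.snd' PT.snd.snd'
    have hc : PT (fun x : (BNz × BNz) × ((List Bool × Bool) × ℕ) => x.2.1.2) :=
      PT.snd.fst'.snd'
    have hF : PT (fun x : Bool × (Bool × Bool) => ((x.1 ^^ (x.2.1 ^^ x.2.2)),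
        (!x.1 && x.2.1) || ((!x.1 && x.2.2) || (x.2.1 && x.2.2)))) := PT.ofFintype _
    have h0 := hF.comp (hx.pair (hy.pair hc))
    have hstep : PT (fun x : (BNz × BNz) × ((List Bool × Bool) × ℕ) =>
        subStep x.1.1.val x.1.2.val x.2.1 x.2.2) :=
      (PT.cons h0.fst' PT.snd.fst'.fst').pair h0.snd'
    have h1 : PT (fun x : BNz × BNz => Nat.size x.1.val + Nat.size x.2.val) :=
      (PT.fst.bnzSize).add (PT.snd.bnzSize)
    have h2 := PT.foldl_add (f := fun x : BNz × BNz =>
        List.range (Nat.size x.1.val + Nat.size x.2.val))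
      (init := fun _ => (([], false) : List Bool × Bool))
      (step := fun x => subStep x.1.val x.2.val) h1.range (PT.const _) hstep
      (C := fun _ => 10) (PB.const 10) (by
        intro a s b _
        unfold subStep
        rw [size_prod, size_prod, size_cons]
        simp only
        have h3 := size_bool_le_z (a.1.val.testBit b ^^ (a.2.val.testBit b ^^ s.2))
        have h4 := size_bool_le_z ((!a.1.val.testBit b && a.2.val.testBit b) ||
          ((!a.1.val.testBit b && s.2) || (a.2.val.testBit b && s.2)))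
        omega)
    have h3 := PT.cond (PT.bnzLe (α := BNz × BNz) PT.snd PT.fst) (h2.fst'.reverse.ofBits)
      (PT.const (BNz.mk 0))
    refine h3.congr (fun x => ?_)
    by_cases hle : x.2.val ≤ x.1.val
    · simp only [hle, decide_true, if_true]
      rw [← sub_eq_toN hle]
    · simp only [hle, decide_false, Bool.false_eq_true, if_false]
      congr 1; omega
  exact h.comp (hf.pair hg)

theorem PT.bnzMax {f g : α → BNz} (hf : PT f) (hg : PT g) :
    PT (fun a => BNz.mk (max (f a).val (g a).val)) :=
  (PT.cond (PT.bnzLe hf hg) hg hf).congr (fun a => by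
    by_cases h : (f a).val ≤ (g a).val
    · simp [h]
    · simp only [h, decide_false, Bool.false_eq_true, if_false]
      rw [max_eq_left (by omega)])

theorem PT.bnzMin {f g : α → BNz} (hf : PT f) (hg : PT g) :
    PT (fun a => BNz.mk (min (f a).val (g a).val)) :=
  (PT.cond (PT.bnzLe hf hg) hf hg).congr (fun a => by
    by_cases h : (f a).val ≤ (g a).val
    · simp [h]
    · simp only [h, decide_false, Bool.false_eq_true, if_false]
      rw [min_eq_right (by omega)])

/-! ### Shifts -/

theorem PT.bnShift {f : α → BNz} {g : α → ℕ} (hf : PT f) (hg : PT g) :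
    PT (fun a => BNz.mk ((f a).val * 2 ^ (g a))) := by
  have h1 : PT (fun a => (List.replicate (g a) ()).map (fun _ => false)) :=
    PT.map (g := fun _ _ => false) hg.replicateUnit (PT.const _)
  refine (PT.ofBits (h1.append hf.bnBits)).congr (fun a => ?_)
  congr 1
  rw [toN_append, toN_bits]
  have : ∀ n : ℕ, toN (List.map (fun _ => false) (List.replicate n ())) = 0 := by
    intro n
    induction n with
    | zero => rfl
    | succ n ih => rw [List.replicate_succ, List.map_cons, toN, ih]; rfl
  rw [this]
  simp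
  ring

theorem PT.bnPow2 {g : α → ℕ} (hg : PT g) : PT (fun a => BNz.mk (2 ^ (g a))) :=
  (PT.bnShift (PT.const (BNz.mk 1)) hg).congr (fun a => by simp)

theorem PT.bnHalf {f : α → BNz} (hf : PT f) : PT (fun a => BNz.mk ((f a).val / 2)) :=
  (PT.ofBits hf.bnBits.tail).congr (fun a => by
    congr 1
    rw [← Nat.div2_bits_eq_tail, toN_bits, Nat.div2_val])

theorem PT.bnOdd {f : α → BNz} (hf : PT f) : PT (fun a => decide ((f a).val % 2 = 1)) :=
  (PT.testBitz hf (PT.const 0)).congr (fun a => by rw [Nat.testBit_zero])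

/-! ### Greatest common divisors -/

/-- one step of the binary Euclidean algorithm -/
def gcdStepz (s : BNz × BNz × ℕ) : BNz × BNz × ℕ :=
  if decide (s.1.val = 0) || decide (s.2.1.val = 0) then s
  else if decide (s.1.val % 2 = 1) then
    (if decide (s.2.1.val % 2 = 1) then
      (if decide (s.2.1.val ≤ s.1.val) then (⟨(s.1.val - s.2.1.val) / 2⟩, s.2.1, s.2.2)
        else (s.1, ⟨(s.2.1.val - s.1.val) / 2⟩, s.2.2))
      else (s.1, ⟨s.2.1.val / 2⟩, s.2.2))
  else
    (if decide (s.2.1.val % 2 = 1) then (⟨s.1.val / 2⟩, s.2.1, s.2.2)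
      else (⟨s.1.val / 2⟩, ⟨s.2.1.val / 2⟩, s.2.2 + 1))

theorem gcd_half_left {a b : ℕ} (ha : a % 2 = 0) (hb : b % 2 = 1) :
    Nat.gcd (a / 2) b = Nat.gcd a b := by
  have h1 : a = 2 * (a / 2) := by omega
  conv_rhs => rw [h1]
  rw [Nat.Coprime.gcd_mul_left_cancel]
  rw [Nat.coprime_two_left, Nat.odd_iff]; exact hb

theorem gcdStepz_gcd (s : BNz × BNz × ℕ) :
    Nat.gcd (gcdStepz s).1.val (gcdStepz s).2.1.val * 2 ^ (gcdStepz s).2.2 =
      Nat.gcd s.1.val s.2.1.val * 2 ^ s.2.2 := by
  obtain ⟨⟨a⟩, ⟨b⟩, k⟩ := s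
  unfold gcdStepz
  simp only
  split_ifs with h1 h2 h3 h4 h5
  · rfl
  · simp only [decide_eq_true_eq] at h2 h3 h4
    simp only
    rw [gcd_half_left (by omega) h3, Nat.gcd_sub_self_left h4]
  · simp only [decide_eq_true_eq] at h2 h3 h4
    simp only
    rw [Nat.gcd_comm, gcd_half_left (by omega) h2, Nat.gcd_sub_self_left (by omega),
      Nat.gcd_comm]
  · simp only [decide_eq_true_eq] at h2 h3
    simp only
    rw [Nat.gcd_comm, gcd_half_left (by omega) h2, Nat.gcd_comm]
  · simp only [decide_eq_true_eq] at h2 h5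
    simp only
    rw [gcd_half_left (by omega) h5]
  · simp only [decide_eq_true_eq] at h2 h5
    simp only
    have h6 : a = 2 * (a / 2) := by omega
    have h7 : b = 2 * (b / 2) := by omega
    conv_rhs => rw [h6, h7, Nat.gcd_mul_left]
    rw [pow_succ]; ring

theorem natSize_half {a : ℕ} (ha : a ≠ 0) : Nat.size (a / 2) + 1 ≤ Nat.size a := by
  rw [Nat.succ_le_iff]
  by_contra h
  have h1 : Nat.size a ≤ Nat.size (a / 2) := by omega
  rcases Nat.eq_zero_or_pos (a / 2) with h2 | h2
  · rw [h2, Nat.size_zero] at h1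
    have := Nat.size_eq_zero.1 (Nat.le_zero.1 h1)
    exact ha this
  · have h3 : 2 ^ (Nat.size (a / 2) - 1) ≤ a / 2 := by
      rw [← Nat.lt_size]
      have := Nat.size_pos.2 h2
      omega
    have h4 : 2 ^ Nat.size (a / 2) ≤ a := by
      have h5 : Nat.size (a / 2) = (Nat.size (a / 2) - 1) + 1 := by
        have := Nat.size_pos.2 h2
        omega
      rw [h5, pow_succ]; omega
    have h5 := Nat.lt_size.2 h4
    omega

theorem gcdStep_size (s : BNz × BNz × ℕ) (h : s.1.val ≠ 0) (h' : s.2.1.val ≠ 0) :
    Nat.size (gcdStepz s).1.val + Nat.size (gcdStepz s).2.1.val + 1 ≤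
      Nat.size s.1.val + Nat.size s.2.1.val := by
  obtain ⟨⟨a⟩, ⟨b⟩, k⟩ := s
  simp only at h h'
  have ha := natSize_half h
  have hb := natSize_half h'
  have hab := Nat.size_le_size (show (a - b) / 2 ≤ a / 2 by omega)
  have hba := Nat.size_le_size (show (b - a) / 2 ≤ b / 2 by omega)
  unfold gcdStepz
  simp only
  split_ifs with h1 h2 h3 h4 h5
  · simp [h, h'] at h1
  all_goals simp only <;> omega

theorem gcdStep_size_le (s : BNz × BNz × ℕ) :
    Nat.size (gcdStepz s).1.val ≤ Nat.size s.1.val ∧
    Nat.size (gcdStepz s).2.1.val ≤ Nat.size s.2.1.val ∧ (gcdStepz s).2.2 ≤ s.2.2 + 1 := by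
  obtain ⟨⟨a⟩, ⟨b⟩, k⟩ := s
  have ha := Nat.size_le_size (show a / 2 ≤ a by omega)
  have hb := Nat.size_le_size (show b / 2 ≤ b by omega)
  have hab := Nat.size_le_size (show (a - b) / 2 ≤ a by omega)
  have hba := Nat.size_le_size (show (b - a) / 2 ≤ b by omega)
  unfold gcdStepz
  simp only
  split_ifs <;> simp only <;> omega

theorem gcdIter (n : ℕ) : ∀ s : BNz × BNz × ℕ, Nat.size s.1.val + Nat.size s.2.1.val ≤ n →
    ((gcdStepz^[n] s).1.val + (gcdStepz^[n] s).2.1.val) * 2 ^ (gcdStepz^[n] s).2.2 =
      Nat.gcd s.1.val s.2.1.val * 2 ^ s.2.2 := by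
  induction n with
  | zero =>
    intro s hs
    have h1 : s.1.val = 0 := Nat.size_eq_zero.1 (by omega)
    have h2 : s.2.1.val = 0 := Nat.size_eq_zero.1 (by omega)
    simp [h1, h2]
  | succ n ih =>
    intro s hs
    by_cases h : s.1.val = 0 ∨ s.2.1.val = 0
    · have hfix : gcdStepz s = s := by
        unfold gcdStepz
        rcases h with h | h <;> simp [h]
      rw [Function.iterate_fixed hfix]
      rcases h with h | h <;> simp [h]
    · push Not at h
      rw [Function.iterate_succ_apply, ih, gcdStepz_gcd]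
      have := gcdStep_size s h.1 h.2
      omega

theorem PT.gcdStepz : PT (gcdStepz : BNz × BNz × ℕ → BNz × BNz × ℕ) := by
  have h1 : PT (fun s : BNz × BNz × ℕ => s.1) := PT.fst
  have h2 : PT (fun s : BNz × BNz × ℕ => s.2.1) := PT.snd.fst'
  have h3 : PT (fun s : BNz × BNz × ℕ => s.2.2) := PT.snd.snd'
  have z1 := PT.bnzEq h1 (PT.const (BNz.mk 0))
  have z2 := PT.bnzEq h2 (PT.const (BNz.mk 0))
  have o1 := PT.bnOdd h1
  have o2 := PT.bnOdd h2
  have l := PT.bnzLe h2 h1
  have A := (PT.bnHalf (PT.bnzSub h1 h2)).pair (h2.pair h3)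
  have B := h1.pair ((PT.bnHalf (PT.bnzSub h2 h1)).pair h3)
  have C := h1.pair ((PT.bnHalf h2).pair h3)
  have D := (PT.bnHalf h1).pair (h2.pair h3)
  have E := (PT.bnHalf h1).pair ((PT.bnHalf h2).pair h3.succ)
  refine (PT.cond (PT.or z1 z2) PT.id (PT.cond o1 (PT.cond o2 (PT.cond l A B) C)
    (PT.cond o2 D E))).congr (fun s => ?_)
  simp only [PolyTime.gcdStepz]

theorem PT.bnzGcd {f g : α → BNz} (hf : PT f) (hg : PT g) :
    PT (fun a => BNz.mk (Nat.gcd (f a).val (g a).val)) := by
  have h : PT (fun x : BNz × BNz => BNz.mk (Nat.gcd x.1.val x.2.val)) := by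
    have h1 : PT (fun x : BNz × BNz => Nat.size x.1.val + Nat.size x.2.val) :=
      (PT.fst.bnzSize).add (PT.snd.bnzSize)
    have h2 := PT.iterate (f := fun x : BNz × BNz => Nat.size x.1.val + Nat.size x.2.val)
      (init := fun x => ((x.1, x.2, 0) : BNz × BNz × ℕ)) (step := fun _ => PolyTime.gcdStepz) h1
      (PT.fst.pair (PT.snd.pair (PT.const 0))) (PT.gcdStepz.comp PT.snd)
      (B := fun n => (4 * n + 1) + ((4 * n + 1) + (2 * (n + n) + 1) + 1) + 1)
      (((((PB.const 4).mul PB.id).add (PB.const 1)).add (((((PB.const 4).mul PB.id).add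
        (PB.const 1)).add (((PB.const 2).mul (PB.id.add PB.id)).add (PB.const 1))).add
        (PB.const 1))).add (PB.const 1)) (by
        intro x i hi
        have key : ∀ i : ℕ, Nat.size (PolyTime.gcdStepz^[i] (x.1, x.2, 0)).1.val ≤
            Nat.size x.1.val ∧ Nat.size (PolyTime.gcdStepz^[i] (x.1, x.2, 0)).2.1.val ≤
            Nat.size x.2.val ∧ (PolyTime.gcdStepz^[i] (x.1, x.2, 0)).2.2 ≤ i := by
          intro i
          induction i with
          | zero => simp
          | succ i ih =>
            rw [Function.iterate_succ_apply']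
            have := gcdStep_size_le (PolyTime.gcdStepz^[i] (x.1, x.2, 0))
            omega
        obtain ⟨k1, k2, k3⟩ := key i
        rw [size_prod, size_prod, size_nat]
        have s1 := size_bn_le (PolyTime.gcdStepz^[i] (x.1, x.2, 0)).1
        have s2 := size_bn_le (PolyTime.gcdStepz^[i] (x.1, x.2, 0)).2.1
        have t1 := natSize_le_size x.1
        have t2 := natSize_le_size x.2
        have t3 : size x = size x.1 + size x.2 + 1 := by
          rw [show x = (x.1, x.2) from rfl, size_prod]
        omega)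
    refine (PT.bnShift (PT.bnzAdd h2.fst' h2.snd'.fst') h2.snd'.snd').congr (fun x => ?_)
    congr 1
    have := gcdIter (Nat.size x.1.val + Nat.size x.2.val) (x.1, x.2, 0) le_rfl
    simpa using this
  exact h.comp (hf.pair hg)

end Pool.Agent.Lib.PolyTime
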