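import Mathlib.Data.List.Basic
import Mathlib.Data.Nat.GCD.Basic
import Mathlib.Data.Nat.Size
import Mathlib.Tactic

/-!
# Overlap relations between words and periodicity
-/

namespace Pool.Agent.Lib.MP_0c2883_lc

open List

variable {A : Type*}

/-- The suffix of length `l` of `u` equals the prefix of length `l` of `v`. -/
def SP (u v : List A) (l : ℕ) : Prop := u.drop (u.length - l) = v.take l

/-- `v` occurs in `u` at position `d`. -/
def Occ (u v : List A) (d : ℕ) : Prop := (u.drop d).take v.length = v

theorem sp_left_le {u1 u2 v : List A} {l : ℕ} (h : l ≤ u2.length) :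
    SP (u1 ++ u2) v l ↔ SP u2 v l := by
  unfold SP
  rw [List.length_append, List.drop_append]
  have h1 : u1.drop (u1.length + u2.length - l) = [] := by
    rw [List.drop_eq_nil_iff]; omega
  have h2 : u1.length + u2.length - l - u1.length = u2.length - l := by omega
  rw [h1, h2, List.nil_append]

theorem sp_left_gt {u1 u2 v : List A} {l : ℕ} (h : u2.length < l)
    (h1 : l ≤ u1.length + u2.length) (h2 : l ≤ v.length) :
    SP (u1 ++ u2) v l ↔ SP u1 v (l - u2.length) ∧ Occ v u2 (l - u2.length) := by
  unfold SP Occ
  rw [List.length_append, List.drop_append]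
  have e1 : u1.length + u2.length - l = u1.length - (l - u2.length) := by omega
  have e2 : u1.length + u2.length - l - u1.length = 0 := by omega
  rw [e2, List.drop_zero, e1]
  have e3 : v.take l = v.take (l - u2.length) ++ (v.drop (l - u2.length)).take u2.length := by
    have e4 : l = (l - u2.length) + u2.length := by omega
    conv_lhs => rw [e4, List.take_add]
  rw [e3]
  constructor
  · intro h3
    have h4 := List.append_inj h3 (by
      rw [List.length_drop, List.length_take]; omega)
    exact ⟨h4.1, h4.2.symm⟩
  · rintro ⟨h3, h4⟩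
    rw [h3, h4]

theorem sp_right_le {u v1 v2 : List A} {l : ℕ} (h : l ≤ v1.length) :
    SP u (v1 ++ v2) l ↔ SP u v1 l := by
  unfold SP
  rw [List.take_append_of_le_length h]

theorem sp_right_gt {u v1 v2 : List A} {l : ℕ} (h : v1.length < l) (h1 : l ≤ u.length)
    (h2 : l ≤ v1.length + v2.length) :
    SP u (v1 ++ v2) l ↔ SP u v2 (l - v1.length) ∧ Occ u v1 (u.length - l) := by
  unfold SP Occ
  rw [List.take_append, List.take_of_length_le (l := v1) (by omega)]
  have e1 : u.drop (u.length - l) = (u.drop (u.length - l)).take v1.length ++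
      u.drop (u.length - (l - v1.length)) := by
    have e2 : u.length - (l - v1.length) = (u.length - l) + v1.length := by omega
    rw [e2, ← List.drop_drop, List.take_append_drop]
  constructor
  · intro h3
    rw [e1] at h3
    have h4 := List.append_inj h3 (by
      rw [List.length_take, List.length_drop]; omega)
    exact ⟨h4.2, h4.1⟩
  · rintro ⟨h3, h4⟩
    rw [e1, h3, h4]

theorem occ_left {u1 u2 v : List A} {d : ℕ} (h : d + v.length ≤ u1.length) :
    Occ (u1 ++ u2) v d ↔ Occ u1 v d := by
  unfold Occ
  rw [List.drop_append_of_le_length (by omega), List.take_append_of_le_length (by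
    rw [List.length_drop]; omega)]

theorem occ_right {u1 u2 v : List A} {d : ℕ} (h : u1.length ≤ d) :
    Occ (u1 ++ u2) v d ↔ Occ u2 v (d - u1.length) := by
  unfold Occ
  rw [List.drop_append]
  have h1 : u1.drop d = [] := by rw [List.drop_eq_nil_iff]; omega
  rw [h1, List.nil_append]

theorem occ_cross {u1 u2 v : List A} {d : ℕ} (h1 : d < u1.length) (h2 : u1.length < d + v.length)
    (h3 : d + v.length ≤ u1.length + u2.length) :
    Occ (u1 ++ u2) v d ↔ SP u1 v (u1.length - d) ∧ SP v u2 (d + v.length - u1.length) := by
  unfold SP Occ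
  have e1 : u1.length - (u1.length - d) = d := by omega
  have e2 : v.length - (d + v.length - u1.length) = u1.length - d := by omega
  rw [e1, e2, List.drop_append_of_le_length (by omega), List.take_append,
    List.take_of_length_le (l := u1.drop d) (by rw [List.length_drop]; omega), List.length_drop]
  have e3 : v.length - (u1.length - d) = d + v.length - u1.length := by omega
  rw [e3]
  constructor
  · intro h
    have h5 := List.append_inj (h.trans (List.take_append_drop (u1.length - d) v).symm) (by
      rw [List.length_take, List.length_drop]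
      omega)
    exact ⟨h5.1, h5.2.symm⟩
  · rintro ⟨h4, h5⟩
    rw [h4, ← h5, List.take_append_drop]

/-! ### Periods -/

/-- `p` is a period of `w`. -/
def Per (w : List A) (p : ℕ) : Prop := ∀ k, k + p < w.length → w[k + p]? = w[k]?

theorem Per.zero (w : List A) : Per w 0 := fun _ _ => rfl

theorem Per.mul {w : List A} {g : ℕ} (h : Per w g) (m : ℕ) : Per w (g * m) := by
  induction m with
  | zero => exact Per.zero w
  | succ m ih =>
    intro k hk
    rw [Nat.mul_succ] at hk ⊢
    have h1 := ih k (by omega)
    have h2 := h (k + g * m) (by omega)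
    rw [← h1, ← h2]
    congr 1; ring

theorem Per.sub {w : List A} {p q : ℕ} (hp : Per w p) (hq : Per w q) (hle : p ≤ q)
    (hpq : p + q ≤ w.length) : Per w (q - p) := by
  intro k hk
  by_cases h : k + q < w.length
  · have h1 := hp (k + (q - p)) (by omega)
    have h2 := hq k h
    have e : k + (q - p) + p = k + q := by omega
    rw [e] at h1
    rw [← h1, h2]
  · have h1 := hp (k - p) (by omega)
    have h2 := hq (k - p) (by omega)
    have e1 : k - p + p = k := by omega
    have e2 : k - p + q = k + (q - p) := by omega
    rw [e1] at h1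
    rw [e2] at h2
    rw [h1, h2]

theorem Per.gcd {w : List A} : ∀ (n p q : ℕ), p + q ≤ n → Per w p → Per w q →
    p + q ≤ w.length → Per w (Nat.gcd p q) := by
  intro n
  induction n with
  | zero =>
    intro p q h hp hq _
    have h1 : p = 0 := by omega
    have h2 : q = 0 := by omega
    subst h1; subst h2; simpa using hp
  | succ n ih =>
    intro p q h hp hq hpq
    rcases Nat.eq_zero_or_pos p with rfl | hp0
    · simpa using hq
    rcases Nat.eq_zero_or_pos q with rfl | hq0
    · simpa using hp
    by_cases hle : p ≤ q
    · have h1 := ih p (q - p) (by omega) hp (hp.sub hq hle hpq) (by omega)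
      rwa [Nat.gcd_sub_self_right hle] at h1
    · have h1 := ih (p - q) q (by omega) (hq.sub hp (by omega) (by omega)) hq (by omega)
      rwa [Nat.gcd_sub_self_left (by omega)] at h1

theorem Per.gcd' {w : List A} {p q : ℕ} (hp : Per w p) (hq : Per w q)
    (hpq : p + q ≤ w.length) : Per w (Nat.gcd p q) := Per.gcd (p + q) p q le_rfl hp hq hpq

/-- Given the relation of length `M`, the relation of length `M - p` says that `p` is a period. -/
theorem sp_iff_per {u v : List A} {M p : ℕ} (hM : SP u v M) (hu : M ≤ u.length)
    (hv : M ≤ v.length) (hp : p ≤ M) : SP u v (M - p) ↔ Per (v.take M) p := by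
  unfold SP at *
  have e1 : u.drop (u.length - (M - p)) = (v.take M).drop p := by
    rw [← hM, List.drop_drop]; congr 1; omega
  have e2 : v.take (M - p) = (v.take M).take (M - p) := by
    rw [List.take_take]; congr 1; omega
  rw [e1, e2]
  have hl : (v.take M).length = M := by rw [List.length_take]; omega
  set w := v.take M with hw
  unfold Per
  constructor
  · intro h k hk
    have h1 := congrArg (fun l => l[k]?) h
    simp only [List.getElem?_drop, List.getElem?_take] at h1
    rw [if_pos (by omega)] at h1
    rw [add_comm k p, h1]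
  · intro h
    apply List.ext_getElem?
    intro k
    rw [List.getElem?_drop]
    by_cases hk : k < M - p
    · rw [List.getElem?_take_of_lt hk, add_comm p k]
      exact h k (by omega)
    · rw [List.getElem?_eq_none_iff.2 (by omega), List.getElem?_eq_none_iff.2 (by
        rw [List.length_take]; omega)]

/-- **Merging**: three overlap relations of comparable lengths are equivalent to two. -/
theorem sp_merge {u v : List A} {x y z s : ℕ} (hx : Nat.size x = s) (hy : Nat.size y = s)
    (hz : Nat.size z = s) (hux : x ≤ u.length) (hvx : x ≤ v.length) (huy : y ≤ u.length)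
    (hvy : y ≤ v.length) (huz : z ≤ u.length) (hvz : z ≤ v.length) (h0 : x ≠ 0) :
    let M := max (max x y) z
    let g := Nat.gcd (Nat.gcd (M - x) (M - y)) (M - z)
    (SP u v x ∧ SP u v y ∧ SP u v z ↔ SP u v M ∧ SP u v (M - g)) ∧
      Nat.size M = s ∧ Nat.size (M - g) = s ∧ min (min x y) z ≤ M - g := by
  intro M g
  have hs : 0 < s := by rw [← hx]; exact Nat.size_pos.2 (Nat.pos_of_ne_zero h0)
  have hlow : ∀ t, Nat.size t = s → 2 ^ (s - 1) ≤ t := by
    intro t ht
    rw [← Nat.lt_size, ht]; omega
  have hup : ∀ t, Nat.size t = s → t < 2 ^ s := by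
    intro t ht
    rw [← ht]; exact Nat.lt_size_self t
  have hpow : 2 ^ s = 2 ^ (s - 1) + 2 ^ (s - 1) := by
    have : s = (s - 1) + 1 := by omega
    conv_lhs => rw [this, pow_succ]
    ring
  have lx := hlow x hx
  have ly := hlow y hy
  have lz := hlow z hz
  have ux := hup x hx
  have uy := hup y hy
  have uz := hup z hz
  have hMx : x ≤ M := by omega
  have hMy : y ≤ M := by omega
  have hMz : z ≤ M := by omega
  have hM2 : M < 2 ^ s := by omega
  have hMu : M ≤ u.length := by omega
  have hMv : M ≤ v.length := by omega
  have hlen : (v.take M).length = M := by rw [List.length_take]; omega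
  -- the gcd is at most the maximum of the differences
  have hg1 : g ∣ M - x := (Nat.gcd_dvd_left _ _).trans (Nat.gcd_dvd_left _ _)
  have hg2 : g ∣ M - y := (Nat.gcd_dvd_left _ _).trans (Nat.gcd_dvd_right _ _)
  have hg3 : g ∣ M - z := Nat.gcd_dvd_right _ _
  have hgle : min (min x y) z ≤ M - g := by
    rcases Nat.eq_zero_or_pos (M - x) with h1 | h1
    · rcases Nat.eq_zero_or_pos (M - y) with h2 | h2
      · rcases Nat.eq_zero_or_pos (M - z) with h3 | h3
        · have : g = 0 := by simp only [g, h1, h2, h3, Nat.gcd_self]
          omega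
        · have := Nat.le_of_dvd h3 hg3; omega
      · have := Nat.le_of_dvd h2 hg2; omega
    · have := Nat.le_of_dvd h1 hg1; omega
  have hgcd12 : Nat.gcd (M - x) (M - y) + (M - z) ≤ M := by
    rcases Nat.eq_zero_or_pos (M - x) with h1 | h1
    · rw [h1, Nat.gcd_zero_left]; omega
    · have := Nat.le_of_dvd h1 (Nat.gcd_dvd_left (M - x) (M - y)); omega
  have hexM : SP u v x ∧ SP u v y ∧ SP u v z → SP u v M := by
    rintro ⟨h1, h2, h3⟩
    have : M = x ∨ M = y ∨ M = z := by omega
    rcases this with h | h | h <;> rw [h] <;> assumption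
  refine ⟨?_, ?_, ?_, hgle⟩
  · constructor
    · intro h
      have hM := hexM h
      refine ⟨hM, ?_⟩
      obtain ⟨h1, h2, h3⟩ := h
      have e1 : x = M - (M - x) := by omega
      have e2 : y = M - (M - y) := by omega
      have e3 : z = M - (M - z) := by omega
      rw [e1, sp_iff_per hM hMu hMv (by omega)] at h1
      rw [e2, sp_iff_per hM hMu hMv (by omega)] at h2
      rw [e3, sp_iff_per hM hMu hMv (by omega)] at h3
      rw [sp_iff_per hM hMu hMv (by omega)]
      have h4 := h1.gcd' h2 (by rw [hlen]; omega)
      exact h4.gcd' h3 (by rw [hlen]; omega)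
    · rintro ⟨hM, h⟩
      rw [sp_iff_per hM hMu hMv (by omega)] at h
      have key : ∀ t, t ≤ M → g ∣ M - t → SP u v t := by
        intro t ht hd
        have e1 : t = M - (M - t) := by omega
        rw [e1, sp_iff_per hM hMu hMv (by omega)]
        obtain ⟨m, hm⟩ := hd
        rw [hm]; exact h.mul m
      exact ⟨key x hMx hg1, key y hMy hg2, key z hMz hg3⟩
  · have h1 : M = x ∨ M = y ∨ M = z := by omega
    rcases h1 with h | h | h <;> rw [h] <;> assumption
  · apply le_antisymm
    · rw [Nat.size_le]; omega
    · have : s - 1 < Nat.size (M - g) := by rw [Nat.lt_size]; omega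
      omega

end Pool.Agent.Lib.MP_0c2883_lc
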