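import Pool.Agent.Lib.MP_0c2883_lc.Cut
import Mathlib.GroupTheory.FreeGroup.GeneratorEquiv
import Mathlib.GroupTheory.FreeGroup.IsFreeGroup
import Mathlib.Data.Fintype.Pi

/-!
# A criterion for primitivity of cyclically reduced words in the free group of rank two
-/

namespace Pool.Agent.Lib.MP_0c2883_lc

open List FreeGroup

/-! ### The cut vertex -/

theorem norm_mul_mk_of_reduced {P : List Letter} {h : F2} : P <+: h.toWord →
    P.length ≤ h.norm := fun hp => hp.length_le

theorem em_of_large {E : Set F2} {N : ℕ}
    (hE : ∀ g : F2, N ≤ g.norm → ∀ l : Letter, (g * mk [l] ∈ E ↔ g ∈ E)) {P : List Letter}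
    (hP : IsReduced P) (hN : N ≤ P.length) : EM E P (mk P ∈ E) := by
  refine ⟨0, ?_⟩
  have key : ∀ (V : List Letter), IsReduced (P ++ V) → (mk (P ++ V) ∈ E ↔ mk P ∈ E) := by
    intro V
    induction V using List.reverseRecOn with
    | nil => simp
    | append_singleton V x ih =>
      intro h
      have h1 : IsReduced (P ++ V) := red_of_sub h ⟨[], [x], by simp⟩
      rw [← ih h1, ← List.append_assoc, ← mul_mk]
      apply hE
      rw [FreeGroup.norm, toWord_mk, h1.reduce_eq, List.length_append]
      omega
  rintro h ⟨V, hV⟩ _
  have h2 : h = mk (P ++ V) := by rw [hV, mk_toWord]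
  rw [h2]
  exact key V (by rw [hV]; exact isReduced_toWord)

/-- auxiliary -/
def hyp1 (A : Letter → Bool) : Bool := decide (∀ x y, A x = false → A y = false → x = y)
/-- auxiliary -/
def hyp2 (C A : Letter → Bool) : Bool := decide (∃ s t, A s = true ∧ A t = true ∧ C s ≠ C t)
/-- auxiliary -/
def concl (C A : Letter → Bool) : Bool := decide (∃ e d0 : Letter, e ≠ d0 ∧ A e = true ∧
      ∀ x, x ≠ e → x ≠ d0 → (A x = true ∧ C x ≠ C e))

theorem colour_aux : ∀ (C A : Letter → Bool), hyp1 A = true → hyp2 C A = true →
    concl C A = true := by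
  decide +kernel

theorem colour_combinatorics (C : Letter → Bool) (A : Letter → Bool)
    (h1 : ∀ x y, A x = false → A y = false → x = y)
    (h2 : ∃ s t, A s = true ∧ A t = true ∧ C s ≠ C t) :
    ∃ e d0 : Letter, e ≠ d0 ∧ A e = true ∧
      ∀ x, x ≠ e → x ≠ d0 → A x = true ∧ C x ≠ C e := by
  have := colour_aux C A (by rw [hyp1, decide_eq_true_eq]; exact h1)
    (by rw [hyp2, decide_eq_true_eq]; exact h2)
  rw [concl, decide_eq_true_eq] at this
  exact this

/-- The cut vertex lemma: for a primitive cyclically reduced word there are distinct letters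
`e`, `d₀` such that `e` is always preceded by `d₀⁻¹` and `e⁻¹` is always followed by `d₀`. -/
theorem cut {L : List Letter} (hL : IsCyclicallyReduced L) (hp : Prim (mk L)) :
    ∃ e d0 : Letter, e ≠ d0 ∧ ∀ x y, Adj L x y →
      (y = e → x = linv d0) ∧ (x = linv e → y = d0) := by
  classical
  obtain ⟨φ, hφ⟩ := hp
  set E : Set F2 := {g | HT (φ.symm g).toWord} with hEdef
  have hE : ∀ g, g * mk L ∈ E ↔ g ∈ E := by
    intro g
    have : φ.symm (g * mk L) = φ.symm g * mk [(0, true)] := by
      rw [_root_.map_mul, ← hφ, MulEquiv.symm_apply_apply]; rfl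
    simp only [hEdef, Set.mem_ofPred_eq, this]
    exact ht_mul_zero _ _
  obtain ⟨N, hN⟩ : ∃ N, ∀ g : F2, N ≤ g.norm → ∀ l : Letter, (g * mk [l] ∈ E ↔ g ∈ E) := by
    have hfin : (⋃ l : Letter, (fun x => φ x) '' Dl (φ.symm (mk [l]))).Finite :=
      Set.finite_iUnion (fun l => (dl_finite _).image _)
    obtain ⟨N, hN⟩ := exists_norm_bound hfin
    refine ⟨N, fun g hg l => ?_⟩
    by_contra h
    have : g ∈ ⋃ l : Letter, (fun x => φ x) '' Dl (φ.symm (mk [l])) := by
      rw [Set.mem_iUnion]
      refine ⟨l, φ.symm g, ?_, by simp⟩
      simp only [Dl, Set.mem_ofPred_eq]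
      rw [← _root_.map_mul]
      exact h
    exact absurd (hN g this) (by omega)
  -- E and its complement contain arbitrarily large elements
  have hbig : ∀ c : Prop, ¬ EM E [] c := by
    rintro c ⟨M, hM⟩
    have h0 : ∀ i : Fin 2, φ (of i) ≠ 1 := by
      intro i h
      rw [MulEquiv.map_eq_one_iff] at h
      exact of_ne_one i h
    obtain ⟨x, ⟨k, rfl⟩, hx⟩ := exists_large (pow_infinite (h0 0)) M
    obtain ⟨y, ⟨m, rfl⟩, hy⟩ := exists_large (pow_infinite (h0 1)) M
    have h1 := hM _ (List.nil_prefix) hx
    have h2 := hM _ (List.nil_prefix) hy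
    have h3 : (φ (of 0)) ^ (k + 1) ∉ E := by
      simp only [hEdef, Set.mem_ofPred_eq, map_pow, MulEquiv.symm_apply_apply, toWord_of_pow]
      simp [HT, List.replicate_succ]
    have h4 : (φ (of 1)) ^ (m + 1) ∈ E := by
      simp only [hEdef, Set.mem_ofPred_eq, map_pow, MulEquiv.symm_apply_apply, toWord_of_pow]
      simp [HT, List.replicate_succ]
    exact h3 (h1.2 (h2.1 h4))
  -- a longest reduced word which is not end-monochromatic
  let S : ℕ → Prop := fun n => ∃ P : List Letter, IsReduced P ∧ P.length = n ∧ ∀ c : Prop, ¬ EM E P c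
  have hS0 : S 0 := ⟨[], IsReduced.nil, rfl, hbig⟩
  have hSN : ∀ n, S n → n < N := by
    rintro n ⟨P, hP, rfl, h⟩
    by_contra hn
    exact h _ (em_of_large hN hP (by omega))
  obtain ⟨n, hn, hmax⟩ : ∃ n, S n ∧ ∀ m, S m → m ≤ n := by
    refine ⟨Nat.findGreatest S N, Nat.findGreatest_spec (P := S) (Nat.zero_le N) hS0, ?_⟩
    intro m hm
    exact Nat.le_findGreatest (le_of_lt (hSN m hm)) hm
  obtain ⟨P, hP, hPn, hPE⟩ := hn
  -- colours of the extensions
  have hext : ∀ s : Letter, IsReduced (P ++ [s]) → ∃ c : Prop, EM E (P ++ [s]) c := by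
    intro s hs
    by_contra h
    push Not at h
    have := hmax (n + 1) ⟨P ++ [s], hs, by simp [hPn], h⟩
    omega
  let A : Letter → Bool := fun s => decide (IsReduced (P ++ [s]))
  have hA : ∀ s, A s = true ↔ IsReduced (P ++ [s]) := fun s => by simp [A]
  have hext' : ∀ s : Letter, ∃ c : Bool, IsReduced (P ++ [s]) → EM E (P ++ [s]) (c = true) := by
    intro s
    by_cases hs : IsReduced (P ++ [s])
    · obtain ⟨c, hc⟩ := hext s hs
      refine ⟨decide c, fun _ => ?_⟩
      simpa using hc
    · exact ⟨true, fun h => absurd h hs⟩
  choose C hC using hext'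
  have hA1 : ∀ x y, A x = false → A y = false → x = y := by
    intro x y hx hy
    have hx' : ¬ IsReduced (P ++ [x]) := by rw [← hA]; simp [hx]
    have hy' : ¬ IsReduced (P ++ [y]) := by rw [← hA]; simp [hy]
    have key : ∀ z, ¬ IsReduced (P ++ [z]) → ∃ P', P = P' ++ [linv z] := by
      intro z hz
      rcases reduce_concat hP z with h | ⟨V', h, _⟩
      · exact absurd (isReduced_iff_reduce_eq.2 h) hz
      · exact ⟨V', h⟩
    obtain ⟨P1, h1⟩ := key x hx'
    obtain ⟨P2, h2⟩ := key y hy'
    rw [h1] at h2
    have := (List.append_inj' h2 (by simp)).2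
    simpa [linv_inj] using this
  have hA2 : ∃ s t, A s = true ∧ A t = true ∧ C s ≠ C t := by
    by_contra h
    push Not at h
    -- all extensions have the same colour
    obtain ⟨c, hc⟩ : ∃ c : Bool, ∀ s, A s = true → C s = c := by
      by_cases h1 : ∃ s, A s = true
      · obtain ⟨s, hs⟩ := h1
        exact ⟨C s, fun t ht => h t s ht hs⟩
      · push Not at h1
        exact ⟨true, fun s hs => absurd hs (h1 s)⟩
    have hch : ∀ s : Letter, ∃ M : ℕ, IsReduced (P ++ [s]) →
        ∀ h : F2, P ++ [s] <+: h.toWord → M ≤ h.norm → (h ∈ E ↔ c = true) := by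
      intro s
      by_cases hs : IsReduced (P ++ [s])
      · obtain ⟨M, hM⟩ := hC s hs
        rw [hc s ((hA s).2 hs)] at hM
        exact ⟨M, fun _ => hM⟩
      · exact ⟨0, fun h => absurd h hs⟩
    choose M hM using hch
    refine hPE (c = true) ⟨P.length + 1 + ∑ s, M s, ?_⟩
    rintro h ⟨V, hV⟩ hn
    cases V with
    | nil =>
      rw [FreeGroup.norm, ← hV, List.append_nil] at hn
      omega
    | cons s V =>
      have h1 : IsReduced (P ++ [s]) :=
        red_of_sub (isReduced_toWord (x := h)) ⟨[], V, by rw [← hV]; simp⟩
      refine hM s h1 h ⟨V, by rw [← hV]; simp⟩ (le_trans ?_ hn)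
      have : M s ≤ ∑ s, M s := Finset.single_le_sum (f := M) (fun _ _ => Nat.zero_le _)
        (Finset.mem_univ s)
      omega
  obtain ⟨e, d0, hed, hAe, hCe⟩ := colour_combinatorics C A hA1 hA2
  refine ⟨e, d0, hed, fun x y hxy => ?_⟩
  have hred : x.1 = y.1 → x.2 = y.2 :=
    (cyc_iff.1 (isCyclicallyReduced_iff_cyc.1 hL)) x y hxy
  have hturn : A (linv x) = true → A y = true → C (linv x) = C y := by
    intro h1 h2
    have := turn hL hE ((hA _).1 h1) ((hA _).1 h2) (hC _ ((hA _).1 h1)) (hC _ ((hA _).1 h2)) hxy
    exact Bool.eq_iff_iff.2 this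
  have hne : linv x ≠ y := by
    intro h
    rw [← h] at hred
    have := hred rfl
    simp [linv] at this
  constructor
  · rintro rfl
    by_contra h
    have h1 : linv x ≠ d0 := fun h2 => h (by rw [← h2, linv_linv])
    obtain ⟨h2, h3⟩ := hCe _ hne h1
    exact h3 (hturn h2 hAe)
  · rintro rfl
    rw [linv_linv] at hturn hne
    by_contra h
    obtain ⟨h2, h3⟩ := hCe _ (Ne.symm hne) h
    exact h3 (hturn hAe h2).symm

/-! ### Substitutions and primitivity -/

/-- The endomorphism `e ↦ d e`. -/
noncomputable def psi (d e : Letter) : F2 →* F2 :=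
  lift (fun i => if i = e.1 then (cond e.2 (mk [d, e]) (mk [d, e])⁻¹) else of i)

theorem psi_mk (d e : Letter) (L : List Letter) : psi d e (mk L) = mk (sub d e L) := by
  induction L with
  | nil => rw [← one_eq_mk, _root_.map_one]; rfl
  | cons x L ih =>
    have h1 : (mk (x :: L) : F2) = mk [x] * mk L := by rw [mul_mk]; rfl
    rw [h1, _root_.map_mul, ih, sub_cons, ← mul_mk]
    congr 1
    revert d e x
    intro d e x _ _
    rcases e with ⟨i, s⟩
    rcases x with ⟨j, t⟩
    by_cases hij : j = i
    · subst hij
      cases s <;> cases t <;>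
        simp [psi, sub1, lift_mk, linv, inv_mk, invRev]
    · cases s <;> cases t <;>
        simp [psi, sub1, lift_mk, linv, hij, of, inv_mk, invRev]

theorem sub_sub_reduce : ∀ d e x : Letter, d.1 ≠ e.1 →
    reduce (sub (linv d) e (sub d e [x])) = reduce [x] := by
  decide +kernel

theorem psi_psi {d e : Letter} (h : d.1 ≠ e.1) :
    (psi (linv d) e).comp (psi d e) = MonoidHom.id F2 := by
  ext i
  have h1 : (of i : F2) = mk [(i, true)] := rfl
  rw [MonoidHom.comp_apply, h1, psi_mk, psi_mk]
  exact reduce.exact (sub_sub_reduce d e (i, true) h)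

/-- The automorphism `e ↦ d e`. -/
noncomputable def psiEquiv {d e : Letter} (h : d.1 ≠ e.1) : F2 ≃* F2 :=
  MonoidHom.toMulEquiv (psi d e) (psi (linv d) e) (psi_psi h) (by
    have := psi_psi (d := linv d) (e := e) h
    rwa [linv_linv] at this)

theorem prim_apply {w : F2} (ψ : F2 ≃* F2) : Prim (ψ w) ↔ Prim w := by
  constructor
  · rintro ⟨φ, h⟩
    exact ⟨φ.trans ψ.symm, by simp [h]⟩
  · rintro ⟨φ, h⟩
    exact ⟨φ.trans ψ, by simp [h]⟩

theorem prim_sub {d e : Letter} (h : d.1 ≠ e.1) (L : List Letter) :
    Prim (mk (sub d e L)) ↔ Prim (mk L) := by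
  rw [← psi_mk]
  exact prim_apply (w := mk L) (psiEquiv h)

theorem prim_conj {w g : F2} : Prim (g * w * g⁻¹) ↔ Prim w := by
  have := prim_apply (w := w) (MulAut.conj g)
  rwa [MulAut.conj_apply] at this

theorem prim_rot {L M : List Letter} (h : L ~r M) : Prim (mk L) ↔ Prim (mk M) := by
  obtain ⟨u, v, rfl, rfl⟩ := exists_append_of_isRotated h
  rw [← mul_mk, ← mul_mk, ← prim_conj (w := mk u * mk v) (g := (mk u)⁻¹)]
  have : (mk u)⁻¹ * (mk u * mk v) * (mk u)⁻¹⁻¹ = mk v * mk u := by group
  rw [this]

theorem prim_letter (x : Letter) : Prim (mk [x]) := by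
  have h0 : Prim (of 0) := ⟨MulEquiv.refl _, rfl⟩
  have hswap : Prim (of 1) := by
    refine ⟨freeGroupCongr (Equiv.swap 0 1), ?_⟩
    simp
  have hinv : ∀ i : Fin 2, ∃ ψ : F2 ≃* F2, ψ (of i) = (of i)⁻¹ := by
    intro i
    let f : F2 →* F2 := lift (fun j => (of j)⁻¹)
    have hf : f.comp f = MonoidHom.id F2 := by ext j; simp [f]
    exact ⟨MonoidHom.toMulEquiv f f hf hf, by simp [f]⟩
  have hof : ∀ i : Fin 2, Prim (of i) := by
    intro i; fin_cases i
    · exact h0
    · exact hswap
  rcases x with ⟨i, s⟩
  cases s
  · have : (mk [(i, false)] : F2) = (of i)⁻¹ := by simp [of, inv_mk, invRev]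
    rw [this]
    obtain ⟨ψ, hψ⟩ := hinv i
    rw [← hψ, prim_apply]; exact hof i
  · exact hof i

/-- Primitive elements are not proper powers. -/
theorem prim_pow {g : F2} {k : ℕ} (h : Prim (g ^ k)) : k = 1 := by
  obtain ⟨φ, h⟩ := h
  have h1 : of 0 = (φ.symm g) ^ k := by
    rw [← map_pow, ← h, MulEquiv.symm_apply_apply]
  let f : F2 →* Multiplicative ℤ := lift (fun _ => Multiplicative.ofAdd 1)
  have h2 : f (of 0) = (f (φ.symm g)) ^ k := by rw [← map_pow, ← h1]
  have h3 : (1 : ℤ) = (k : ℤ) * Multiplicative.toAdd (f (φ.symm g)) := by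
    have := congrArg Multiplicative.toAdd h2
    simpa [f] using this
  have h4 : (k : ℤ) ∣ 1 := ⟨_, h3⟩
  have h5 := Int.eq_one_of_dvd_one (by omega) h4
  exact_mod_cast h5

/-! ### The criterion -/

/-- number of letters of index `0` -/
def ca (L : List Letter) : ℕ := L.countP (fun x => x.1 = 0)
/-- number of letters of index `1` -/
def cb (L : List Letter) : ℕ := L.countP (fun x => x.1 = 1)

/-- The weights. -/
def wt (α β : ℤ) (x : Letter) : ℤ := if x.1 = 0 then β else -α

/-- Letters with the same index have the same sign. -/
def SignConst (L : List Letter) : Prop := ∀ x ∈ L, ∀ y ∈ L, x.1 = y.1 → x = y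

/-- The criterion. -/
def Crit (L : List Letter) : Prop :=
  SignConst L ∧ rg (wt (ca L) (cb L)) L + 1 = ca L + cb L

theorem ca_rot {L M : List Letter} (h : L ~r M) : ca L = ca M := h.perm.countP_eq _
theorem cb_rot {L M : List Letter} (h : L ~r M) : cb L = cb M := h.perm.countP_eq _

theorem tot_wt (α β : ℤ) (L : List Letter) : tot (wt α β) L = β * ca L - α * cb L := by
  induction L with
  | nil => simp [ca, cb]
  | cons x L ih =>
    rw [tot_cons, ih]
    unfold ca cb
    rw [List.countP_cons, List.countP_cons]
    rcases x with ⟨i, s⟩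
    fin_cases i
    · simp [wt]; ring
    · simp [wt]; ring

theorem tot_wt_self (L : List Letter) : tot (wt (ca L) (cb L)) L = 0 := by
  rw [tot_wt]; ring

theorem crit_rot {L M : List Letter} (h : L ~r M) : Crit L ↔ Crit M := by
  unfold Crit
  rw [← ca_rot h, ← cb_rot h, rg_rot h (tot_wt_self L)]
  have : SignConst L ↔ SignConst M := by
    unfold SignConst
    constructor
    · intro h1 x hx y hy; exact h1 x (h.mem_iff.2 hx) y (h.mem_iff.2 hy)
    · intro h1 x hx y hy; exact h1 x (h.mem_iff.1 hx) y (h.mem_iff.1 hy)
  rw [this]

/-- All letters are `e` or `f`. -/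
def Two (e f : Letter) (L : List Letter) : Prop := ∀ x ∈ L, x = e ∨ x = f

theorem two_sub {e f : Letter} {L : List Letter} (h : Two e f L) : Two e f (sub f e L) := by
  intro x hx
  rw [sub, List.mem_flatMap] at hx
  obtain ⟨y, hy, hx⟩ := hx
  unfold sub1 at hx
  split_ifs at hx with h1 h2
  · simp at hx; tauto
  · rcases h y hy with rfl | rfl
    · exact absurd h2.symm (linv_ne _)
    · subst h2
      simp at hx
      rcases hx with rfl | rfl
      · right; rfl
      · left; rfl
  · simp at hx; subst hx; exact h _ hy

theorem fin2_ne {i j : Fin 2} (h : i ≠ j) : (i = 0 ∧ j = 1) ∨ (i = 1 ∧ j = 0) := by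
  fin_cases i <;> fin_cases j <;> simp_all

theorem counts_sub {e f : Letter} (hfe : f.1 ≠ e.1) {L : List Letter} (h : Two e f L) :
    (e.1 = 1 → ca (sub f e L) = ca L + cb L ∧ cb (sub f e L) = cb L) ∧
    (e.1 = 0 → cb (sub f e L) = cb L + ca L ∧ ca (sub f e L) = ca L) := by
  have hef : f ≠ e := fun h => hfe (by rw [h])
  have hfe' : f ≠ linv e := fun h => hfe (by rw [h]; rfl)
  have s1 : sub1 f e e = [f, e] := by simp [sub1]
  have s2 : sub1 f e f = [f] := by simp [sub1, hef, hfe']
  induction L with
  | nil => simp [ca, cb]
  | cons x L ih =>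
    obtain ⟨ih1, ih2⟩ := ih (fun y hy => h y (List.mem_cons_of_mem _ hy))
    have hx : sub1 f e x = [f, e] ∧ x = e ∨ sub1 f e x = [f] ∧ x = f := by
      rcases h x (by simp) with rfl | rfl
      · left; exact ⟨s1, rfl⟩
      · right; exact ⟨s2, rfl⟩
    constructor
    · intro he
      have hf : f.1 = 0 := by
        rcases fin2_ne hfe with h | h
        · exact h.1
        · rw [he] at h; simp at h
      obtain ⟨i1, i2⟩ := ih1 he
      unfold ca cb at *
      rcases hx with ⟨hx, rfl⟩ | ⟨hx, rfl⟩
      · rw [sub_cons, hx]
        simp only [List.cons_append, List.nil_append, List.countP_cons, i1, i2, he, hf]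
        simp; omega
      · rw [sub_cons, hx]
        simp only [List.cons_append, List.nil_append, List.countP_cons, i1, i2, he, hf]
        simp; omega
    · intro he
      have hf : f.1 = 1 := by
        rcases fin2_ne hfe with h | h
        · rw [he] at h; simp at h
        · exact h.1
      obtain ⟨i1, i2⟩ := ih2 he
      unfold ca cb at *
      rcases hx with ⟨hx, rfl⟩ | ⟨hx, rfl⟩
      · rw [sub_cons, hx]
        simp only [List.cons_append, List.nil_append, List.countP_cons, i1, i2, he, hf]
        simp; omega
      · rw [sub_cons, hx]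
        simp only [List.cons_append, List.nil_append, List.countP_cons, i1, i2, he, hf]
        simp; omega

theorem signConst_two {e f : Letter} (hfe : f.1 ≠ e.1) {L : List Letter} (h : Two e f L) :
    SignConst L := by
  intro x hx y hy hxy
  rcases h x hx with rfl | rfl <;> rcases h y hy with rfl | rfl
  · rfl
  · exact absurd hxy.symm hfe
  · exact absurd hxy hfe
  · rfl

theorem crit_sub {e f : Letter} (hfe : f.1 ≠ e.1) {L : List Letter} (h : Two e f L)
    (hne : L ≠ []) : Crit (sub f e L) ↔ Crit L := by
  obtain ⟨c1, c2⟩ := counts_sub hfe h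
  have s1 := signConst_two hfe h
  have s2 := signConst_two hfe (two_sub h)
  unfold Crit
  simp only [s1, s2, true_and]
  rcases fin2_ne hfe with ⟨hf, he⟩ | ⟨hf, he⟩
  · obtain ⟨i1, i2⟩ := c1 he
    have := (rg_sub hfe (w := wt (ca L) (cb L)) (w' := wt (ca (sub f e L)) (cb (sub f e L)))
      (p := cb L) (q := ca L) (by positivity) (by positivity)
      (by simp [wt, hf]) (by simp [wt, he]) (by simp [wt, hf, i2])
      (by simp [wt, he, i1]; ring) h hne (tot_wt_self L)).2
    rw [this, i1, i2]
    push_cast
    constructor <;> intro h <;> linarith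
  · obtain ⟨i1, i2⟩ := c2 he
    have := (rg_sub hfe (w := fun x => - wt (ca L) (cb L) x)
      (w' := fun x => - wt (ca (sub f e L)) (cb (sub f e L)) x)
      (p := ca L) (q := cb L) (by positivity) (by positivity)
      (by simp [wt, hf]) (by simp [wt, he]) (by simp [wt, hf, i2])
      (by simp [wt, he, i1]; ring) h hne (by rw [tot_neg, tot_wt_self]; rfl)).2
    rw [rg_neg, rg_neg] at this
    rw [this, i1, i2]
    push_cast
    constructor <;> intro h <;> linarith

theorem crit_letter (x : Letter) : Crit [x] := by
  refine ⟨?_, ?_⟩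
  · intro y hy z hz _
    simp at hy hz; rw [hy, hz]
  · rcases x with ⟨i, s⟩
    fin_cases i
    · simp [ca, cb, rg, up, wt]
    · simp [ca, cb, rg, up, wt]

theorem mk_replicate (k : ℕ) (x : Letter) : (mk (List.replicate k x) : F2) = (mk [x]) ^ k := by
  have := mk_flatten_replicate k [x]
  rwa [show (List.replicate k [x]).flatten = List.replicate k x by simp] at this

theorem of_all_eq {L : List Letter} {x : Letter} (h : ∀ z ∈ L, z = x) (hp : Prim (mk L)) :
    L = [x] := by
  have h1 : L = List.replicate L.length x := List.eq_replicate_of_mem h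
  rw [h1, mk_replicate] at hp
  have := prim_pow hp
  rw [h1, this]; rfl

/-- If a cyclically reduced word has only letters of index `i` then they are all equal. -/
theorem all_eq_of_index {L : List Letter} (hL : IsCyclicallyReduced L) {i : Fin 2}
    (h : ∀ x ∈ L, x.1 = i) {x : Letter} (hx : x ∈ L) : ∀ z ∈ L, z = x := by
  refine all_eq_of_pred hx ?_
  intro y hy
  have h1 := cyc_iff.1 (isCyclicallyReduced_iff_cyc.1 hL) y x hy
  have h2 : y.1 = x.1 := by rw [h y hy.mem_left, h x hx]
  exact Prod.ext h2 (h1 h2)

theorem cyclicallyReduced_sub {d e : Letter} (hde : d.1 ≠ e.1) {L : List Letter}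
    (h : IsCyclicallyReduced (sub d e L)) : IsCyclicallyReduced L := by
  have h1 := cyc_iff.1 (isCyclicallyReduced_iff_cyc.1 h)
  rw [isCyclicallyReduced_iff_cyc, cyc_iff]
  have key : ∀ d e x y : Letter, d.1 ≠ e.1 → ¬ (x.1 = y.1 → x.2 = y.2) →
      ∃ x' y' : Letter, (sub1 d e x).getLast? = some x' ∧ (sub1 d e y).head? = some y' ∧
        ¬ (x'.1 = y'.1 → x'.2 = y'.2) := by
    decide +kernel
  intro x y hxy
  by_contra hc
  obtain ⟨x', y', k1, k2, k3⟩ := key d e x y hde hc
  exact k3 (h1 x' y' (adj_sub hxy k1 k2))

theorem adj_linv_of_red {d e x y : Letter} {L : List Letter}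
    (h : IsCyclicallyReduced (sub d e L)) (hxy : Adj L x y) {x' y' : Letter}
    (hx : (sub1 d e x).getLast? = some x') (hy : (sub1 d e y).head? = some y') :
    x'.1 = y'.1 → x'.2 = y'.2 :=
  cyc_iff.1 (isCyclicallyReduced_iff_cyc.1 h) _ _ (adj_sub hxy hx hy)

/-- `sub d e` agrees up to rotation with `sub d⁻¹ e⁻¹` on words in `d⁻¹`, `e⁻¹`. -/
theorem sub_linv_rot {d e : Letter} (hde : d.1 ≠ e.1) {L : List Letter}
    (h : Two (linv e) (linv d) L) : sub d e L ~r sub (linv d) (linv e) L := by
  have h1 : ∀ M : List Letter, Two (linv e) (linv d) M →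
      linv d :: sub d e M = sub (linv d) (linv e) M ++ [linv d] := by
    intro M
    induction M with
    | nil => intro _; rfl
    | cons x M ih =>
      intro hM
      have ih' := ih (fun y hy => hM y (List.mem_cons_of_mem _ hy))
      have h2 : linv e ≠ e := linv_ne e
      have h3 : linv d ≠ e := fun h => hde (by rw [← h]; rfl)
      have h4 : linv d ≠ linv e := fun h => hde (by rw [linv_inj.1 h])
      rcases hM x (by simp) with rfl | rfl
      · simp only [sub_cons, sub1, h2, if_false, if_true, List.cons_append, List.nil_append]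
        rw [ih']
      · simp only [sub_cons, sub1, h3, h4, if_false, linv_linv, List.cons_append,
          List.nil_append]
        rw [ih']
  cases L with
  | nil => exact IsRotated.refl _
  | cons x M =>
    have h2 := h1 _ h
    obtain ⟨t, ht⟩ : ∃ t, sub (linv d) (linv e) (x :: M) = linv d :: t := by
      have h4 : linv d ≠ linv e := fun h => hde (by rw [linv_inj.1 h])
      have h5 : linv d ≠ e := fun h => hde (by rw [← h]; rfl)
      rcases h x (by simp) with rfl | rfl
      · exact ⟨linv e :: sub (linv d) (linv e) M, by simp [sub1]⟩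
      · exact ⟨sub (linv d) (linv e) M, by simp [sub1, h4, h5]⟩
    rw [ht] at h2 ⊢
    rw [List.cons_append, List.cons.injEq] at h2
    rw [h2.2]
    exact isRotated_concat _ _

theorem crit_of_prim : ∀ (n : ℕ) (L : List Letter), L.length ≤ n → IsCyclicallyReduced L →
    Prim (mk L) → Crit L := by
  intro n
  induction n with
  | zero =>
    intro L hL _ hp
    have : L = [] := by simpa using hL
    subst this
    have h0 : (mk ([] : List Letter) : F2) = (1 : F2) ^ 0 := by rw [pow_zero, one_eq_mk]
    rw [h0] at hp
    exact absurd (prim_pow hp) (by omega)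
  | succ n ih =>
    intro L hLn hL hp
    have hne : L ≠ [] := by
      rintro rfl
      have h0 : (mk ([] : List Letter) : F2) = (1 : F2) ^ 0 := by rw [pow_zero, one_eq_mk]
      rw [h0] at hp
      exact absurd (prim_pow hp) (by omega)
    obtain ⟨e, d0, hed, hcut⟩ := cut hL hp
    by_cases hone : ∃ x, ∀ z ∈ L, z = x
    · obtain ⟨x, hx⟩ := hone
      rw [of_all_eq hx hp]; exact crit_letter x
    -- the letter e or its inverse occurs
    by_cases hocc : e ∈ L ∨ linv e ∈ L
    · by_cases hde : d0.1 = e.1
      · -- d0 = e⁻¹
        exfalso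
        have hd : d0 = linv e := by
          rcases d0 with ⟨i, s⟩; rcases e with ⟨j, t⟩
          simp only at hde; subst hde
          simp only [linv, Prod.mk.injEq, true_and]
          cases s <;> cases t <;> simp_all
        subst hd
        rw [linv_linv] at hcut
        rcases hocc with h | h
        · exact hone ⟨e, all_eq_of_pred h (fun x hx => (hcut x e hx).1 rfl)⟩
        · exact hone ⟨linv e, all_eq_of_succ h (fun x hx => (hcut _ x hx).2 rfl)⟩
      · set d := linv d0 with hd
        have hde' : d.1 ≠ e.1 := hde
        have hcyc : Cyc (Pre d e) L := by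
          rw [cyc_iff]
          intro x y hxy
          refine ⟨(hcut x y hxy).1, fun h => ?_⟩
          rw [(hcut x y hxy).2 h, hd, linv_linv]
        obtain ⟨L', hL'⟩ := exists_sub hde' hcyc
        have hLc : IsCyclicallyReduced (sub d e L') := by
          rw [isCyclicallyReduced_iff_cyc] at hL ⊢; exact hL.rot hL'
        have hL'c := cyclicallyReduced_sub hde' hLc
        have hL'p : Prim (mk L') := by rwa [prim_rot hL', prim_sub hde'] at hp
        have hocc' : e ∈ L' ∨ linv e ∈ L' := by
          have key : ∀ x, x ∈ sub d e L' → x = e ∨ x = linv e → e ∈ L' ∨ linv e ∈ L' := by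
            intro x hx hxe
            rw [sub, List.mem_flatMap] at hx
            obtain ⟨y, hy, hx⟩ := hx
            unfold sub1 at hx
            split_ifs at hx with h1 h2
            · subst h1; exact Or.inl hy
            · subst h2; exact Or.inr hy
            · simp at hx; subst hx; tauto
          rcases hocc with h | h
          · exact key _ (hL'.mem_iff.1 h) (Or.inl rfl)
          · exact key _ (hL'.mem_iff.1 h) (Or.inr rfl)
        have hlen : L'.length < L.length := by
          rw [hL'.perm.length_eq, length_sub]
          have : 0 < L'.countP (fun x => decide (x = e ∨ x = linv e)) := by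
            rw [List.countP_pos_iff]
            rcases hocc' with h | h
            · exact ⟨e, h, by simp⟩
            · exact ⟨linv e, h, by simp⟩
          omega
        have hcrit := ih L' (by omega) hL'c hL'p
        have hL'ne : L' ≠ [] := by rintro rfl; simp at hocc'
        rw [crit_rot hL']
        have hsc := hcrit.1
        rcases hocc' with he | he
        · -- positive case: L' is a word in d, e
          have htwo : Two e d L' := by
            by_cases hall : ∀ x, Adj L' x e → x = e
            · intro x hx; left; exact all_eq_of_pred he hall x hx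
            · push Not at hall
              obtain ⟨x, hx1, hx2⟩ := hall
              have hx3 : x.1 ≠ e.1 := fun h => hx2 (hsc x hx1.mem_left e he h)
              have hx4 : x ≠ linv e := fun h => hx3 (by rw [h]; rfl)
              have hx5 := adj_linv_of_red hLc hx1 (x' := x) (y' := d)
                (by simp [sub1, hx2, hx4]) (by simp [sub1])
              have hx6 : x.1 = d.1 := by
                rcases fin2_ne hx3 with h | h <;> rcases fin2_ne hde' with h' | h' <;>
                  simp_all
              have hxd : x = d := Prod.ext hx6 (hx5 hx6)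
              intro z hz
              by_cases hz1 : z.1 = e.1
              · left; exact hsc z hz e he hz1
              · right
                rw [← hxd]
                refine hsc z hz x hx1.mem_left ?_
                rcases fin2_ne hx3 with h | h <;> rcases fin2_ne hz1 with h' | h' <;>
                  simp_all
          rw [crit_sub hde' htwo hL'ne]; exact hcrit
        · -- negative case
          have htwo : Two (linv e) (linv d) L' := by
            by_cases hall : ∀ x, Adj L' (linv e) x → x = linv e
            · intro x hx; left; exact all_eq_of_succ he hall x hx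
            · push Not at hall
              obtain ⟨x, hx1, hx2⟩ := hall
              have hx3 : x.1 ≠ e.1 := fun h => hx2 (hsc x hx1.mem_right _ he h)
              have hx4 : x ≠ e := fun h => hx3 (by rw [h])
              have hx5 := adj_linv_of_red hLc hx1 (x' := linv d) (y' := x)
                (by simp [sub1, linv_ne]) (by simp [sub1, hx2, hx4])
              have hx6 : x.1 = d.1 := by
                rcases fin2_ne hx3 with h | h <;> rcases fin2_ne hde' with h' | h' <;>
                  simp_all
              have hxd : x = linv d := Prod.ext hx6 (hx5 hx6.symm).symm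
              intro z hz
              by_cases hz1 : z.1 = e.1
              · left; exact hsc z hz _ he hz1
              · right
                rw [← hxd]
                refine hsc z hz x hx1.mem_right ?_
                rcases fin2_ne hx3 with h | h <;> rcases fin2_ne hz1 with h' | h' <;>
                  simp_all
          rw [crit_rot (sub_linv_rot hde' htwo), crit_sub (e := linv e) (f := linv d) hde' htwo
            hL'ne]
          exact hcrit
    · -- only letters of the other index
      push Not at hocc
      exfalso
      obtain ⟨x, hx⟩ := List.exists_mem_of_ne_nil L hne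
      have key : ∀ z ∈ L, z.1 ≠ e.1 := by
        intro z hz h
        rcases z with ⟨i, s⟩; rcases e with ⟨j, t⟩
        simp only at h; subst h
        cases s <;> cases t <;> simp_all [linv]
      refine hone ⟨x, all_eq_of_index hL (i := x.1) ?_ hx⟩
      intro z hz
      rcases fin2_ne (key z hz) with h | h <;> rcases fin2_ne (key x hx) with h' | h' <;>
        simp_all

theorem count_two {L : List Letter} : ca L + cb L = L.length := by
  induction L with
  | nil => rfl
  | cons x L ih =>
    unfold ca cb at *
    rw [List.countP_cons, List.countP_cons, List.length_cons, ← ih]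
    rcases x with ⟨i, s⟩
    fin_cases i <;> simp <;> omega

theorem prim_of_crit : ∀ (n : ℕ) (L : List Letter), L.length ≤ n → Crit L → Prim (mk L) := by
  intro n
  induction n with
  | zero =>
    intro L hL hc
    have : L = [] := by simpa using hL
    subst this
    have := hc.2
    simp [rg, up, ca, cb] at this
  | succ n ih =>
    intro L hLn hc
    have hsc := hc.1
    -- the general step
    have step : ∀ e f : Letter, f.1 ≠ e.1 → e ∈ L → f ∈ L → (¬ Adj L e e) → Prim (mk L) := by
      intro e f hfe he hf hadj
      have htwo : Two e f L := by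
        intro x hx
        by_cases h : x.1 = e.1
        · left; exact hsc x hx e he h
        · right
          refine hsc x hx f hf ?_
          rcases fin2_ne h with h | h <;> rcases fin2_ne hfe with h' | h' <;> simp_all
      have hcyc : Cyc (Pre f e) L := by
        rw [cyc_iff]
        intro x y hxy
        constructor
        · rintro rfl
          rcases htwo x hxy.mem_left with rfl | rfl
          · exact absurd hxy hadj
          · rfl
        · rintro rfl
          rcases htwo _ hxy.mem_left with h | h
          · exact absurd h (linv_ne e)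
          · exact absurd (by rw [← h]; rfl) hfe
      obtain ⟨L', hL'⟩ := exists_sub hfe hcyc
      have hmem : ∀ x ∈ L', x = e ∨ x = f := by
        intro x hx
        have h1 : ∀ y ∈ sub1 f e x, y = e ∨ y = f := by
          intro y hy
          exact htwo y (hL'.mem_iff.2 (by rw [sub, List.mem_flatMap]; exact ⟨x, hx, hy⟩))
        unfold sub1 at h1
        split_ifs at h1 with h2 h3
        · exact Or.inl h2
        · exfalso
          rcases h1 (linv e) (by simp) with h | h
          · exact linv_ne e h
          · exact hfe (by rw [← h]; rfl)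
        · exact h1 x (by simp)
      have hL'e : e ∈ L' := by
        have h1 : e ∈ sub f e L' := hL'.mem_iff.1 he
        rw [sub, List.mem_flatMap] at h1
        obtain ⟨y, hy, h1⟩ := h1
        rcases hmem y hy with rfl | rfl
        · exact hy
        · have h2 : y ≠ e := fun h => hfe (by rw [h])
          have h3 : y ≠ linv e := fun h => hfe (by rw [h]; rfl)
          simp [sub1, h2, h3] at h1
          exact absurd h1.symm h2
      have hlen : L'.length < L.length := by
        rw [hL'.perm.length_eq, length_sub]
        have : 0 < L'.countP (fun x => decide (x = e ∨ x = linv e)) := by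
          rw [List.countP_pos_iff]
          exact ⟨e, hL'e, by simp⟩
        omega
      have hne : L' ≠ [] := by rintro rfl; simp at hL'e
      have h2 : Crit L' := by rwa [crit_rot hL', crit_sub hfe hmem hne] at hc
      rw [prim_rot hL', prim_sub hfe]
      exact ih L' (by omega) h2
    -- adjacency of equal letters gives a large range
    have large : ∀ (w : Letter → ℤ) (e : Letter), tot w L = 0 → Adj L e e →
        2 * w e ≤ rg w L ∨ L = [e] := by
      rintro w e h0 ⟨v, h1, h2⟩
      rcases List.eq_nil_or_concat' v with rfl | ⟨v', z, rfl⟩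
      · right; exact isRotated_singleton_iff.1 h1
      · left
        have hz : z = e := by
          rw [← List.cons_append, List.getLast?_append] at h2
          simpa using h2
        subst hz
        have h3 : L ~r (z :: z :: v') := by
          refine h1.trans ?_
          rw [← List.cons_append]
          exact isRotated_concat z _
        rw [← rg_rot h3 h0]
        have h4 := up_nonneg w v'
        have h5 := up_nonneg (fun x => - w x) (z :: z :: v')
        unfold rg
        simp only [up] at h5 ⊢
        omega
    by_cases ha : ca L = 0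
    · -- only letters of index one
      have hcb := hc.2
      rw [ha] at hcb
      have hup : ∀ M : List Letter, (∀ x ∈ M, x.1 = 1) → up (wt 0 (cb L)) M = 0 ∧
          up (fun x => - wt 0 (cb L) x) M = 0 := by
        intro M
        induction M with
        | nil => simp [up]
        | cons x M ih =>
          intro hM
          obtain ⟨i1, i2⟩ := ih (fun y hy => hM y (List.mem_cons_of_mem _ hy))
          simp only [up, i1, i2]
          simp [wt, hM x (by simp)]
      have h1 : ∀ x ∈ L, x.1 = 1 := by
        intro x hx
        unfold ca at ha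
        rw [List.countP_eq_zero] at ha
        have := ha x hx
        rcases x with ⟨i, s⟩
        fin_cases i <;> simp_all
      obtain ⟨k1, k2⟩ := hup L h1
      have h2 : cb L = 1 := by
        unfold rg at hcb
        have hcb' : (up (wt 0 (cb L)) L + up (fun x => - wt 0 (cb L) x) L + 1 : ℤ) = 0 + cb L := by
          exact_mod_cast hcb
        rw [k1, k2] at hcb'
        omega
      have h3 : L.length = 1 := by rw [← count_two, ha, h2]
      obtain ⟨x, rfl⟩ := List.length_eq_one_iff.1 h3
      exact prim_letter x
    · by_cases hb : cb L = 0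
      · have hcb := hc.2
        rw [hb] at hcb
        have hup : ∀ M : List Letter, (∀ x ∈ M, x.1 = 0) → up (wt (ca L) 0) M = 0 ∧
            up (fun x => - wt (ca L) 0 x) M = 0 := by
          intro M
          induction M with
          | nil => simp [up]
          | cons x M ih =>
            intro hM
            obtain ⟨i1, i2⟩ := ih (fun y hy => hM y (List.mem_cons_of_mem _ hy))
            simp only [up, i1, i2]
            simp [wt, hM x (by simp)]
        have h1 : ∀ x ∈ L, x.1 = 0 := by
          intro x hx
          unfold cb at hb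
          rw [List.countP_eq_zero] at hb
          have := hb x hx
          rcases x with ⟨i, s⟩
          fin_cases i <;> simp_all
        obtain ⟨k1, k2⟩ := hup L h1
        have h2 : ca L = 1 := by
          unfold rg at hcb
          have hcb' : (up (wt (ca L) 0) L + up (fun x => - wt (ca L) 0 x) L + 1 : ℤ) = ca L + 0 := by
            exact_mod_cast hcb
          rw [k1, k2] at hcb'
          omega
        have h3 : L.length = 1 := by rw [← count_two, hb, h2]
        obtain ⟨x, rfl⟩ := List.length_eq_one_iff.1 h3
        exact prim_letter x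
      · -- both kinds of letters occur
        obtain ⟨f, hf, hf0⟩ : ∃ f ∈ L, f.1 = 0 := by
          have : 0 < ca L := Nat.pos_of_ne_zero ha
          unfold ca at this
          rw [List.countP_pos_iff] at this
          obtain ⟨f, hf, h⟩ := this
          exact ⟨f, hf, by simpa using h⟩
        obtain ⟨e, he, he1⟩ : ∃ e ∈ L, e.1 = 1 := by
          have : 0 < cb L := Nat.pos_of_ne_zero hb
          unfold cb at this
          rw [List.countP_pos_iff] at this
          obtain ⟨f, hf, h⟩ := this
          exact ⟨f, hf, by simpa using h⟩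
        have hcb := hc.2
        have hfe : f.1 ≠ e.1 := by rw [hf0, he1]; decide
        have hlen1 : ∀ x, L ≠ [x] := by
          rintro x rfl
          simp at he hf
          rw [he, hf] at hfe
          exact hfe rfl
        by_cases hab : cb L ≤ ca L
        · refine step e f hfe he hf ?_
          intro hadj
          rcases large (fun x => - wt (ca L) (cb L) x) e (by rw [tot_neg, tot_wt_self]; rfl)
            hadj with h | h
          · rw [rg_neg] at h
            simp only [wt, he1] at h
            simp at h
            omega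
          · exact hlen1 e h
        · refine step f e hfe.symm hf he ?_
          intro hadj
          rcases large (wt (ca L) (cb L)) f (tot_wt_self L) hadj with h | h
          · simp only [wt, hf0] at h
            simp at h
            omega
          · exact hlen1 f h

/-- **Criterion for primitivity.** -/
theorem prim_iff_crit {L : List Letter} (hL : IsCyclicallyReduced L) :
    Prim (mk L) ↔ Crit L :=
  ⟨crit_of_prim L.length L le_rfl hL, prim_of_crit L.length L le_rfl⟩

/-- Primitive elements in the sense of free bases. -/
theorem prim_iff_basis (w : F2) :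
    Prim w ↔ ∃ (ι : Type) (b : FreeGroupBasis ι F2) (i : ι), b i = w := by
  constructor
  · rintro ⟨φ, h⟩
    exact ⟨Fin 2, (FreeGroupBasis.ofFreeGroup (Fin 2)).map φ, 0, by simpa using h⟩
  · rintro ⟨ι, b, i, hi⟩
    classical
    obtain ⟨e⟩ : Nonempty (ι ≃ Fin 2) := ⟨Equiv.ofFreeGroupEquiv b.repr.symm⟩
    let e' : ι ≃ Fin 2 := e.trans (Equiv.swap (e i) 0)
    refine ⟨(FreeGroup.freeGroupCongr e'.symm).trans b.repr.symm, ?_⟩
    have h1 : e'.symm 0 = i := by
      rw [Equiv.symm_apply_eq]; simp [e']
    simp only [MulEquiv.trans_apply, FreeGroup.freeGroupCongr_apply, FreeGroup.map.of]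
    rw [h1, ← hi]
    rfl

end Pool.Agent.Lib.MP_0c2883_lc
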