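import Pool.Agent.Lib.MP_0c2883_lc.Words
import Mathlib.Data.Set.Finite.List

/-!
# Turns of primitive cyclic words: the cut vertex lemma in rank two
-/

namespace Pool.Agent.Lib.MP_0c2883_lc

open List FreeGroup

/-- The free group of rank two. -/
abbrev F2 := FreeGroup (Fin 2)

/-- image of a generator under an automorphism -/
def Prim (w : F2) : Prop := ∃ φ : F2 ≃* F2, φ (of 0) = w

/-! ### Multiplying a reduced word by a letter -/

theorem reduce_concat {V : List Letter} (hV : IsReduced V) (l : Letter) :
    reduce (V ++ [l]) = V ++ [l] ∨ ∃ V', V = V' ++ [linv l] ∧ reduce (V ++ [l]) = V' := by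
  rcases List.eq_nil_or_concat' V with rfl | ⟨V', m, rfl⟩
  · left; rfl
  · by_cases hm : m = linv l
    · right
      refine ⟨V', by rw [hm], ?_⟩
      have h1 : IsReduced V' := red_of_sub hV ⟨[], [m], by simp⟩
      rw [← h1.reduce_eq]
      apply reduce.eq_of_red
      rw [h1.reduce_eq, hm]
      have : Red.Step (V' ++ (l.1, !l.2) :: (l.1, !(!l.2)) :: []) (V' ++ []) := Red.Step.not
      simp only [Bool.not_not, List.append_nil] at this
      simpa [linv] using this.to_red
    · left
      refine IsReduced.reduce_eq ?_
      rw [List.append_assoc]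
      have h2 : IsReduced ([m] ++ [l]) := by
        rw [List.singleton_append, isReduced_cons_cons]
        refine ⟨?_, IsReduced.singleton⟩
        intro h
        by_contra h3
        apply hm
        rcases m with ⟨i, s⟩
        rcases l with ⟨j, t⟩
        simp only at h h3
        subst h
        simp only [linv, Prod.mk.injEq, true_and]
        cases s <;> cases t <;> simp_all
      have := IsReduced.append_overlap hV h2 (by simp)
      rwa [List.append_assoc] at this

theorem toWord_mul_letter (g : F2) (l : Letter) :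
    (g * mk [l]).toWord = g.toWord ++ [l] ∨
      g.toWord = (g * mk [l]).toWord ++ [linv l] := by
  have h : (g * mk [l]).toWord = reduce (g.toWord ++ [l]) := by
    rw [toWord_mul, toWord_mk]; rfl
  rcases reduce_concat (isReduced_toWord (x := g)) l with h1 | ⟨V', h1, h2⟩
  · left; rw [h, h1]
  · right; rw [h, h2, h1]

theorem mul_prefix {W : List Letter} (hW : IsReduced W) (X : List Letter) :
    (W.take (W.length - X.length)) <+: reduce (W ++ X) := by
  induction X using List.reverseRecOn with
  | nil => simp [hW.reduce_eq]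
  | append_singleton X x ih =>
    have h1 : reduce (W ++ (X ++ [x])) = reduce (reduce (W ++ X) ++ [x]) := by
      rw [← List.append_assoc]
      conv_lhs => rw [← reduce_append_reduce_reduce]
      conv_rhs => rw [← reduce_append_reduce_reduce]
      rw [reduce.idem]
    rw [h1]
    have h2 : (W.take (W.length - (X ++ [x]).length)) <+: W.take (W.length - X.length) := by
      rw [List.take_isPrefix_take]
      left; simp; omega
    rcases reduce_concat (V := reduce (W ++ X)) (by
        rw [isReduced_iff_reduce_eq]; exact reduce.idem) x with h3 | ⟨V', h3, h4⟩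
    · rw [h3]
      exact (h2.trans ih).trans (List.prefix_append _ _)
    · rw [h4]
      rw [h3] at ih
      by_cases hlen : W.length ≤ X.length
      · have : W.length - (X ++ [x]).length = 0 := by simp; omega
        rw [this]; simp
      · obtain ⟨t, ht⟩ := ih
        rcases List.eq_nil_or_concat' t with rfl | ⟨t', y, rfl⟩
        · rw [List.append_nil] at ht
          have h5 : W.take (W.length - X.length) = V' ++ [linv x] := ht
          have h6 : V' = (W.take (W.length - X.length)).dropLast := by rw [h5]; simp
          rw [h6, List.dropLast_eq_take]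
          rw [List.take_take]
          have : W.length - (X ++ [x]).length = min ((W.take (W.length - X.length)).length - 1)
              (W.length - X.length) := by
            simp [List.length_take]; omega
          rw [this]
        · rw [← List.append_assoc] at ht
          have h5 := (List.append_inj' ht (by simp)).1
          rw [← h5]
          exact h2.trans (List.prefix_append _ _)

/-! ### The almost invariant set -/

/-- the first letter has index one -/
def HT (V : List Letter) : Prop := ∃ x ∈ V.head?, x.1 = 1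

theorem ht_nil : ¬ HT [] := by simp [HT]

theorem ht_append {V W : List Letter} (h : V ≠ []) : HT (V ++ W) ↔ HT V := by
  unfold HT
  rw [List.head?_append_of_ne_nil _ h]

theorem ht_mul (x : F2) (l : Letter) (h1 : x ≠ 1) (h2 : x * mk [l] ≠ 1) :
    HT (x * mk [l]).toWord ↔ HT x.toWord := by
  rcases toWord_mul_letter x l with h | h
  · rw [h, ht_append (by rwa [Ne, toWord_eq_nil_iff])]
  · rw [h, ht_append (by rwa [Ne, toWord_eq_nil_iff])]

theorem ht_mul_zero (x : F2) (s : Bool) :
    HT (x * mk [(0, s)]).toWord ↔ HT x.toWord := by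
  by_cases h1 : x = 1
  · subst h1
    rw [one_mul, toWord_mk, reduce_singleton, toWord_one]
    simp [HT]
  · by_cases h2 : x * mk [(0, s)] = 1
    · rcases toWord_mul_letter x (0, s) with h | h
      · rw [h2, toWord_one] at h; simp at h
      · rw [h, h2, toWord_one]; simp [HT, linv]
    · exact ht_mul x _ h1 h2

/-- the coboundary of the set of elements whose word starts with a letter of index one -/
def Dl (u : F2) : Set F2 := {x | ¬ (HT (x * u).toWord ↔ HT x.toWord)}

theorem dl_finite (u : F2) : (Dl u).Finite := by
  have hmul : ∀ u v : F2, (Dl u).Finite → (Dl v).Finite → (Dl (u * v)).Finite := by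
    intro u v hu hv
    refine (hu.union (hv.image (fun x => x * u⁻¹))).subset ?_
    intro x hx
    by_cases h1 : x ∈ Dl u
    · exact Or.inl h1
    · right
      refine ⟨x * u, ?_, by simp⟩
      simp only [Dl, Set.mem_ofPred_eq, not_not] at h1 hx ⊢
      rw [← mul_assoc] at hx
      intro h2; exact hx (h2.trans h1)
  have hinv : ∀ u : F2, (Dl u).Finite → (Dl u⁻¹).Finite := by
    intro u hu
    refine (hu.image (fun x => x * u)).subset ?_
    intro x hx
    refine ⟨x * u⁻¹, ?_, by simp⟩
    simp only [Dl, Set.mem_ofPred_eq, inv_mul_cancel_right] at hx ⊢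
    intro h; exact hx h.symm
  have hof : ∀ i : Fin 2, (Dl (of i)).Finite := by
    intro i
    fin_cases i
    · have : Dl (of 0) = ∅ := by
        ext x
        simp only [Dl, Set.mem_ofPred_eq, Set.mem_empty_iff_false, iff_false, not_not]
        exact ht_mul_zero x true
      exact this ▸ Set.finite_empty
    · refine (Set.toFinite ({1, (of 1)⁻¹} : Set F2)).subset ?_
      intro x hx
      by_contra h
      simp only [Set.mem_insert_iff, Set.mem_singleton_iff, not_or] at h
      apply hx
      exact ht_mul x (1, true) h.1 (fun h3 => h.2 (eq_inv_of_mul_eq_one_left h3))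
  induction u using FreeGroup.induction_on with
  | C1 => simp [Dl]
  | of i => exact hof i
  | inv_of i h => exact hinv _ h
  | mul u v hu hv => exact hmul u v hu hv

/-- words of bounded length -/
theorem ball_finite (N : ℕ) : {g : F2 | g.norm < N}.Finite := by
  refine Set.Finite.of_finite_image (f := toWord) ?_ toWord_injective.injOn
  refine (List.finite_length_lt Letter N).subset ?_
  rintro _ ⟨g, hg, rfl⟩
  exact hg

theorem exists_norm_bound {S : Set F2} (hS : S.Finite) : ∃ N, ∀ g ∈ S, g.norm < N := by
  obtain ⟨N, hN⟩ := (hS.image FreeGroup.norm).bddAbove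
  exact ⟨N + 1, fun g hg => Nat.lt_succ_of_le (hN ⟨g, hg, rfl⟩)⟩

theorem exists_large {S : Set F2} (hS : S.Infinite) (N : ℕ) : ∃ g ∈ S, N ≤ g.norm := by
  by_contra h
  push Not at h
  exact hS ((ball_finite N).subset h)

theorem pow_ne_one' {g : F2} (hg : g ≠ 1) {k : ℕ} (hk : k ≠ 0) : g ^ k ≠ 1 := by
  intro h
  refine hg (IsMulTorsionFree.pow_left_injective hk ?_)
  simp only [one_pow]
  exact h

theorem pow_infinite {g : F2} (hg : g ≠ 1) : {x | ∃ k : ℕ, x = g ^ (k + 1)}.Infinite := by
  have : {x | ∃ k : ℕ, x = g ^ (k + 1)} = Set.range (fun k : ℕ => g ^ (k + 1)) := by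
    ext x; simp [eq_comm]
  rw [this]
  apply Set.infinite_range_of_injective
  intro m n h
  simp only at h
  by_contra hmn
  rcases lt_or_gt_of_ne hmn with h1 | h1
  · have : g ^ (n - m) = 1 := by
      have h2 : n + 1 = (n - m) + (m + 1) := by omega
      rw [h2, pow_add g (n - m)] at h
      exact (mul_eq_right.1 h.symm)
    exact (pow_ne_one' hg (by omega)) this
  · have : g ^ (m - n) = 1 := by
      have h2 : m + 1 = (m - n) + (n + 1) := by omega
      rw [h2, pow_add g (m - n)] at h
      exact (mul_eq_right.1 h)
    exact (pow_ne_one' hg (by omega)) this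

/-- The set of large elements with a given prefix is contained in `E` (if `c`) or disjoint from
`E` (if not `c`). -/
def EM (E : Set F2) (P : List Letter) (c : Prop) : Prop :=
  ∃ N, ∀ h : F2, P <+: h.toWord → N ≤ h.norm → (h ∈ E ↔ c)

theorem reduced_of_toWord_prefix {P : List Letter} {h : F2} (hp : P <+: h.toWord) :
    IsReduced P := red_of_sub (isReduced_toWord (x := h)) hp.isInfix

theorem toWord_mk_of_reduced {P : List Letter} (hp : IsReduced P) : (mk P).toWord = P := by
  rw [toWord_mk, hp.reduce_eq]

theorem mk_flatten_replicate (n : ℕ) (M : List Letter) :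
    (mk (List.replicate n M).flatten : F2) = (mk M) ^ n := by
  induction n with
  | zero => rfl
  | succ n ih =>
    rw [List.replicate_succ, List.flatten_cons, ← mul_mk, ih, pow_succ']

/-- The key lemma on turns: colours on both sides of a turn of `w` agree. -/
theorem turn {E : Set F2} {L : List Letter} (hL : IsCyclicallyReduced L)
    (hE : ∀ g, g * mk L ∈ E ↔ g ∈ E) {P : List Letter} {x y : Letter} {c c' : Prop}
    (hx : IsReduced (P ++ [linv x])) (hy : IsReduced (P ++ [y]))
    (h1 : EM E (P ++ [linv x]) c) (h2 : EM E (P ++ [y]) c') (hA : Adj L x y) : (c ↔ c') := by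
  obtain ⟨v, hr, hl⟩ := hA
  obtain ⟨p, q, hpq, hqp⟩ := exists_append_of_isRotated hr
  have hLp : mk (y :: v) = (mk p)⁻¹ * mk L * mk p := by
    rw [hqp, hpq, ← mul_mk, ← mul_mk]; group
  have hc : IsCyclicallyReduced (y :: v) := by
    rw [isCyclicallyReduced_iff_cyc] at hL ⊢
    exact hL.rot hr
  have hEn : ∀ (n : ℕ) g, g * (mk L) ^ n ∈ E ↔ g ∈ E := by
    intro n
    induction n with
    | zero => simp
    | succ n ih => intro g; rw [pow_succ, ← mul_assoc, hE]; exact ih g
  have hEn' : ∀ (n : ℕ) g, g * ((mk L)⁻¹) ^ n ∈ E ↔ g ∈ E := by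
    intro n g
    have := hEn n (g * ((mk L)⁻¹) ^ n)
    rw [inv_pow, inv_mul_cancel_right] at this
    rw [inv_pow]; exact this.symm
  -- conjugation of powers
  have hpow : ∀ n : ℕ, (mk (y :: v)) ^ n * (mk p)⁻¹ = (mk p)⁻¹ * (mk L) ^ n := by
    intro n
    rw [hLp]
    have : (mk p)⁻¹ * mk L * mk p = (mk p)⁻¹ * mk L * ((mk p)⁻¹)⁻¹ := by group
    rw [this, conj_pow]; group
  have hpow' : ∀ n : ℕ, ((mk (y :: v))⁻¹) ^ n * (mk p)⁻¹ = (mk p)⁻¹ * ((mk L)⁻¹) ^ n := by
    intro n
    rw [hLp]
    have : ((mk p)⁻¹ * mk L * mk p)⁻¹ = (mk p)⁻¹ * (mk L)⁻¹ * ((mk p)⁻¹)⁻¹ := by group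
    rw [this, conj_pow]; group
  have main : ∀ (M : List Letter) (z : Letter) (d : Prop) (w : F2), IsCyclicallyReduced M →
      M.head? = some z → IsReduced (P ++ [z]) → EM E (P ++ [z]) d →
      (∀ (n : ℕ), (mk M) ^ n * (mk p)⁻¹ = (mk p)⁻¹ * w ^ n) →
      (∀ (n : ℕ) g, g * w ^ n ∈ E ↔ g ∈ E) → (mk P * (mk p)⁻¹ ∈ E ↔ d) := by
    intro M z d w hM hz hP ⟨N, hN⟩ hconj hinv
    obtain ⟨M', rfl⟩ : ∃ M', M = z :: M' := by
      cases M with
      | nil => simp at hz
      | cons a M' => simp at hz; exact ⟨M', by rw [hz]⟩
    set n := N + p.length + 1 with hn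
    set K := (List.replicate n (z :: M')).flatten with hK
    have hKr : IsReduced K := (hM.flatten_replicate n).isReduced
    obtain ⟨K', hK'⟩ : ∃ K', K = z :: K' := by
      rw [hK, hn, List.replicate_succ, List.flatten_cons]
      exact ⟨_, rfl⟩
    have hPK : IsReduced (P ++ K) := by
      rw [hK', show P ++ z :: K' = P ++ [z] ++ K' by simp]
      refine IsReduced.append_overlap hP ?_ (by simp)
      rw [List.singleton_append, ← hK']; exact hKr
    have hKmk : mk K = (mk (z :: M')) ^ n := mk_flatten_replicate _ _
    have hlen : n ≤ K.length := by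
      rw [hK, List.length_flatten]
      simp
      nlinarith [Nat.zero_le (n * M'.length)]
    have hprod : mk P * (mk p)⁻¹ * w ^ n = mk (P ++ K) * (mk p)⁻¹ := by
      rw [mul_assoc, ← hconj n, ← hKmk, ← mul_assoc, mul_mk]
    rw [← hinv n, hprod]
    apply hN
    · have h3 := mul_prefix hPK (invRev p)
      have h4 : (mk (P ++ K) * (mk p)⁻¹).toWord = reduce (P ++ K ++ invRev p) := by
        rw [inv_mk, mul_mk, toWord_mk]
      rw [h4]
      refine List.IsPrefix.trans ?_ h3
      rw [hK', show P ++ z :: K' = (P ++ [z]) ++ K' by simp, List.take_append]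
      rw [List.take_of_length_le (l := P ++ [z])]
      · exact List.prefix_append _ _
      · rw [← show P ++ z :: K' = (P ++ [z]) ++ K' by simp, ← hK']
        simp [invRev_length]; omega
    · have h5 := norm_mul_le (mk (P ++ K) * (mk p)⁻¹) (mk p)
      rw [inv_mul_cancel_right] at h5
      have h6 : (mk (P ++ K)).norm = (P ++ K).length := by
        rw [FreeGroup.norm, toWord_mk, hPK.reduce_eq]
      have h7 : (mk p).norm ≤ p.length := norm_mk_le
      rw [h6, List.length_append] at h5
      omega
  have r2 := main (y :: v) y c' (mk L) hc rfl hy h2 hpow hEn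
  have hc' : IsCyclicallyReduced (invRev (y :: v)) := by
    have hc1 := hc
    obtain ⟨hc1, hc2⟩ := hc1
    refine ⟨?_, ?_⟩
    · rw [isReduced_iff_reduce_eq, reduce_invRev, hc1.reduce_eq]
    · intro a ha b hb hab
      rw [invRev, List.getLast?_reverse, Option.mem_def, List.map_cons, List.head?_cons,
        Option.some.injEq] at ha
      rw [invRev, List.head?_reverse, Option.mem_def, List.getLast?_map, hl] at hb
      simp only [Option.map_some, Option.some.injEq] at hb
      subst ha; subst hb
      simp only at hab ⊢
      rw [hc2 x hl y (by simp) hab.symm]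
  have r1 := main (invRev (y :: v)) (linv x) c ((mk L)⁻¹) hc' (by
    rw [invRev, List.head?_reverse, List.getLast?_map, hl]; rfl) hx h1 (by
    intro n
    rw [← inv_mk]; exact hpow' n) hEn'
  exact r1.symm.trans r2

end Pool.Agent.Lib.MP_0c2883_lc
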