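import Pool.Agent.Lib.MP_0c2883_lc.Elim

/-!
# Cutting prefixes and suffixes out of compressed words
-/

namespace Pool.Agent.Lib.MP_0c2883_lc

open List Pool.Agent.Lib.PolyTime

/-! ### Directed parts -/

/-- the part of length `c` at the beginning (`r = false`) or at the end (`r = true`) -/
def part (r : Bool) (u : List Letter) (c : ℕ) : List Letter :=
  if r then u.drop (u.length - c) else u.take c

/-- concatenation, in the direction `r` -/
def cc (r : Bool) (u v : List Letter) : List Letter := if r then v ++ u else u ++ v

/-- iterated concatenation -/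
def ccs (r : Bool) (L : List (List Letter)) : List Letter := L.foldr (cc r) []

theorem cc_assoc (r : Bool) (u v w : List Letter) : cc r (cc r u v) w = cc r u (cc r v w) := by
  cases r <;> simp [cc]

@[simp] theorem cc_nil (r : Bool) (u : List Letter) : cc r u [] = u := by cases r <;> simp [cc]
@[simp] theorem nil_cc (r : Bool) (u : List Letter) : cc r [] u = u := by cases r <;> simp [cc]

theorem length_cc (r : Bool) (u v : List Letter) : (cc r u v).length = u.length + v.length := by
  cases r <;> simp [cc]; omega

theorem ccs_append (r : Bool) (L M : List (List Letter)) :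
    ccs r (L ++ M) = cc r (ccs r L) (ccs r M) := by
  induction L with
  | nil => simp [ccs]
  | cons u L ih =>
    have : ccs r (u :: (L ++ M)) = cc r u (ccs r (L ++ M)) := rfl
    rw [List.cons_append, this, ih, ← cc_assoc]; rfl

@[simp] theorem ccs_singleton (r : Bool) (u : List Letter) : ccs r [u] = u := by simp [ccs]
@[simp] theorem ccs_nil (r : Bool) : ccs r [] = [] := rfl
theorem ccs_cons (r : Bool) (u : List Letter) (L : List (List Letter)) :
    ccs r (u :: L) = cc r u (ccs r L) := rfl

@[simp] theorem part_zero (r : Bool) (u : List Letter) : part r u 0 = [] := by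
  cases r <;> simp [part]

theorem part_all (r : Bool) (u : List Letter) : part r u u.length = u := by
  cases r <;> simp [part]

theorem part_cc_le {r : Bool} {u v : List Letter} {c : ℕ} (h : c ≤ u.length) :
    part r (cc r u v) c = part r u c := by
  cases r
  · simp only [part, cc, Bool.false_eq_true, if_false]
    exact List.take_append_of_le_length h
  · simp only [part, cc, if_true]
    rw [List.length_append, List.drop_append]
    have h1 : v.drop (v.length + u.length - c) = [] := by rw [List.drop_eq_nil_iff]; omega
    rw [h1, List.nil_append]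
    congr 1; omega

theorem part_cc_gt {r : Bool} {u v : List Letter} {c : ℕ} (h : u.length ≤ c)
    (h2 : c ≤ u.length + v.length) :
    part r (cc r u v) c = cc r u (part r v (c - u.length)) := by
  cases r
  · simp only [part, cc, Bool.false_eq_true, if_false]
    rw [List.take_append, List.take_of_length_le h]
  · simp only [part, cc, if_true]
    rw [List.length_append, List.drop_append]
    have h1 : v.length + u.length - c - v.length = 0 := by omega
    rw [h1, List.drop_zero]
    congr 2; omega

theorem length_part {r : Bool} {u : List Letter} {c : ℕ} (h : c ≤ u.length) :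
    (part r u c).length = c := by
  cases r <;> simp [part] <;> omega

/-! ### Heights -/

/-- heights -/
def hStep (t : List ℕ) (r : GRule) : ℕ :=
  match r with
  | none => 0
  | some (Sum.inl _) => 0
  | some (Sum.inr p) => 1 + max (t[p.1]?.getD 0) (t[p.2]?.getD 0)

/-- the height of a nonterminal -/
def H (G : Gram) (i : ℕ) : ℕ := (tab hStep G)[i]?.getD 0

theorem H_append {G G' : Gram} {i : ℕ} (h : i < G.length) : H (G ++ G') i = H G i := by
  unfold H; rw [tab_getElem?_append hStep h]

theorem H_cat {G : Gram} (hG : Valid G) {i a b : ℕ} (h : G[i]? = some (some (Sum.inr (a, b)))) :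
    H G i = 1 + max (H G a) (H G b) := by
  obtain ⟨ha, hb⟩ := hG i a b h
  unfold H; rw [tab_getElem? hStep h]
  simp only [Option.getD_some, hStep]
  rw [tab_take hStep ha, tab_take hStep hb]

theorem H_none {G : Gram} {i : ℕ} (h : G[i]? = some none) : H G i = 0 := by
  unfold H; rw [tab_getElem? hStep h]; rfl

/-! ### The decomposition loop -/

/-- one step of the decomposition -/
def dStep (e : Env) (r : Bool) (s : (ℕ × BNz) × List ℕ) : (ℕ × BNz) × List ℕ :=
  if decide (s.1.2.val = 0) then s
  else if decide (s.1.2.val = (len e s.1.1).val) then ((s.1.1, ⟨0⟩), s.2 ++ [s.1.1])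
  else match cat e s.1.1 with
    | none => s
    | some p =>
      if decide (s.1.2.val ≤ (len e (cond r p.2 p.1)).val) then ((cond r p.2 p.1, s.1.2), s.2)
      else ((cond r p.1 p.2, ⟨s.1.2.val - (len e (cond r p.2 p.1)).val⟩),
        s.2 ++ [cond r p.2 p.1])

/-- the decomposition of a part into nonterminals -/
def dec (e : Env) (r : Bool) (i : ℕ) (c : BNz) : List ℕ :=
  ((dStep e r)^[e.1.length + 1] ((i, c), [])).2

/-- The invariant of the decomposition. -/
structure DInv (G : Gram) (r : Bool) (i₀ : ℕ) (c₀ : ℕ) (s : (ℕ × BNz) × List ℕ) : Prop where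
  lt : s.1.1 < G.length
  le : s.1.2.val ≤ (V G s.1.1).length
  val : cc r (ccs r (s.2.map (V G))) (part r (V G s.1.1) s.1.2.val) = part r (V G i₀) c₀
  mem : ∀ x ∈ s.2, x < G.length
  hgt : ∀ k : ℕ, ∀ x, s.2[k]? = some x → H G x + (k + 1) ≤ H G i₀ + 1
  len : s.2.length ≤ H G i₀ + 1
  run : s.1.2.val ≠ 0 → H G s.1.1 + s.2.length ≤ H G i₀

theorem getElem?_concat_cases {X : Type} {l : List X} {y x : X} {k : ℕ}
    (h : (l ++ [y])[k]? = some x) : l[k]? = some x ∨ (k = l.length ∧ x = y) := by
  by_cases hk : k < l.length
  · rw [List.getElem?_append_left hk] at h; exact Or.inl h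
  · rw [List.getElem?_append_right (by omega)] at h
    have : k - l.length = 0 := by
      by_contra h1
      rw [List.getElem?_eq_none_iff.2 (by simp; omega)] at h
      simp at h
    rw [this] at h
    simp at h
    exact Or.inr ⟨by omega, h.symm⟩

theorem dStep_inv {G : Gram} (hG : Valid G) {r : Bool} {i₀ c₀ : ℕ} {s : (ℕ × BNz) × List ℕ}
    (hs : DInv G r i₀ c₀ s) :
    DInv G r i₀ c₀ (dStep (mkEnv G) r s) ∧ (s.1.2.val = 0 → dStep (mkEnv G) r s = s) ∧
      ((dStep (mkEnv G) r s).1.2.val = 0 ∨ (dStep (mkEnv G) r s).1.1 < s.1.1) := by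
  obtain ⟨⟨i, c⟩, acc⟩ := s
  obtain ⟨s1, s2, s3, s4, s5, s6, s7⟩ := hs
  simp only at s1 s2 s3 s4 s5 s6 s7
  unfold dStep
  simp only [len_mk]
  by_cases h0 : c.val = 0
  · rw [if_pos (by simpa using h0)]
    exact ⟨⟨s1, s2, s3, s4, s5, s6, s7⟩, fun _ => rfl, Or.inl h0⟩
  · rw [if_neg (by simpa using h0)]
    have s7' := s7 h0
    by_cases h1 : c.val = (V G i).length
    · rw [if_pos (by simpa using h1)]
      refine ⟨⟨s1, by simp, ?_, ?_, ?_, ?_, ?_⟩, fun h => absurd h h0, Or.inl rfl⟩
      · rw [← s3, h1, part_all, part_zero, cc_nil, List.map_append, ccs_append]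
        simp
      · intro x hx
        rw [List.mem_append, List.mem_singleton] at hx
        rcases hx with hx | rfl
        · exact s4 x hx
        · exact s1
      · intro k x hx
        rcases getElem?_concat_cases hx with h | ⟨h, rfl⟩
        · exact s5 k x h
        · subst h; omega
      · simp only [List.length_append, List.length_singleton]; omega
      · intro h; exact absurd rfl h
    · rw [if_neg (by simpa using h1)]
      rcases hc : cat (mkEnv G) i with _ | ⟨a, b⟩
      · exfalso
        rcases V_of_cat_none hc with h | ⟨x, h⟩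
        · rw [h] at s2; simp at s2; exact h0 s2
        · rw [h] at s2 h1; simp at s2 h1; omega
      · simp only
        have h2 := cat_eq_some hc
        obtain ⟨ha, hb⟩ := hG _ _ _ h2
        have hH := H_cat hG h2
        have hV : V G i = cc r (V G (cond r b a)) (V G (cond r a b)) := by
          rw [V_cat hG h2]; cases r <;> rfl
        have hnear : cond r b a < i := by cases r <;> assumption
        have hfar : cond r a b < i := by cases r <;> assumption
        have hHn : H G (cond r b a) + 1 ≤ H G i := by rw [hH]; cases r <;> simp <;> omega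
        have hHf : H G (cond r a b) + 1 ≤ H G i := by rw [hH]; cases r <;> simp <;> omega
        have hl : (V G i).length = (V G (cond r b a)).length + (V G (cond r a b)).length := by
          rw [hV, length_cc]
        generalize cond r b a = near at *
        generalize cond r a b = far at *
        by_cases h3 : c.val ≤ (V G near).length
        · rw [if_pos (by simpa using h3)]
          refine ⟨⟨by simp only; omega, h3, ?_, s4, s5, s6, ?_⟩, fun h => absurd h h0,
            Or.inr hnear⟩
          · simp only
            rw [← s3, hV, part_cc_le h3]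
          · intro _; simp only; omega
        · rw [if_neg (by simpa using h3)]
          refine ⟨⟨by simp only; omega, by simp only; omega, ?_, ?_, ?_, ?_, ?_⟩,
            fun h => absurd h h0, Or.inr hfar⟩
          · simp only
            rw [← s3, hV, part_cc_gt (by omega) (by omega), List.map_append, ccs_append,
              cc_assoc]
            simp
          · intro x hx
            rw [List.mem_append, List.mem_singleton] at hx
            rcases hx with hx | rfl
            · exact s4 x hx
            · omega
          · intro k x hx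
            rcases getElem?_concat_cases hx with h | ⟨h, rfl⟩
            · exact s5 k x h
            · subst h; omega
          · simp only [List.length_append, List.length_singleton]; omega
          · intro _
            simp only [List.length_append, List.length_singleton]; omega

/-- **Specification of the decomposition.** -/
theorem dec_spec {G : Gram} (hG : Valid G) {r : Bool} {i : ℕ} {c : BNz} (hi : i < G.length)
    (hc : c.val ≤ (V G i).length) :
    ccs r ((dec (mkEnv G) r i c).map (V G)) = part r (V G i) c.val ∧
      (∀ x ∈ dec (mkEnv G) r i c, x < G.length) ∧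
      (∀ k : ℕ, ∀ x, (dec (mkEnv G) r i c)[k]? = some x → H G x + (k + 1) ≤ H G i + 1) ∧
      (dec (mkEnv G) r i c).length ≤ H G i + 1 := by
  have h0 : DInv G r i c.val ((i, c), []) :=
    ⟨hi, hc, by simp, by simp, by simp, by simp, by simp⟩
  have key : ∀ n : ℕ, DInv G r i c.val ((dStep (mkEnv G) r)^[n] ((i, c), [])) ∧
      (((dStep (mkEnv G) r)^[n] ((i, c), [])).1.2.val = 0 ∨
        ((dStep (mkEnv G) r)^[n] ((i, c), [])).1.1 + n ≤ i) := by
    intro n
    induction n with
    | zero => exact ⟨h0, Or.inr le_rfl⟩
    | succ n ih =>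
      rw [Function.iterate_succ_apply']
      obtain ⟨i1, i2⟩ := ih
      obtain ⟨j1, j2, j3⟩ := dStep_inv hG i1
      refine ⟨j1, ?_⟩
      rcases i2 with h | h
      · left; rw [j2 h]; exact h
      · rcases j3 with h' | h'
        · exact Or.inl h'
        · right; omega
  obtain ⟨k1, k2⟩ := key ((mkEnv G).1.length + 1)
  have hz : ((dStep (mkEnv G) r)^[(mkEnv G).1.length + 1] ((i, c), [])).1.2.val = 0 := by
    rcases k2 with h | h
    · exact h
    · have : (mkEnv G).1.length = G.length := rfl
      omega
  refine ⟨?_, k1.mem, k1.hgt, k1.len⟩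
  have := k1.val
  rw [hz, part_zero, cc_nil] at this
  exact this

/-! ### Chains -/

/-- one more node of a chain -/
def cStep (r : Bool) (s : Gram × ℕ) (x : ℕ) : Gram × ℕ :=
  (s.1 ++ [some (Sum.inr (cond r (s.2, x) (x, s.2)))], s.1.length)

/-- the chain of a list of nonterminals -/
def chain (r : Bool) (G : Gram) (L : List ℕ) : Gram × ℕ := L.reverse.foldl (cStep r) (G, 0)

/-- a grammar whose nonterminal `0` is empty -/
def Good (G : Gram) : Prop := Valid G ∧ G[0]? = some none

theorem Good.pos {G : Gram} (h : Good G) : 0 < G.length := by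
  by_contra h'
  have := h.2
  rw [List.getElem?_eq_none_iff.2 (by omega)] at this
  simp at this

theorem Good.V0 {G : Gram} (h : Good G) : V G 0 = [] := V_none h.2

theorem Good.concat {G : Gram} (h : Good G) {r : GRule}
    (hr : ∀ a b, r = some (Sum.inr (a, b)) → a < G.length ∧ b < G.length) : Good (G ++ [r]) := by
  refine ⟨h.1.concat hr, ?_⟩
  rw [List.getElem?_append_left h.pos]; exact h.2

theorem V_concat {G : Gram} (h : Valid G) {a b : ℕ} (ha : a < G.length) (hb : b < G.length) :
    V (G ++ [some (Sum.inr (a, b))]) G.length = V G a ++ V G b ∧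
      H (G ++ [some (Sum.inr (a, b))]) G.length = 1 + max (H G a) (H G b) := by
  have h1 : Valid (G ++ [some (Sum.inr (a, b))]) := h.concat (by
    intro a' b' h'
    simp only [Option.some.injEq, Sum.inr.injEq, Prod.mk.injEq] at h'
    omega)
  have h2 : (G ++ [some (Sum.inr (a, b))])[G.length]? = some (some (Sum.inr (a, b))) := by simp
  rw [V_cat h1 h2, H_cat h1 h2, V_append ha, V_append hb, H_append ha, H_append hb]
  exact ⟨rfl, rfl⟩

/-- `G'` extends `G`. -/
theorem chain_spec {r : Bool} : ∀ (L : List ℕ) (G : Gram), Good G → (∀ x ∈ L, x < G.length) →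
    ∀ B : ℕ, (∀ k : ℕ, ∀ x, L[k]? = some x → H G x + (k + 1) ≤ B) →
    ∃ G', (chain r G L).1 = G ++ G' ∧ Good (G ++ G') ∧ (chain r G L).2 < (G ++ G').length ∧
      V (G ++ G') (chain r G L).2 = ccs r (L.map (V G)) ∧ G'.length = L.length ∧
      H (G ++ G') (chain r G L).2 ≤ B := by
  intro L
  induction L with
  | nil =>
    intro G hG _ B _
    refine ⟨[], by simp [chain], by simpa using hG, ?_, ?_, rfl, ?_⟩
    · simpa [chain] using hG.pos
    · simpa [chain] using hG.V0
    · have : H G 0 = 0 := H_none hG.2
      simp [chain, this]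
  | cons x L ih =>
    intro G hG hL B hB
    obtain ⟨G', h1, h2, h3, h4, h5, h6⟩ := ih G hG (fun y hy => hL y (List.mem_cons_of_mem _ hy))
      (B - 1) (by
        intro k y hy
        have := hB (k + 1) y (by simpa using hy)
        omega)
    have hx := hL x (by simp)
    have hB0 := hB 0 x (by simp)
    have e : chain r G (x :: L) = cStep r (chain r G L) x := by
      unfold chain
      rw [List.reverse_cons, List.foldl_append]; rfl
    have hx' : x < (G ++ G').length := by rw [List.length_append]; omega
    set p : ℕ × ℕ := cond r ((chain r G L).2, x) (x, (chain r G L).2) with hp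
    have hp1 : p.1 < (G ++ G').length := by rw [hp]; cases r <;> simp only [cond] <;> assumption
    have hp2 : p.2 < (G ++ G').length := by rw [hp]; cases r <;> simp only [cond] <;> assumption
    obtain ⟨v1, v2⟩ := V_concat h2.1 hp1 hp2
    have e1 : (chain r G (x :: L)).1 = (G ++ G') ++ [some (Sum.inr p)] := by
      rw [e, cStep, h1]
    have e2 : (chain r G (x :: L)).2 = (G ++ G').length := by rw [e, cStep, h1]
    refine ⟨G' ++ [some (Sum.inr p)], by rw [e1, List.append_assoc], ?_, ?_, ?_, ?_, ?_⟩
    · rw [← List.append_assoc]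
      refine h2.concat ?_
      intro a b h
      simp only [Option.some.injEq, Sum.inr.injEq] at h
      rw [h] at hp1 hp2
      exact ⟨hp1, hp2⟩
    · rw [e2]; simp
    · rw [e2, ← List.append_assoc]
      rw [show some (Sum.inr p) = (some (Sum.inr (p.1, p.2)) : GRule) from rfl, v1,
        List.map_cons, ccs_cons, ← h4, ← V_append (G' := G') hx, hp]
      cases r <;> simp [cc]
    · simp [h5]
    · rw [e2, ← List.append_assoc]
      rw [show some (Sum.inr p) = (some (Sum.inr (p.1, p.2)) : GRule) from rfl, v2]
      have hHx : H (G ++ G') x = H G x := H_append hx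
      rw [hp]
      cases r <;> simp only [cond] <;> omega

/-! ### Cuts -/

/-- cut out a part -/
def cut' (r : Bool) (G : Gram) (i : ℕ) (c : BNz) : Gram × ℕ :=
  chain r G (dec (mkEnv G) r i c)

theorem cut_spec {r : Bool} {G : Gram} (hG : Good G) {i : ℕ} {c : BNz} (hi : i < G.length)
    (hc : c.val ≤ (V G i).length) :
    ∃ G', (cut' r G i c).1 = G ++ G' ∧ Good (G ++ G') ∧ (cut' r G i c).2 < (G ++ G').length ∧
      V (G ++ G') (cut' r G i c).2 = part r (V G i) c.val ∧ G'.length ≤ H G i + 1 ∧
      H (G ++ G') (cut' r G i c).2 ≤ H G i + 1 := by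
  obtain ⟨d1, d2, d3, d4⟩ := dec_spec hG.1 (r := r) hi hc
  obtain ⟨G', h1, h2, h3, h4, h5, h6⟩ := chain_spec (r := r) (dec (mkEnv G) r i c) G hG d2
    (H G i + 1) d3
  exact ⟨G', h1, h2, h3, by rw [← d1]; exact h4, by omega, h6⟩

end Pool.Agent.Lib.MP_0c2883_lc
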