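import Pool.Agent.Lib.MP_0c2883_lc.Gram
import Pool.Agent.Lib.MP_0c2883_lc.Period

/-!
# Testing overlap relations between compressed words: the algorithm and its correctness
-/

namespace Pool.Agent.Lib.MP_0c2883_lc

open List Pool.Agent.Lib.PolyTime

/-- Overlap relations `(i, j, l)`: the suffix of length `l` of the word `i` is the prefix of
length `l` of the word `j`. -/
abbrev Rel := (ℕ × ℕ) × BNz

/-- A grammar with its tables of lengths, first letters and last letters. -/
abbrev Env := Gram × (List BNz × (List (Option Letter) × List (Option Letter)))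

/-- the children of a concatenation -/
def cat (e : Env) (i : ℕ) : Option (ℕ × ℕ) :=
  match e.1[i]?.getD none with
  | none => none
  | some (Sum.inl _) => none
  | some (Sum.inr p) => some p

/-- length -/
def len (e : Env) (i : ℕ) : BNz := e.2.1[i]?.getD ⟨0⟩
/-- first letter -/
def fst (e : Env) (i : ℕ) : Option Letter := e.2.2.1[i]?.getD none
/-- last letter -/
def lst (e : Env) (i : ℕ) : Option Letter := e.2.2.2[i]?.getD none

/-- The environment of a grammar. -/
def mkEnv (G : Gram) : Env := (G, (tab lenStep G, (tab firstStep G, tab lastStep G)))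

/-- The truth of a relation. -/
def TR (G : Gram) (r : Rel) : Prop := SP (V G r.1.1) (V G r.1.2) r.2.val

/-- Well-formed relations, with indices below `m`. -/
def WF (G : Gram) (m : ℕ) (r : Rel) : Prop :=
  r.1.1 < m ∧ r.1.2 < m ∧ r.2.val ≤ (V G r.1.1).length ∧ r.2.val ≤ (V G r.1.2).length

theorem len_mk (G : Gram) (i : ℕ) : (len (mkEnv G) i).val = (V G i).length := by
  have := lens_eq G i
  unfold len mkEnv
  simp only
  rw [this]

theorem fst_mk (G : Gram) (i : ℕ) : fst (mkEnv G) i = (V G i).head? := firsts_eq G i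
theorem lst_mk (G : Gram) (i : ℕ) : lst (mkEnv G) i = (V G i).getLast? := lasts_eq G i

theorem cat_eq_some {G : Gram} {i : ℕ} {p : ℕ × ℕ} (h : cat (mkEnv G) i = some p) :
    G[i]? = some (some (Sum.inr p)) := by
  unfold cat mkEnv at h
  simp only at h
  rcases hG : G[i]? with _ | _ | x | q
  · rw [hG] at h; simp at h
  · rw [hG] at h; simp at h
  · rw [hG] at h; simp at h
  · rw [hG] at h; simp at h; rw [h]

theorem V_of_cat_none {G : Gram} {i : ℕ} (h : cat (mkEnv G) i = none) :
    V G i = [] ∨ ∃ x, V G i = [x] := by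
  unfold cat mkEnv at h
  simp only at h
  rcases hG : G[i]? with _ | _ | x | q
  · left; exact V_out (by rwa [List.getElem?_eq_none_iff] at hG)
  · left; exact V_none hG
  · right; exact ⟨x, V_letter hG⟩
  · rw [hG] at h; simp at h

/-! ### Pushing an inner occurrence down to the node whose cut it crosses -/

/-- one step down -/
def pdStep (e : Env) (v : ℕ) (s : ℕ × BNz) : ℕ × BNz :=
  match cat e s.1 with
  | none => s
  | some p =>
    if decide (s.2.val + (len e v).val ≤ (len e p.1).val) then (p.1, s.2)
    else if decide ((len e p.1).val ≤ s.2.val) then (p.2, ⟨s.2.val - (len e p.1).val⟩)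
    else s

/-- output relations -/
def pdOut (e : Env) (v : ℕ) (s : ℕ × BNz) : List Rel :=
  match cat e s.1 with
  | none => [((s.1, v), ⟨1⟩)]
  | some p => [((p.1, v), ⟨(len e p.1).val - s.2.val⟩),
      ((v, p.2), ⟨s.2.val + (len e v).val - (len e p.1).val⟩)]

/-- The relations expressing that the word `v` occurs in the word `u` at position `d`. -/
def inn (e : Env) (v u : ℕ) (d : BNz) : List Rel :=
  if decide ((len e v).val = 0) then []
  else pdOut e v ((pdStep e v)^[e.1.length] (u, d))

theorem pdStep_spec {G : Gram} (hG : Valid G) {v : ℕ} (hv : 0 < (V G v).length) (s : ℕ × BNz)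
    (hs : s.2.val + (V G v).length ≤ (V G s.1).length) :
    let s' := pdStep (mkEnv G) v s
    s'.2.val + (V G v).length ≤ (V G s'.1).length ∧
      (Occ (V G s'.1) (V G v) s'.2.val ↔ Occ (V G s.1) (V G v) s.2.val) ∧
      (s' = s ∨ s'.1 < s.1) := by
  intro s'
  have hs' : s' = pdStep (mkEnv G) v s := rfl
  unfold pdStep at hs'
  rcases hc : cat (mkEnv G) s.1 with _ | ⟨a, b⟩
  · rw [hc] at hs'; simp only at hs'
    rw [hs']; exact ⟨hs, Iff.rfl, Or.inl rfl⟩
  · rw [hc] at hs'; simp only at hs'
    have h1 := cat_eq_some hc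
    obtain ⟨ha, hb⟩ := hG _ _ _ h1
    have hV := V_cat hG h1
    rw [len_mk, len_mk] at hs'
    rw [hV, List.length_append] at hs
    split_ifs at hs' with c1 c2
    · rw [decide_eq_true_eq] at c1
      rw [hs']
      refine ⟨c1, ?_, Or.inr ha⟩
      rw [hV, occ_left c1]
    · rw [decide_eq_true_eq] at c1 c2
      rw [hs']
      refine ⟨by simp only; omega, ?_, Or.inr hb⟩
      rw [hV, occ_right c2]
    · rw [hs', hV]
      exact ⟨by rw [List.length_append]; exact hs, Iff.rfl, Or.inl rfl⟩

theorem inn_spec {G : Gram} (hG : Valid G) {m u v : ℕ} {d : BNz} (hv : v < m)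
    (hu : u < m ∨ (u = m ∧ (cat (mkEnv G) m).isSome)) (hm : u < G.length)
    (hd : d.val + (V G v).length ≤ (V G u).length) :
    ((∀ r ∈ inn (mkEnv G) v u d, TR G r) ↔ Occ (V G u) (V G v) d.val) ∧
      ∀ r ∈ inn (mkEnv G) v u d, WF G m r := by
  unfold inn
  rw [len_mk]
  by_cases h0 : (V G v).length = 0
  · have h1 : V G v = [] := List.length_eq_zero_iff.1 h0
    simp [h0, h1, Occ]
  · simp only [h0, decide_false, Bool.false_eq_true, if_false]
    have hpos : 0 < (V G v).length := Nat.pos_of_ne_zero h0
    have key : ∀ n : ℕ, let s := (pdStep (mkEnv G) v)^[n] (u, d)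
        s.2.val + (V G v).length ≤ (V G s.1).length ∧
        (Occ (V G s.1) (V G v) s.2.val ↔ Occ (V G u) (V G v) d.val) ∧ s.1 ≤ u ∧
        (pdStep (mkEnv G) v s = s ∨ s.1 + n ≤ u) := by
      intro n
      induction n with
      | zero => exact ⟨hd, Iff.rfl, le_rfl, Or.inr le_rfl⟩
      | succ n ih =>
        obtain ⟨i1, i2, i3, i4⟩ := ih
        rw [Function.iterate_succ_apply']
        set s := (pdStep (mkEnv G) v)^[n] (u, d) with hs
        obtain ⟨j1, j2, j3⟩ := pdStep_spec hG hpos s i1
        refine ⟨j1, j2.trans i2, ?_, ?_⟩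
        · rcases j3 with h | h
          · rw [h]; exact i3
          · omega
        · rcases i4 with h | h
          · left; rw [h, h]
          · rcases j3 with h' | h'
            · left; rw [h', h']
            · right; omega
    obtain ⟨i1, i2, i3, i4⟩ := key (mkEnv G).1.length
    set s := (pdStep (mkEnv G) v)^[(mkEnv G).1.length] (u, d) with hs
    have hlen : (mkEnv G).1.length = G.length := rfl
    have hfix : pdStep (mkEnv G) v s = s := by
      rcases i4 with h | h
      · exact h
      · rw [hlen] at h; omega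
    unfold pdOut
    rcases hc : cat (mkEnv G) s.1 with _ | ⟨a, b⟩
    · simp only
      have hsm : s.1 < m := by
        rcases hu with h | ⟨h, h'⟩
        · omega
        · rcases Nat.lt_or_ge s.1 m with h2 | h2
          · exact h2
          · have : s.1 = m := by omega
            rw [this] at hc; rw [hc] at h'; simp at h'
      rcases V_of_cat_none hc with h | ⟨x, h⟩
      · rw [h] at i1; simp only [List.length_nil] at i1; omega
      · rw [h] at i1
        simp only [List.length_singleton] at i1
        have h2 : (V G v).length = 1 := by omega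
        have h3 : s.2.val = 0 := by omega
        refine ⟨?_, ?_⟩
        · rw [← i2, h, h3]
          simp only [List.mem_singleton, forall_eq]
          unfold TR SP Occ
          simp only [h, h2, List.length_singleton, Nat.sub_self, List.drop_zero]
          rw [List.take_of_length_le (l := V G v) (by omega)]
          simp
        · simp only [List.mem_singleton, forall_eq]
          refine ⟨hsm, hv, ?_, ?_⟩
          · simp [h]
          · simp [h2]
    · simp only
      have h1 := cat_eq_some hc
      obtain ⟨ha, hb⟩ := hG _ _ _ h1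
      have hV := V_cat hG h1
      unfold pdStep at hfix
      rw [hc] at hfix
      simp only [len_mk] at hfix
      rw [len_mk, len_mk]
      have c1 : ¬ (s.2.val + (V G v).length ≤ (V G a).length) := by
        intro h
        rw [if_pos (by simpa using h)] at hfix
        have := congrArg Prod.fst hfix
        simp at this; omega
      have c2 : ¬ ((V G a).length ≤ s.2.val) := by
        intro h
        rw [if_neg (by simpa using c1), if_pos (by simpa using h)] at hfix
        have := congrArg Prod.fst hfix
        simp at this; omega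
      have hsm : s.1 ≤ m := by
        rcases hu with h | h <;> omega
      rw [hV, List.length_append] at i1
      refine ⟨?_, ?_⟩
      · rw [← i2, hV, occ_cross (by omega) (by omega) i1]
        simp only [List.mem_cons, List.not_mem_nil, or_false, forall_eq_or_imp, forall_eq]
        rfl
      · intro r hr
        simp only [List.mem_cons, List.not_mem_nil, or_false] at hr
        rcases hr with rfl | rfl
        · refine ⟨?_, ?_, ?_, ?_⟩ <;> simp only <;> omega
        · refine ⟨?_, ?_, ?_, ?_⟩ <;> simp only <;> omega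

/-! ### Splitting a relation -/

/-- split the first word -/
def exp1 (e : Env) (m : ℕ) (r : Rel) : List Rel :=
  if decide (r.1.1 = m) then
    (match cat e m with
    | none => [r]
    | some p =>
      if decide (r.2.val ≤ (len e p.2).val) then [((p.2, r.1.2), r.2)]
      else ((p.1, r.1.2), ⟨r.2.val - (len e p.2).val⟩) ::
        inn e p.2 r.1.2 ⟨r.2.val - (len e p.2).val⟩)
  else [r]

/-- split the second word -/
def exp2 (e : Env) (m : ℕ) (r : Rel) : List Rel :=
  if decide (r.1.2 = m) then
    (match cat e m with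
    | none => [r]
    | some p =>
      if decide (r.2.val ≤ (len e p.1).val) then [((r.1.1, p.1), r.2)]
      else ((r.1.1, p.2), ⟨r.2.val - (len e p.1).val⟩) ::
        inn e p.1 r.1.1 ⟨(len e r.1.1).val - r.2.val⟩)
  else [r]

theorem exp1_spec {G : Gram} (hG : Valid G) {m : ℕ} (hm : m < G.length) {r : Rel}
    (hr : WF G (m + 1) r) (hc : (cat (mkEnv G) m).isSome) :
    ((∀ r' ∈ exp1 (mkEnv G) m r, TR G r') ↔ TR G r) ∧
      ∀ r' ∈ exp1 (mkEnv G) m r, WF G (m + 1) r' ∧ r'.1.1 < m := by
  obtain ⟨⟨i, j⟩, ⟨l⟩⟩ := r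
  obtain ⟨w1, w2, w3, w4⟩ := hr
  simp only at w1 w2 w3 w4
  unfold exp1
  simp only
  by_cases him : i = m
  · subst him
    obtain ⟨⟨a, b⟩, hab⟩ := Option.isSome_iff_exists.1 hc
    rw [hab]
    simp only [decide_true, if_true, len_mk]
    have h1 := cat_eq_some hab
    obtain ⟨ha, hb⟩ := hG _ _ _ h1
    have hV := V_cat hG h1
    by_cases hl : l ≤ (V G b).length
    · rw [if_pos (by simpa using hl)]
      refine ⟨?_, ?_⟩
      · simp only [List.mem_singleton, forall_eq]
        unfold TR
        simp only
        rw [hV, sp_left_le hl]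
      · simp only [List.mem_singleton, forall_eq]
        exact ⟨⟨by simp only; omega, by simp only; omega, hl, w4⟩, hb⟩
    · rw [if_neg (by simpa using hl)]
      rw [hV, List.length_append] at w3
      have hj : j < G.length := by omega
      obtain ⟨k1, k2⟩ := inn_spec hG (m := i) (u := j) (v := b)
        (d := ⟨l - (V G b).length⟩) hb (by
          rcases Nat.lt_or_ge j i with h | h
          · exact Or.inl h
          · exact Or.inr ⟨by omega, hc⟩) hj (by simp only; omega)
      refine ⟨?_, ?_⟩
      · rw [List.forall_mem_cons, k1]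
        unfold TR
        simp only
        rw [hV, sp_left_gt (by omega) w3 w4]
      · intro r' hr'
        rw [List.mem_cons] at hr'
        rcases hr' with rfl | hr'
        · refine ⟨⟨?_, ?_, ?_, ?_⟩, ha⟩ <;> simp only <;> omega
        · obtain ⟨a1, a2, a3, a4⟩ := k2 r' hr'
          exact ⟨⟨by omega, by omega, a3, a4⟩, a1⟩
  · rw [if_neg (by simpa using him)]
    refine ⟨by simp, ?_⟩
    simp only [List.mem_singleton, forall_eq]
    exact ⟨⟨w1, w2, w3, w4⟩, by omega⟩

theorem exp2_spec {G : Gram} (hG : Valid G) {m : ℕ} (hm : m < G.length) {r : Rel}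
    (hr : WF G (m + 1) r) (hr1 : r.1.1 < m) (hc : (cat (mkEnv G) m).isSome) :
    ((∀ r' ∈ exp2 (mkEnv G) m r, TR G r') ↔ TR G r) ∧
      ∀ r' ∈ exp2 (mkEnv G) m r, WF G m r' := by
  obtain ⟨⟨i, j⟩, ⟨l⟩⟩ := r
  obtain ⟨w1, w2, w3, w4⟩ := hr
  simp only at w1 w2 w3 w4 hr1
  unfold exp2
  simp only
  by_cases him : j = m
  · subst him
    obtain ⟨⟨a, b⟩, hab⟩ := Option.isSome_iff_exists.1 hc
    rw [hab]
    simp only [decide_true, if_true, len_mk]
    have h1 := cat_eq_some hab
    obtain ⟨ha, hb⟩ := hG _ _ _ h1
    have hV := V_cat hG h1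
    by_cases hl : l ≤ (V G a).length
    · rw [if_pos (by simpa using hl)]
      refine ⟨?_, ?_⟩
      · simp only [List.mem_singleton, forall_eq]
        unfold TR
        simp only
        rw [hV, sp_right_le hl]
      · simp only [List.mem_singleton, forall_eq]
        exact ⟨hr1, ha, w3, hl⟩
    · rw [if_neg (by simpa using hl)]
      rw [hV, List.length_append] at w4
      obtain ⟨k1, k2⟩ := inn_spec hG (m := j) (u := i) (v := a)
        (d := ⟨(V G i).length - l⟩) ha (Or.inl hr1) (by omega) (by simp only; omega)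
      refine ⟨?_, ?_⟩
      · rw [List.forall_mem_cons, k1]
        unfold TR
        simp only
        rw [hV, sp_right_gt (by omega) w3 w4]
      · intro r' hr'
        rw [List.mem_cons] at hr'
        rcases hr' with rfl | hr'
        · refine ⟨hr1, hb, ?_, ?_⟩ <;> simp only <;> omega
        · exact k2 r' hr'
  · rw [if_neg (by simpa using him)]
    refine ⟨by simp, ?_⟩
    simp only [List.mem_singleton, forall_eq]
    exact ⟨hr1, by simp only; omega, w3, w4⟩

/-! ### Insertion with merging -/

/-- the key of a relation -/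
def key (r : Rel) : (ℕ × ℕ) × ℕ := (r.1, Nat.size r.2.val)

/-- the maximum of three lengths -/
def mrgM (r x y : Rel) : ℕ := max (max r.2.val x.2.val) y.2.val

/-- three relations with the same key are replaced by two -/
def mrg (r x y : Rel) : List Rel :=
  [(r.1, ⟨mrgM r x y⟩), (r.1, ⟨mrgM r x y - Nat.gcd (Nat.gcd (mrgM r x y - r.2.val)
    (mrgM r x y - x.2.val)) (mrgM r x y - y.2.val)⟩)]

/-- bounds on a relation -/
def good (e : Env) (r : Rel) : Bool :=
  decide (r.1.1 < e.1.length) && (decide (r.1.2 < e.1.length) &&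
    decide (Nat.size r.2.val ≤ e.1.length))

/-- insertion into the list of relations -/
def insL (l : List Rel) (r : Rel) : List Rel :=
  match l.filter (fun r' => decide (key r' = key r)) with
  | [] => r :: l
  | [_] => r :: l
  | x :: y :: t => mrg r x y ++ (t ++ l.filter (fun r' => !decide (key r' = key r)))

/-- insertion -/
def ins (e : Env) (s : Bool × List Rel) (r : Rel) : Bool × List Rel :=
  if decide (r.2.val = 0) then s
  else if decide (r.2.val = 1) then (s.1 && decide (lst e r.1.1 = fst e r.1.2), s.2)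
  else if good e r then (s.1, insL s.2 r)
  else s

/-- the meaning of a state -/
def Sem (G : Gram) (s : Bool × List Rel) : Prop := s.1 = true ∧ ∀ r ∈ s.2, TR G r

/-- well-formed and nontrivial -/
def WF2 (G : Gram) (m : ℕ) (r : Rel) : Prop := WF G m r ∧ 2 ≤ r.2.val

theorem mem_filter_key {l : List Rel} {r x : Rel}
    (h : x ∈ l.filter (fun r' => decide (key r' = key r))) : x ∈ l ∧ x.1 = r.1 ∧
      Nat.size x.2.val = Nat.size r.2.val := by
  rw [List.mem_filter, decide_eq_true_eq] at h
  have h2 := h.2
  unfold key at h2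
  rw [Prod.mk.injEq] at h2
  exact ⟨h.1, h2.1, h2.2⟩

theorem insL_spec {G : Gram} {m : ℕ} {l : List Rel} {r : Rel} (hl : ∀ x ∈ l, WF2 G m x)
    (hr : WF2 G m r) : ((∀ x ∈ insL l r, TR G x) ↔ (TR G r ∧ ∀ x ∈ l, TR G x)) ∧
      ∀ x ∈ insL l r, WF2 G m x := by
  have hsplit : ∀ P : Rel → Prop, (∀ x ∈ l, P x) ↔
      (∀ x ∈ l.filter (fun r' => decide (key r' = key r)), P x) ∧
      (∀ x ∈ l.filter (fun r' => !decide (key r' = key r)), P x) := by
    intro P
    constructor
    · intro h
      exact ⟨fun x hx => h x (List.mem_filter.1 hx).1, fun x hx => h x (List.mem_filter.1 hx).1⟩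
    · rintro ⟨h1, h2⟩ x hx
      by_cases hk : key x = key r
      · exact h1 x (List.mem_filter.2 ⟨hx, by simp [hk]⟩)
      · exact h2 x (List.mem_filter.2 ⟨hx, by simp [hk]⟩)
  unfold insL
  rcases hf : l.filter (fun r' => decide (key r' = key r)) with _ | ⟨x, _ | ⟨y, t⟩⟩
  · simp only
    refine ⟨by rw [List.forall_mem_cons], ?_⟩
    rw [List.forall_mem_cons]; exact ⟨hr, hl⟩
  · simp only
    refine ⟨by rw [List.forall_mem_cons], ?_⟩
    rw [List.forall_mem_cons]; exact ⟨hr, hl⟩
  · simp only
    have hx : x ∈ l.filter (fun r' => decide (key r' = key r)) := by rw [hf]; simp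
    have hy : y ∈ l.filter (fun r' => decide (key r' = key r)) := by rw [hf]; simp
    obtain ⟨x1, x2, x3⟩ := mem_filter_key hx
    obtain ⟨y1, y2, y3⟩ := mem_filter_key hy
    obtain ⟨⟨a1, a2, a3, a4⟩, a5⟩ := hr
    obtain ⟨⟨_, _, b3, b4⟩, b5⟩ := hl x x1
    obtain ⟨⟨_, _, c3, c4⟩, c5⟩ := hl y y1
    rw [x2] at b3 b4
    rw [y2] at c3 c4
    obtain ⟨m1, m2, m3, m4⟩ := sp_merge (s := Nat.size r.2.val) rfl x3 y3 a3 a4 b3 b4 c3 c4
      (by omega)
    have hmrg : (∀ z ∈ mrg r x y, TR G z) ↔ (TR G r ∧ TR G x ∧ TR G y) := by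
      unfold mrg mrgM
      simp only [List.mem_cons, List.not_mem_nil, or_false, forall_eq_or_imp, forall_eq]
      unfold TR
      rw [x2, y2]
      exact m1.symm
    refine ⟨?_, ?_⟩
    · rw [List.forall_mem_append, List.forall_mem_append, hmrg, hsplit (fun x => TR G x), hf,
        List.forall_mem_cons, List.forall_mem_cons]
      tauto
    · have h2 := (hsplit (fun x => WF2 G m x)).1 hl
      rw [hf, List.forall_mem_cons, List.forall_mem_cons] at h2
      rw [List.forall_mem_append, List.forall_mem_append]
      refine ⟨?_, h2.1.2.2, h2.2⟩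
      unfold mrg mrgM
      simp only [List.mem_cons, List.not_mem_nil, or_false, forall_eq_or_imp, forall_eq]
      unfold WF2 WF
      simp only
      omega

theorem sp_one {u v : List Letter} (hu : 1 ≤ u.length) (hv : 1 ≤ v.length) :
    SP u v 1 ↔ u.getLast? = v.head? := by
  obtain ⟨x, v', rfl⟩ := List.exists_cons_of_length_pos hv
  rcases List.eq_nil_or_concat' u with rfl | ⟨u', y, rfl⟩
  · simp at hu
  · unfold SP
    rw [List.getLast?_append]
    simp

theorem good_of_wf {G : Gram} (hG : Valid G) {m : ℕ} (hm : m ≤ G.length) {r : Rel}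
    (hr : WF G m r) : good (mkEnv G) r = true := by
  obtain ⟨h1, h2, h3, h4⟩ := hr
  unfold good
  have : (mkEnv G).1.length = G.length := rfl
  rw [this]
  have h5 := size_V hG (show r.1.1 < G.length by omega) h3
  simp only [Bool.and_eq_true, decide_eq_true_eq]
  omega

theorem ins_spec {G : Gram} (hG : Valid G) {m : ℕ} (hm : m ≤ G.length) {s : Bool × List Rel}
    {r : Rel} (hs : ∀ x ∈ s.2, WF2 G m x) (hr : WF G m r) :
    (Sem G (ins (mkEnv G) s r) ↔ (Sem G s ∧ TR G r)) ∧
      ∀ x ∈ (ins (mkEnv G) s r).2, WF2 G m x := by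
  unfold ins
  by_cases h0 : r.2.val = 0
  · rw [if_pos (by simpa using h0)]
    refine ⟨?_, hs⟩
    have : TR G r := by unfold TR SP; rw [h0]; simp
    simp [this]
  · rw [if_neg (by simpa using h0)]
    by_cases h1 : r.2.val = 1
    · rw [if_pos (by simpa using h1)]
      refine ⟨?_, hs⟩
      have h2 : TR G r ↔ (V G r.1.1).getLast? = (V G r.1.2).head? := by
        unfold TR; rw [h1]; exact sp_one (by have := hr.2.2.1; omega) (by have := hr.2.2.2; omega)
      unfold Sem
      rw [h2, lst_mk, fst_mk]
      simp only [Bool.and_eq_true, decide_eq_true_eq]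
      tauto
    · rw [if_neg (by simpa using h1), if_pos (good_of_wf hG hm hr)]
      obtain ⟨k1, k2⟩ := insL_spec hs (r := r) ⟨hr, by omega⟩
      refine ⟨?_, k2⟩
      unfold Sem
      simp only
      rw [k1]
      tauto

/-! ### The count invariant -/

/-- every key occurs at most twice -/
def Cnt (l : List Rel) : Prop := ∀ k, l.countP (fun r => decide (key r = k)) ≤ 2

theorem mrg_key {l : List Rel} {r x y : Rel} (h0 : r.2.val ≠ 0)
    (hx : x ∈ l.filter (fun r' => decide (key r' = key r)))
    (hy : y ∈ l.filter (fun r' => decide (key r' = key r))) : ∀ z ∈ mrg r x y, key z = key r := by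
  obtain ⟨_, x2, x3⟩ := mem_filter_key hx
  obtain ⟨_, y2, y3⟩ := mem_filter_key hy
  have hlen : (List.replicate (r.2.val + x.2.val + y.2.val) ()).length =
      r.2.val + x.2.val + y.2.val := List.length_replicate
  obtain ⟨_, m2, m3, _⟩ := sp_merge (u := List.replicate (r.2.val + x.2.val + y.2.val) ())
    (v := List.replicate (r.2.val + x.2.val + y.2.val) ()) (s := Nat.size r.2.val) rfl x3 y3
    (by omega) (by omega) (by omega) (by omega) (by omega) (by omega) h0
  intro z hz
  unfold mrg mrgM at hz
  simp only [List.mem_cons, List.not_mem_nil, or_false] at hz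
  unfold key
  rcases hz with rfl | rfl
  · simp only; rw [m2]
  · simp only; rw [m3]

theorem insL_cnt {l : List Rel} {r : Rel} (h0 : r.2.val ≠ 0) (hl : Cnt l) : Cnt (insL l r) := by
  intro k
  have hk0 := hl k
  unfold insL
  have hlen : (l.filter (fun r' => decide (key r' = key r))).length ≤ 2 := by
    rw [← List.countP_eq_length_filter]; exact hl _
  rcases hf : l.filter (fun r' => decide (key r' = key r)) with _ | ⟨x, _ | ⟨y, t⟩⟩
  · simp only
    rw [List.countP_cons]
    by_cases hk : key r = k
    · subst hk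
      rw [List.countP_eq_length_filter, hf]; simp
    · simp [hk, hk0]
  · simp only
    rw [List.countP_cons]
    by_cases hk : key r = k
    · subst hk
      rw [List.countP_eq_length_filter, hf]; simp
    · simp [hk, hk0]
  · have hx : x ∈ l.filter (fun r' => decide (key r' = key r)) := by rw [hf]; simp
    have hy : y ∈ l.filter (fun r' => decide (key r' = key r)) := by rw [hf]; simp
    have hmk := mrg_key h0 hx hy
    rw [hf] at hlen
    have ht : t = [] := by
      cases t with
      | nil => rfl
      | cons z t => simp at hlen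
    subst ht
    simp only [List.nil_append]
    rw [List.countP_append]
    by_cases hk : key r = k
    · subst hk
      have h1 : (l.filter (fun r' => !decide (key r' = key r))).countP
          (fun r' => decide (key r' = key r)) = 0 := by
        rw [List.countP_eq_zero]
        intro z hz
        rw [List.mem_filter] at hz
        simpa using hz.2
      rw [h1]
      have : (mrg r x y).countP (fun r' => decide (key r' = key r)) ≤ (mrg r x y).length :=
        List.countP_le_length
      have h2 : (mrg r x y).length = 2 := rfl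
      omega
    · have h1 : (mrg r x y).countP (fun r' => decide (key r' = k)) = 0 := by
        rw [List.countP_eq_zero]
        intro z hz
        rw [hmk z hz]; simpa using hk
      have h2 : (l.filter (fun r' => !decide (key r' = key r))).countP
          (fun r' => decide (key r' = k)) ≤ l.countP (fun r' => decide (key r' = k)) :=
        List.Sublist.countP_le List.filter_sublist
      omega

theorem ins_cnt {e : Env} {s : Bool × List Rel} {r : Rel} (hs : Cnt s.2) :
    Cnt (ins e s r).2 := by
  unfold ins
  split_ifs with h1 h2 h3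
  · exact hs
  · exact hs
  · exact insL_cnt (by simpa using h1) hs
  · exact hs

theorem length_le_of_keys {β κ : Type} [DecidableEq κ] (f : β → κ) (S : Finset κ) (c : ℕ)
    (l : List β) (h1 : ∀ b ∈ l, f b ∈ S) (h2 : ∀ k ∈ S, l.countP (fun b => decide (f b = k)) ≤ c) :
    l.length ≤ S.card * c := by
  have key : ∀ l : List β, (∀ b ∈ l, f b ∈ S) →
      ∑ k ∈ S, l.countP (fun b => decide (f b = k)) = l.length := by
    intro l
    induction l with
    | nil => simp
    | cons b l ih =>
      intro h
      have hb := h b (by simp)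
      have ih' := ih (fun x hx => h x (List.mem_cons_of_mem _ hx))
      simp only [List.countP_cons, List.length_cons, decide_eq_true_eq]
      rw [Finset.sum_add_distrib, ih']
      congr 1
      rw [Finset.sum_ite_eq]
      simp [hb]
  rw [← key l h1]
  calc ∑ k ∈ S, l.countP (fun b => decide (f b = k)) ≤ ∑ _k ∈ S, c := Finset.sum_le_sum h2
    _ = S.card * c := by rw [Finset.sum_const, smul_eq_mul]

/-- the bound on the number of relations -/
def clip (e : Env) : ℕ := e.1.length * e.1.length * (e.1.length + 1) * 2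

theorem length_le_clip {G : Gram} {l : List Rel} (hc : Cnt l)
    (hg : ∀ r ∈ l, good (mkEnv G) r = true) : l.length ≤ clip (mkEnv G) := by
  have h := length_le_of_keys key
    ((Finset.range G.length ×ˢ Finset.range G.length) ×ˢ Finset.range (G.length + 1)) 2 l
    (by
      intro r hr
      have h1 := hg r hr
      unfold good at h1
      simp only [Bool.and_eq_true, decide_eq_true_eq] at h1
      simp only [key, Finset.mem_product, Finset.mem_range]
      have : (mkEnv G).1.length = G.length := rfl
      omega) (fun k _ => hc k)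
  simpa [clip, mkEnv] using h

/-! ### Elimination -/

/-- elimination of the nonterminal `m` -/
def elimStep (e : Env) (s : Bool × List Rel) (m : ℕ) : Bool × List Rel :=
  if (cat e m).isSome then
    (let t := ((s.2.flatMap (exp1 e m)).flatMap (exp2 e m)).foldl (ins e) (s.1, [])
    (t.1, t.2.take (clip e)))
  else s

/-- elimination of all nonterminals -/
def elim (e : Env) (s : Bool × List Rel) : Bool × List Rel :=
  (List.range e.1.length).reverse.foldl (elimStep e) s

/-- the test of a relation -/
def spTest (e : Env) (r : Rel) : Bool := (elim e (ins e (true, []) r)).1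

theorem foldl_ins_spec {G : Gram} (hG : Valid G) {m : ℕ} (hm : m ≤ G.length) :
    ∀ (L : List Rel) (s : Bool × List Rel), (∀ x ∈ s.2, WF2 G m x) → Cnt s.2 →
      (∀ r ∈ L, WF G m r) →
      (Sem G (L.foldl (ins (mkEnv G)) s) ↔ (Sem G s ∧ ∀ r ∈ L, TR G r)) ∧
        (∀ x ∈ (L.foldl (ins (mkEnv G)) s).2, WF2 G m x) ∧
        Cnt (L.foldl (ins (mkEnv G)) s).2 := by
  intro L
  induction L with
  | nil => intro s h1 h2 _; exact ⟨by simp, h1, h2⟩
  | cons r L ih =>
    intro s h1 h2 h3
    obtain ⟨k1, k2⟩ := ins_spec hG hm h1 (h3 r (by simp))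
    obtain ⟨i1, i2, i3⟩ := ih (ins (mkEnv G) s r) k2 (ins_cnt h2)
      (fun x hx => h3 x (List.mem_cons_of_mem _ hx))
    rw [List.foldl_cons]
    refine ⟨?_, i2, i3⟩
    rw [i1, k1, List.forall_mem_cons]
    tauto

/-- If `m` is not a concatenation, no nontrivial relation involves it. -/
theorem wf2_of_cat_none {G : Gram} {m : ℕ} (hc : cat (mkEnv G) m = none) {r : Rel}
    (hr : WF2 G (m + 1) r) : WF2 G m r := by
  obtain ⟨⟨h1, h2, h3, h4⟩, h5⟩ := hr
  have hV : (V G m).length ≤ 1 := by
    rcases V_of_cat_none hc with h | ⟨x, h⟩ <;> rw [h] <;> simp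
  refine ⟨⟨?_, ?_, h3, h4⟩, h5⟩
  · by_contra h
    have : r.1.1 = m := by omega
    rw [this] at h3; omega
  · by_contra h
    have : r.1.2 = m := by omega
    rw [this] at h4; omega

theorem elimStep_spec {G : Gram} (hG : Valid G) {m : ℕ} (hm : m < G.length)
    {s : Bool × List Rel} (hs : ∀ x ∈ s.2, WF2 G (m + 1) x) (hc : Cnt s.2) :
    (Sem G (elimStep (mkEnv G) s m) ↔ Sem G s) ∧
      (∀ x ∈ (elimStep (mkEnv G) s m).2, WF2 G m x) ∧ Cnt (elimStep (mkEnv G) s m).2 := by
  unfold elimStep
  rcases hcat : (cat (mkEnv G) m).isSome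
  · simp only [Bool.false_eq_true, if_false]
    have hn : cat (mkEnv G) m = none := by simpa using hcat
    exact ⟨trivial, fun x hx => wf2_of_cat_none hn (hs x hx), hc⟩
  · simp only [if_true]
    have e1 : ∀ r' ∈ s.2.flatMap (exp1 (mkEnv G) m), WF G (m + 1) r' ∧ r'.1.1 < m := by
      intro r' hr'
      rw [List.mem_flatMap] at hr'
      obtain ⟨r, hr, hr'⟩ := hr'
      exact (exp1_spec hG hm (hs r hr).1 hcat).2 r' hr'
    have e2 : ∀ r' ∈ (s.2.flatMap (exp1 (mkEnv G) m)).flatMap (exp2 (mkEnv G) m), WF G m r' := by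
      intro r' hr'
      rw [List.mem_flatMap] at hr'
      obtain ⟨r, hr, hr'⟩ := hr'
      exact (exp2_spec hG hm (e1 r hr).1 (e1 r hr).2 hcat).2 r' hr'
    have e3 : (∀ r' ∈ (s.2.flatMap (exp1 (mkEnv G) m)).flatMap (exp2 (mkEnv G) m), TR G r') ↔
        ∀ r ∈ s.2, TR G r := by
      constructor
      · intro h r hr
        rw [← (exp1_spec hG hm (hs r hr).1 hcat).1]
        intro r' hr'
        have hmem : r' ∈ s.2.flatMap (exp1 (mkEnv G) m) := List.mem_flatMap.2 ⟨r, hr, hr'⟩
        rw [← (exp2_spec hG hm (e1 r' hmem).1 (e1 r' hmem).2 hcat).1]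
        intro r'' hr''
        exact h r'' (List.mem_flatMap.2 ⟨r', hmem, hr''⟩)
      · intro h r'' hr''
        rw [List.mem_flatMap] at hr''
        obtain ⟨r', hmem, hr''⟩ := hr''
        refine (exp2_spec hG hm (e1 r' hmem).1 (e1 r' hmem).2 hcat).1.2 ?_ r'' hr''
        rw [List.mem_flatMap] at hmem
        obtain ⟨r, hr, hr'⟩ := hmem
        exact (exp1_spec hG hm (hs r hr).1 hcat).1.2 (h r hr) r' hr'
    obtain ⟨i1, i2, i3⟩ := foldl_ins_spec hG (show m ≤ G.length by omega)
      ((s.2.flatMap (exp1 (mkEnv G) m)).flatMap (exp2 (mkEnv G) m)) (s.1, [])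
      (by simp) (by intro k; simp) e2
    set t := ((s.2.flatMap (exp1 (mkEnv G) m)).flatMap (exp2 (mkEnv G) m)).foldl
      (ins (mkEnv G)) (s.1, []) with ht
    have htake : t.2.take (clip (mkEnv G)) = t.2 := by
      apply List.take_of_length_le
      exact length_le_clip i3 (fun r hr => good_of_wf hG (show m ≤ G.length by omega) (i2 r hr).1)
    rw [htake]
    refine ⟨?_, i2, i3⟩
    have : Sem G (t.1, t.2) ↔ Sem G t := Iff.rfl
    rw [this, i1, e3]
    unfold Sem
    simp

theorem elim_spec {G : Gram} (hG : Valid G) : ∀ (n : ℕ), n ≤ G.length →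
    ∀ s : Bool × List Rel, (∀ x ∈ s.2, WF2 G n x) → Cnt s.2 →
    (Sem G ((List.range n).reverse.foldl (elimStep (mkEnv G)) s) ↔ Sem G s) ∧
      ∀ x ∈ ((List.range n).reverse.foldl (elimStep (mkEnv G)) s).2, WF2 G 0 x := by
  intro n
  induction n with
  | zero => intro _ s h1 h2; exact ⟨Iff.rfl, h1⟩
  | succ n ih =>
    intro hn s h1 h2
    rw [List.range_succ, List.reverse_append, List.reverse_singleton, List.singleton_append,
      List.foldl_cons]
    obtain ⟨k1, k2, k3⟩ := elimStep_spec hG (show n < G.length by omega) h1 h2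
    obtain ⟨i1, i2⟩ := ih (by omega) _ k2 k3
    exact ⟨i1.trans k1, i2⟩

/-- **Correctness of the test.** -/
theorem spTest_spec {G : Gram} (hG : Valid G) {r : Rel} (hr : WF G G.length r) :
    spTest (mkEnv G) r = true ↔ TR G r := by
  obtain ⟨k1, k2⟩ := ins_spec hG (le_refl _) (s := (true, [])) (r := r) (by simp) hr
  obtain ⟨i1, i2⟩ := elim_spec hG G.length le_rfl (ins (mkEnv G) (true, []) r) k2
    (ins_cnt (by intro k; simp))
  have h1 : Sem G (elim (mkEnv G) (ins (mkEnv G) (true, []) r)) ↔
      spTest (mkEnv G) r = true := by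
    unfold Sem spTest
    constructor
    · exact fun h => h.1
    · intro h
      refine ⟨h, fun x hx => ?_⟩
      have := (i2 x hx).1.1
      omega
  rw [← h1]
  have h2 : Sem G (elim (mkEnv G) (ins (mkEnv G) (true, []) r)) ↔
      Sem G (ins (mkEnv G) (true, []) r) := i1
  rw [h2, k1]
  unfold Sem
  simp

end Pool.Agent.Lib.MP_0c2883_lc
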