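import Pool.Agent.Lib.MP_0c2883_lc.Elim

/-!
# The overlap test runs in polynomial time
-/

namespace Pool.Agent.Lib.MP_0c2883_lc

open List Pool.Agent.Lib.PolyTime

variable {α β γ : Type} [Enc α] [Enc β] [Enc γ]

theorem size_some (a : α) : size (some a) = size a + 2 := by
  show (BT.node (enc a) BT.leaf).size = _
  rw [BT.size_node, BT.size_leaf]; rfl

theorem size_inr (b : β) : size (Sum.inr b : α ⊕ β) = size b + 4 := by
  show (BT.node (BT.node BT.leaf BT.leaf) (enc b)).size = _
  rw [BT.size_node, BT.size_node, BT.size_leaf]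
  show 1 + 1 + 1 + size b + 1 = _
  omega

theorem size_inl (b : α) : size (Sum.inl b : α ⊕ β) = size b + 2 := by
  show (BT.node BT.leaf (enc b)).size = _
  rw [BT.size_node, BT.size_leaf]
  show 1 + size b + 1 = _
  omega

theorem PT.optCasesP {f : α → Option β} {g : α → γ} {F : α × β → γ} (hf : PT f) (hg : PT g)
    (hF : PT F) : PT (fun a => (f a).elim (g a) (fun b => F (a, b))) :=
  (PT.optCases (h := fun a b => F (a, b)) hf hg hF).congr (fun a => by cases f a <;> rfl)

theorem PT.take {f : α → ℕ} {g : α → List β} (hf : PT f) (hg : PT g) :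
    PT (fun a => (g a).take (f a)) :=
  (PT.reverse (PT.drop (PT.sub hg.length hf) hg.reverse)).congr (fun a => by
    have h := List.take_reverse (xs := (g a).reverse) (i := f a)
    rw [List.reverse_reverse, List.length_reverse] at h
    exact h.symm)

theorem PT.mkEnv {f : α → Gram} (hf : PT f) : PT (fun a => MP_0c2883_lc.mkEnv (f a)) :=
  hf.pair ((PT.lens hf).pair ((PT.firsts hf).pair (PT.lasts hf)))

theorem PT.cat {f : α → Env} {g : α → ℕ} (hf : PT f) (hg : PT g) :
    PT (fun a => MP_0c2883_lc.cat (f a) (g a)) := by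
  refine (PT.ruleCases (f := fun a => (f a).1[g a]?.getD none) (g := fun _ => none)
    (h := fun _ _ => none) (k := fun _ p => some p) (PT.getDv hg hf.fst' none) (PT.const none)
    (PT.const none) PT.snd.some).congr (fun a => ?_)
  unfold MP_0c2883_lc.cat
  rcases (f a).1[g a]?.getD none with _ | x | p <;> rfl

theorem PT.len {f : α → Env} {g : α → ℕ} (hf : PT f) (hg : PT g) :
    PT (fun a => MP_0c2883_lc.len (f a) (g a)) := PT.getDv hg hf.snd'.fst' _

theorem PT.fstE {f : α → Env} {g : α → ℕ} (hf : PT f) (hg : PT g) :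
    PT (fun a => MP_0c2883_lc.fst (f a) (g a)) := PT.getDv hg hf.snd'.snd'.fst' _

theorem PT.lstE {f : α → Env} {g : α → ℕ} (hf : PT f) (hg : PT g) :
    PT (fun a => MP_0c2883_lc.lst (f a) (g a)) := PT.getDv hg hf.snd'.snd'.snd' _

theorem size_cat_le {e : Env} {i : ℕ} {p : ℕ × ℕ} (h : MP_0c2883_lc.cat e i = some p) :
    size p ≤ size e.1 := by
  unfold MP_0c2883_lc.cat at h
  rcases h1 : e.1[i]? with _ | _ | x | q
  · rw [h1] at h; simp at h
  · rw [h1] at h; simp at h
  · rw [h1] at h; simp at h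
  · rw [h1] at h; simp at h
    subst h
    have h2 := size_mem_lt (List.mem_of_getElem? h1)
    rw [size_some, size_inr] at h2
    omega

/-- a step of the descent -/
theorem PT.pdStep {f : α → Env} {g : α → ℕ} {h : α → ℕ × BNz} (hf : PT f) (hg : PT g) (hh : PT h) :
    PT (fun a => MP_0c2883_lc.pdStep (f a) (g a) (h a)) := by
  have hc : PT (fun a => MP_0c2883_lc.cat (f a) (h a).1) := PT.cat hf hh.fst'
  have key : PT (fun x : α × (ℕ × ℕ) =>
      if decide ((h x.1).2.val + (MP_0c2883_lc.len (f x.1) (g x.1)).val ≤ (MP_0c2883_lc.len (f x.1) x.2.1).val)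
        then (x.2.1, (h x.1).2)
      else if decide ((MP_0c2883_lc.len (f x.1) x.2.1).val ≤ (h x.1).2.val)
        then (x.2.2, BNz.mk ((h x.1).2.val - (MP_0c2883_lc.len (f x.1) x.2.1).val))
      else h x.1) := by
    have hf' := hf.comp (PT.fst (α := α) (β := ℕ × ℕ))
    have hg' := hg.comp (PT.fst (α := α) (β := ℕ × ℕ))
    have hh' := hh.comp (PT.fst (α := α) (β := ℕ × ℕ))
    have h1 : PT (fun x : α × (ℕ × ℕ) => x.2.1) := PT.snd.fst'
    have h2 : PT (fun x : α × (ℕ × ℕ) => x.2.2) := PT.snd.snd'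
    exact PT.cond (PT.bnzLe (PT.bnzAdd hh'.snd' (PT.len hf' hg')) (PT.len hf' h1))
      (h1.pair hh'.snd')
      (PT.cond (PT.bnzLe (PT.len hf' h1) hh'.snd')
        (h2.pair (PT.bnzSub hh'.snd' (PT.len hf' h1))) hh')
  refine (PT.optCasesP hc hh key).congr (fun a => ?_)
  unfold MP_0c2883_lc.pdStep
  cases MP_0c2883_lc.cat (f a) (h a).1 <;> rfl

theorem PT.pdOut {f : α → Env} {g : α → ℕ} {h : α → ℕ × BNz} (hf : PT f) (hg : PT g) (hh : PT h) :
    PT (fun a => MP_0c2883_lc.pdOut (f a) (g a) (h a)) := by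
  have hc : PT (fun a => MP_0c2883_lc.cat (f a) (h a).1) := PT.cat hf hh.fst'
  have h0 : PT (fun a => [(((h a).1, g a), BNz.mk 1)]) :=
    PT.list1 ((hh.fst'.pair hg).pair (PT.const _))
  have key : PT (fun x : α × (ℕ × ℕ) =>
      [((x.2.1, g x.1), BNz.mk ((MP_0c2883_lc.len (f x.1) x.2.1).val - (h x.1).2.val)),
      ((g x.1, x.2.2), BNz.mk ((h x.1).2.val + (MP_0c2883_lc.len (f x.1) (g x.1)).val -
        (MP_0c2883_lc.len (f x.1) x.2.1).val))]) := by
    have hf' := hf.comp (PT.fst (α := α) (β := ℕ × ℕ))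
    have hg' := hg.comp (PT.fst (α := α) (β := ℕ × ℕ))
    have hh' := hh.comp (PT.fst (α := α) (β := ℕ × ℕ))
    have h1 : PT (fun x : α × (ℕ × ℕ) => x.2.1) := PT.snd.fst'
    have h2 : PT (fun x : α × (ℕ × ℕ) => x.2.2) := PT.snd.snd'
    exact PT.cons ((h1.pair hg').pair (PT.bnzSub (PT.len hf' h1) hh'.snd'))
      (PT.list1 ((hg'.pair h2).pair (PT.bnzSub (PT.bnzAdd hh'.snd' (PT.len hf' hg'))
        (PT.len hf' h1))))
  refine (PT.optCasesP hc h0 key).congr (fun a => ?_)
  unfold MP_0c2883_lc.pdOut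
  cases MP_0c2883_lc.cat (f a) (h a).1 <;> rfl

theorem pdIter_size (e : Env) (v : ℕ) (s : ℕ × BNz) (n : ℕ) :
    size ((MP_0c2883_lc.pdStep e v)^[n] s).1 ≤ size e.1 + size s.1 ∧
      ((MP_0c2883_lc.pdStep e v)^[n] s).2.val ≤ s.2.val := by
  induction n with
  | zero => exact ⟨by simp, le_rfl⟩
  | succ n ih =>
    rw [Function.iterate_succ_apply']
    set t := (MP_0c2883_lc.pdStep e v)^[n] s with ht
    unfold MP_0c2883_lc.pdStep
    rcases hc : MP_0c2883_lc.cat e t.1 with _ | ⟨a, b⟩
    · exact ih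
    · have h1 := size_cat_le hc
      rw [size_prod] at h1
      simp only at h1 ⊢
      split_ifs
      · simp only; exact ⟨by omega, ih.2⟩
      · simp only; exact ⟨by omega, by omega⟩
      · exact ih

theorem size_bn_mono {x y : BNz} (h : x.val ≤ y.val) : size x ≤ 4 * size y + 1 := by
  have h1 := size_bn_le x
  have h2 := Nat.size_le_size h
  have h3 := natSize_le_size y
  omega

theorem PT.inn {f : α → Env} {g k : α → ℕ} {h : α → BNz} (hf : PT f) (hg : PT g) (hk : PT k)
    (hh : PT h) : PT (fun a => MP_0c2883_lc.inn (f a) (g a) (k a) (h a)) := by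
  have base : PT (fun x : Env × (ℕ × (ℕ × BNz)) =>
      MP_0c2883_lc.inn x.1 x.2.1 x.2.2.1 x.2.2.2) := by
    have hit := PT.iterate (f := fun x : Env × (ℕ × (ℕ × BNz)) => x.1.1.length)
      (init := fun x => x.2.2) (step := fun x => MP_0c2883_lc.pdStep x.1 x.2.1)
      PT.fst.fst'.length PT.snd.snd' (PT.pdStep PT.fst.fst' PT.fst.snd'.fst' PT.snd)
      (B := fun n => (n + n) + (4 * n + 1) + 1)
      ((((PB.id.add PB.id)).add (((PB.const 4).mul PB.id).add (PB.const 1))).add (PB.const 1))
      (by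
        intro x i _
        obtain ⟨k1, k2⟩ := pdIter_size x.1 x.2.1 x.2.2 i
        have k3 := size_bn_mono k2
        rw [size_prod]
        have t1 : size x = size x.1 + (size x.2.1 + (size x.2.2.1 + size x.2.2.2 + 1) + 1) + 1 := by
          rw [size_prod, size_prod (x := x.2), size_prod (x := x.2.2)]
        have t2 : size x.1.1 ≤ size x.1 := by rw [size_prod (x := x.1)]; omega
        omega)
    exact PT.cond (PT.bnzEq (PT.len PT.fst PT.snd.fst') (PT.const (BNz.mk 0))) (PT.const [])
      (PT.pdOut PT.fst PT.snd.fst' hit)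
  exact base.comp (hf.pair (hg.pair (hk.pair hh)))

theorem PT.exp1 {f : α → Env} {g : α → ℕ} {h : α → Rel} (hf : PT f) (hg : PT g) (hh : PT h) :
    PT (fun a => MP_0c2883_lc.exp1 (f a) (g a) (h a)) := by
  have hc : PT (fun a => MP_0c2883_lc.cat (f a) (g a)) := PT.cat hf hg
  have key : PT (fun x : α × (ℕ × ℕ) =>
      if decide ((h x.1).2.val ≤ (MP_0c2883_lc.len (f x.1) x.2.2).val)
        then [((x.2.2, (h x.1).1.2), (h x.1).2)]
      else ((x.2.1, (h x.1).1.2), BNz.mk ((h x.1).2.val - (MP_0c2883_lc.len (f x.1) x.2.2).val)) ::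
        MP_0c2883_lc.inn (f x.1) x.2.2 (h x.1).1.2
          (BNz.mk ((h x.1).2.val - (MP_0c2883_lc.len (f x.1) x.2.2).val))) := by
    have hf' := hf.comp (PT.fst (α := α) (β := ℕ × ℕ))
    have hh' := hh.comp (PT.fst (α := α) (β := ℕ × ℕ))
    have h1 : PT (fun x : α × (ℕ × ℕ) => x.2.1) := PT.snd.fst'
    have h2 : PT (fun x : α × (ℕ × ℕ) => x.2.2) := PT.snd.snd'
    have hd := PT.bnzSub hh'.snd' (PT.len hf' h2)
    exact PT.cond (PT.bnzLe hh'.snd' (PT.len hf' h2))
      (PT.list1 ((h2.pair hh'.fst'.snd').pair hh'.snd'))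
      (PT.cons ((h1.pair hh'.fst'.snd').pair hd) (PT.inn hf' h2 hh'.fst'.snd' hd))
  have h3 := PT.optCasesP hc (PT.list1 hh) key
  refine (PT.cond (PT.eq hh.fst'.fst' hg) h3 (PT.list1 hh)).congr (fun a => ?_)
  unfold MP_0c2883_lc.exp1
  cases MP_0c2883_lc.cat (f a) (g a) <;> rfl

theorem PT.exp2 {f : α → Env} {g : α → ℕ} {h : α → Rel} (hf : PT f) (hg : PT g) (hh : PT h) :
    PT (fun a => MP_0c2883_lc.exp2 (f a) (g a) (h a)) := by
  have hc : PT (fun a => MP_0c2883_lc.cat (f a) (g a)) := PT.cat hf hg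
  have key : PT (fun x : α × (ℕ × ℕ) =>
      if decide ((h x.1).2.val ≤ (MP_0c2883_lc.len (f x.1) x.2.1).val)
        then [(((h x.1).1.1, x.2.1), (h x.1).2)]
      else (((h x.1).1.1, x.2.2), BNz.mk ((h x.1).2.val - (MP_0c2883_lc.len (f x.1) x.2.1).val)) ::
        MP_0c2883_lc.inn (f x.1) x.2.1 (h x.1).1.1
          (BNz.mk ((MP_0c2883_lc.len (f x.1) (h x.1).1.1).val - (h x.1).2.val))) := by
    have hf' := hf.comp (PT.fst (α := α) (β := ℕ × ℕ))
    have hh' := hh.comp (PT.fst (α := α) (β := ℕ × ℕ))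
    have h1 : PT (fun x : α × (ℕ × ℕ) => x.2.1) := PT.snd.fst'
    have h2 : PT (fun x : α × (ℕ × ℕ) => x.2.2) := PT.snd.snd'
    exact PT.cond (PT.bnzLe hh'.snd' (PT.len hf' h1))
      (PT.list1 ((hh'.fst'.fst'.pair h1).pair hh'.snd'))
      (PT.cons ((hh'.fst'.fst'.pair h2).pair (PT.bnzSub hh'.snd' (PT.len hf' h1)))
        (PT.inn hf' h1 hh'.fst'.fst' (PT.bnzSub (PT.len hf' hh'.fst'.fst') hh'.snd')))
  have h3 := PT.optCasesP hc (PT.list1 hh) key
  refine (PT.cond (PT.eq hh.fst'.snd' hg) h3 (PT.list1 hh)).congr (fun a => ?_)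
  unfold MP_0c2883_lc.exp2
  cases MP_0c2883_lc.cat (f a) (g a) <;> rfl

theorem PT.key {f : α → Rel} (hf : PT f) : PT (fun a => MP_0c2883_lc.key (f a)) :=
  hf.fst'.pair hf.snd'.bnzSize

theorem PT.mrg {f g h : α → Rel} (hf : PT f) (hg : PT g) (hh : PT h) :
    PT (fun a => MP_0c2883_lc.mrg (f a) (g a) (h a)) := by
  have hM : PT (fun a => BNz.mk (mrgM (f a) (g a) (h a))) :=
    PT.bnzMax (PT.bnzMax hf.snd' hg.snd') hh.snd'
  have hG := PT.bnzGcd (PT.bnzGcd (PT.bnzSub hM hf.snd') (PT.bnzSub hM hg.snd')) (PT.bnzSub hM hh.snd')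
  exact PT.cons (hf.fst'.pair hM) (PT.list1 (hf.fst'.pair (PT.bnzSub hM hG)))

theorem PT.good {f : α → Env} {h : α → Rel} (hf : PT f) (hh : PT h) :
    PT (fun a => MP_0c2883_lc.good (f a) (h a)) :=
  PT.and (PT.lt hh.fst'.fst' hf.fst'.length) (PT.and (PT.lt hh.fst'.snd' hf.fst'.length)
    (PT.le hh.snd'.bnzSize hf.fst'.length))

/-- case distinction on a list -/
def lc2 {X : Type} (c : X) (g : Rel → List Rel → X) : List Rel → X
  | [] => c
  | y :: t => g y t

theorem PT.insL {f : α → List Rel} {h : α → Rel} (hf : PT f) (hh : PT h) :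
    PT (fun a => MP_0c2883_lc.insL (f a) (h a)) := by
  have h1 : PT (fun a => (f a).filter (fun r' => decide (MP_0c2883_lc.key r' =
      MP_0c2883_lc.key (h a)))) :=
    PT.filter (p := fun a r' => decide (MP_0c2883_lc.key r' = MP_0c2883_lc.key (h a))) hf
      (PT.eq (PT.key PT.snd) (PT.key (hh.comp PT.fst)))
  have h2 : PT (fun a => (f a).filter (fun r' => !decide (MP_0c2883_lc.key r' =
      MP_0c2883_lc.key (h a)))) :=
    PT.filter (p := fun a r' => !decide (MP_0c2883_lc.key r' = MP_0c2883_lc.key (h a))) hf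
      (PT.not (PT.eq (PT.key PT.snd) (PT.key (hh.comp PT.fst))))
  have h3 : PT (fun a => h a :: f a) := PT.cons hh hf
  -- inner case distinction
  have h4 : PT (fun x : α × (Rel × List Rel) => lc2 (h x.1 :: f x.1)
      (fun y t => MP_0c2883_lc.mrg (h x.1) x.2.1 y ++ (t ++ (f x.1).filter (fun r' =>
        !decide (MP_0c2883_lc.key r' = MP_0c2883_lc.key (h x.1))))) x.2.2) :=
    (PT.listCases (f := fun x : α × (Rel × List Rel) => x.2.2)
      (g := fun x => h x.1 :: f x.1)
      (h := fun x y t => MP_0c2883_lc.mrg (h x.1) x.2.1 y ++ (t ++ (f x.1).filter (fun r' =>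
        !decide (MP_0c2883_lc.key r' = MP_0c2883_lc.key (h x.1)))))
      PT.snd.snd' (h3.comp PT.fst)
      (PT.append (PT.mrg (hh.comp PT.fst.fst') PT.fst.snd'.fst' PT.snd.fst')
        (PT.append PT.snd.snd' (h2.comp PT.fst.fst')))).congr
      (fun x => by cases x.2.2 <;> rfl)
  have h5 := PT.listCases (f := fun a => (f a).filter (fun r' => decide (MP_0c2883_lc.key r' =
      MP_0c2883_lc.key (h a)))) (g := fun a => h a :: f a)
    (h := fun a x l => lc2 (h a :: f a)
      (fun y t => MP_0c2883_lc.mrg (h a) x y ++ (t ++ (f a).filter (fun r' =>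
        !decide (MP_0c2883_lc.key r' = MP_0c2883_lc.key (h a))))) l) h1 h3 h4
  refine h5.congr (fun a => ?_)
  unfold MP_0c2883_lc.insL
  rcases (f a).filter (fun r' => decide (MP_0c2883_lc.key r' = MP_0c2883_lc.key (h a))) with
    _ | ⟨x, _ | ⟨y, t⟩⟩ <;> rfl

theorem PT.ins {f : α → Env} {g : α → Bool × List Rel} {h : α → Rel} (hf : PT f) (hg : PT g)
    (hh : PT h) : PT (fun a => MP_0c2883_lc.ins (f a) (g a) (h a)) := by
  have e1 := PT.bnzEq hh.snd' (PT.const (BNz.mk 0))
  have e2 := PT.bnzEq hh.snd' (PT.const (BNz.mk 1))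
  have e3 : PT (fun a => ((g a).1 && decide (lst (f a) (h a).1.1 =
      MP_0c2883_lc.fst (f a) (h a).1.2), (g a).2)) :=
    (PT.and hg.fst' (PT.eq (PT.lstE hf hh.fst'.fst') (PT.fstE hf hh.fst'.snd'))).pair hg.snd'
  exact PT.cond e1 hg (PT.cond e2 e3 (PT.cond (PT.good hf hh) (hg.fst'.pair (PT.insL hg.snd' hh))
    hg))

theorem PT.clip {f : α → Env} (hf : PT f) : PT (fun a => MP_0c2883_lc.clip (f a)) :=
  PT.mul (PT.mul (PT.mul hf.fst'.length hf.fst'.length) hf.fst'.length.succ) (PT.const 2)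

theorem insL_good {e : Env} {l : List Rel} {r : Rel} (hl : ∀ x ∈ l, good e x = true)
    (hr : good e r = true) :
    (∀ x ∈ MP_0c2883_lc.insL l r, good e x = true) ∧
      (MP_0c2883_lc.insL l r).length ≤ l.length + 1 := by
  unfold MP_0c2883_lc.insL
  rcases hf : l.filter (fun r' => decide (MP_0c2883_lc.key r' = MP_0c2883_lc.key r)) with
    _ | ⟨x, _ | ⟨y, t⟩⟩
  · simp only
    rw [List.forall_mem_cons]; exact ⟨⟨hr, hl⟩, by simp⟩
  · simp only
    rw [List.forall_mem_cons]; exact ⟨⟨hr, hl⟩, by simp⟩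
  · simp only
    have hx : x ∈ l.filter (fun r' => decide (MP_0c2883_lc.key r' = MP_0c2883_lc.key r)) := by
      rw [hf]; simp
    have hy : y ∈ l.filter (fun r' => decide (MP_0c2883_lc.key r' = MP_0c2883_lc.key r)) := by
      rw [hf]; simp
    obtain ⟨x1, x2, x3⟩ := mem_filter_key hx
    obtain ⟨y1, y2, y3⟩ := mem_filter_key hy
    constructor
    · rw [List.forall_mem_append, List.forall_mem_append]
      refine ⟨?_, ?_, ?_⟩
      · have hM : Nat.size (mrgM r x y) ≤ e.1.length := by
          unfold good at hr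
          simp only [Bool.and_eq_true, decide_eq_true_eq] at hr
          unfold mrgM
          rcases max_choice (max r.2.val x.2.val) y.2.val with h | h <;> rw [h]
          · rcases max_choice r.2.val x.2.val with h | h <;> rw [h]
            · exact hr.2.2
            · rw [x3]; exact hr.2.2
          · rw [y3]; exact hr.2.2
        unfold good at hr ⊢
        simp only [Bool.and_eq_true, decide_eq_true_eq] at hr ⊢
        intro z hz
        unfold MP_0c2883_lc.mrg at hz
        simp only [List.mem_cons, List.not_mem_nil, or_false] at hz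
        rcases hz with rfl | rfl
        · exact ⟨hr.1, hr.2.1, hM⟩
        · exact ⟨hr.1, hr.2.1, (Nat.size_le_size (Nat.sub_le _ _)).trans hM⟩
      · intro z hz
        have : z ∈ l.filter (fun r' => decide (MP_0c2883_lc.key r' = MP_0c2883_lc.key r)) := by
          rw [hf]; simp [hz]
        exact hl z (List.mem_filter.1 this).1
      · intro z hz
        exact hl z (List.mem_filter.1 hz).1
    · have h1 : l.length = (l.filter (fun r' => decide (MP_0c2883_lc.key r' =
          MP_0c2883_lc.key r))).length + (l.filter (fun r' => !decide (MP_0c2883_lc.key r' =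
          MP_0c2883_lc.key r))).length := by
        rw [← List.countP_eq_length_filter, ← List.countP_eq_length_filter]
        rw [List.length_eq_countP_add_countP (fun r' => decide (MP_0c2883_lc.key r' =
          MP_0c2883_lc.key r))]
        congr 1
        apply List.countP_congr
        intro z _
        simp
      rw [hf] at h1
      simp only [List.length_append, List.length_cons] at h1 ⊢
      have h2 : (MP_0c2883_lc.mrg r x y).length = 2 := rfl
      omega

theorem ins_good {e : Env} {s : Bool × List Rel} {r : Rel} (hs : ∀ x ∈ s.2, good e x = true) :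
    (∀ x ∈ (MP_0c2883_lc.ins e s r).2, good e x = true) ∧
      (MP_0c2883_lc.ins e s r).2.length ≤ s.2.length + 1 := by
  unfold MP_0c2883_lc.ins
  split_ifs with h1 h2 h3
  · exact ⟨hs, by omega⟩
  · exact ⟨hs, by simp⟩
  · exact insL_good hs h3
  · exact ⟨hs, by omega⟩

theorem foldl_ins_good {e : Env} : ∀ (L : List Rel) (s : Bool × List Rel),
    (∀ x ∈ s.2, good e x = true) → (∀ x ∈ (L.foldl (MP_0c2883_lc.ins e) s).2, good e x = true) ∧
      (L.foldl (MP_0c2883_lc.ins e) s).2.length ≤ s.2.length + L.length := by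
  intro L
  induction L with
  | nil => intro s hs; exact ⟨hs, by simp⟩
  | cons r L ih =>
    intro s hs
    obtain ⟨h1, h2⟩ := ins_good (r := r) hs
    obtain ⟨h3, h4⟩ := ih _ h1
    rw [List.foldl_cons]
    refine ⟨h3, ?_⟩
    rw [List.length_cons]; omega

/-- bound for the size of a good relation -/
def gs (n : ℕ) : ℕ := ((2 * n + 1) + (2 * n + 1) + 1) + (4 * n + 1) + 1

theorem size_good {e : Env} {r : Rel} (h : good e r = true) : size r ≤ gs e.1.length := by
  unfold good at h
  simp only [Bool.and_eq_true, decide_eq_true_eq] at h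
  rw [size_prod, size_prod, size_nat, size_nat]
  have := size_bn_le r.2
  unfold gs
  omega

theorem size_state {e : Env} {s : Bool × List Rel} (hs : ∀ x ∈ s.2, good e x = true) {n : ℕ}
    (hn : s.2.length ≤ n) : size s ≤ 3 + (n * (gs e.1.length + 1) + 1) + 1 := by
  have h1 := size_list_le s.2 (fun x hx => size_good (hs x hx))
  have h2 := size_bool_le_z s.1
  have h3 := Nat.mul_le_mul_right (gs e.1.length + 1) hn
  rw [size_prod]
  omega

theorem PB.gs {T : ℕ → ℕ} (hT : PB T) : PB (fun n => gs (T n)) :=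
  (((((PB.const 2).mul hT).add (PB.const 1)).add (((PB.const 2).mul hT).add (PB.const 1))).add
    (PB.const 1)).add (((PB.const 4).mul hT).add (PB.const 1)) |>.add (PB.const 1)

theorem gs_mono {m n : ℕ} (h : m ≤ n) : gs m ≤ gs n := by unfold gs; omega

theorem PT.elimStep {f : α → Env} {g : α → Bool × List Rel} {h : α → ℕ} (hf : PT f) (hg : PT g)
    (hh : PT h) : PT (fun a => MP_0c2883_lc.elimStep (f a) (g a) (h a)) := by
  have base : PT (fun x : Env × ((Bool × List Rel) × ℕ) =>
      MP_0c2883_lc.elimStep x.1 x.2.1 x.2.2) := by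
    have hL1 : PT (fun x : Env × ((Bool × List Rel) × ℕ) =>
        x.2.1.2.flatMap (MP_0c2883_lc.exp1 x.1 x.2.2)) :=
      PT.flatMap (g := fun x r => MP_0c2883_lc.exp1 x.1 x.2.2 r) PT.snd.fst'.snd'
        (PT.exp1 PT.fst.fst' PT.fst.snd'.snd' PT.snd)
    have hL2 : PT (fun x : Env × ((Bool × List Rel) × ℕ) =>
        (x.2.1.2.flatMap (MP_0c2883_lc.exp1 x.1 x.2.2)).flatMap
          (MP_0c2883_lc.exp2 x.1 x.2.2)) :=
      PT.flatMap (g := fun x r => MP_0c2883_lc.exp2 x.1 x.2.2 r) hL1
        (PT.exp2 PT.fst.fst' PT.fst.snd'.snd' PT.snd)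
    obtain ⟨p, hp⟩ := hL2.size_le
    have hfold : PT (fun x : Env × ((Bool × List Rel) × ℕ) =>
        ((x.2.1.2.flatMap (MP_0c2883_lc.exp1 x.1 x.2.2)).flatMap
          (MP_0c2883_lc.exp2 x.1 x.2.2)).foldl (MP_0c2883_lc.ins x.1) (x.2.1.1, [])) := by
      refine PT.foldl (f := fun x : Env × ((Bool × List Rel) × ℕ) =>
          (x.2.1.2.flatMap (MP_0c2883_lc.exp1 x.1 x.2.2)).flatMap
          (MP_0c2883_lc.exp2 x.1 x.2.2)) (init := fun x => (x.2.1.1, ([] : List Rel)))
        (step := fun x s r => MP_0c2883_lc.ins x.1 s r) hL2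
        (PT.snd.fst'.fst'.pair (PT.const _)) (PT.ins PT.fst.fst' PT.snd.fst' PT.snd.snd')
        (B := fun n => 3 + (p.eval n * (MP_0c2883_lc.gs n + 1) + 1) + 1)
        (((PB.const 3).add (((PB.poly p).mul ((PB.gs PB.id).add (PB.const 1))).add
          (PB.const 1))).add (PB.const 1)) ?_
      intro x l' hl'
      obtain ⟨h1, h2⟩ := foldl_ins_good (e := x.1) l' (x.2.1.1, []) (by simp)
      have h3 := size_state (e := x.1) h1 (n := l'.length) (by simpa using h2)
      refine h3.trans ?_
      have h4 : l'.length ≤ p.eval (size x) :=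
        hl'.length_le.trans ((length_le_size _).trans (hp x))
      have h5 : x.1.1.length ≤ size x := by
        have a1 := length_le_size x.1.1
        have a2 : size x.1.1 ≤ size x.1 := by rw [size_prod (x := x.1)]; omega
        have a3 : size x.1 ≤ size x := by rw [size_prod (x := x)]; omega
        omega
      have h6 := Nat.mul_le_mul h4 (Nat.add_le_add_right (gs_mono h5) 1)
      omega
    have hb : PT (fun x : Env × ((Bool × List Rel) × ℕ) =>
        (MP_0c2883_lc.cat x.1 x.2.2).isSome) := by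
      refine (PT.optCases (f := fun x : Env × ((Bool × List Rel) × ℕ) =>
        MP_0c2883_lc.cat x.1 x.2.2) (g := fun _ => false) (h := fun _ _ => true)
        (PT.cat PT.fst PT.snd.snd') (PT.const _) (PT.const _)).congr (fun x => ?_)
      cases MP_0c2883_lc.cat x.1 x.2.2 <;> rfl
    exact PT.cond hb (hfold.fst'.pair (PT.take (PT.clip PT.fst) hfold.snd')) PT.snd.fst'
  exact base.comp (hf.pair (hg.pair hh))

theorem elimStep_size (e : Env) (s : Bool × List Rel) (m : ℕ) :
    MP_0c2883_lc.elimStep e s m = s ∨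
      size (MP_0c2883_lc.elimStep e s m) ≤
        3 + (MP_0c2883_lc.clip e * (gs e.1.length + 1) + 1) + 1 := by
  unfold MP_0c2883_lc.elimStep
  split_ifs with h
  · right
    apply size_state (e := e)
    · intro x hx
      exact (foldl_ins_good (e := e) _ (s.1, []) (by simp)).1 x (List.mem_of_mem_take hx)
    · simp only; rw [List.length_take]; omega
  · left; rfl

theorem PT.elim {f : α → Env} {g : α → Bool × List Rel} (hf : PT f) (hg : PT g) :
    PT (fun a => MP_0c2883_lc.elim (f a) (g a)) := by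
  have base : PT (fun x : Env × (Bool × List Rel) => MP_0c2883_lc.elim x.1 x.2) := by
    have hc : PB (fun n => n * n * (n + 1) * 2) :=
      ((PB.id.mul PB.id).mul (PB.id.add (PB.const 1))).mul (PB.const 2)
    refine PT.foldl (f := fun x : Env × (Bool × List Rel) => (List.range x.1.1.length).reverse)
      (init := fun x => x.2) (step := fun x s m => MP_0c2883_lc.elimStep x.1 s m)
      (PT.reverse (PT.range PT.fst.fst'.length)) PT.snd
      (PT.elimStep PT.fst.fst' PT.snd.fst' PT.snd.snd')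
      (B := fun n => n + (3 + (n * n * (n + 1) * 2 * (MP_0c2883_lc.gs n + 1) + 1) + 1))
      (PB.id.add (((PB.const 3).add ((hc.mul ((PB.gs PB.id).add (PB.const 1))).add
        (PB.const 1))).add (PB.const 1))) ?_
    intro x l' _
    have h5 : x.1.1.length ≤ size x := by
      have a1 := length_le_size x.1.1
      have a2 : size x.1.1 ≤ size x.1 := by rw [size_prod (x := x.1)]; omega
      have a3 : size x.1 ≤ size x := by rw [size_prod (x := x)]; omega
      omega
    have h6 : size x.2 ≤ size x := by rw [size_prod (x := x)]; omega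
    have h7 : 3 + (MP_0c2883_lc.clip x.1 * (MP_0c2883_lc.gs x.1.1.length + 1) + 1) + 1 ≤
        3 + (size x * size x * (size x + 1) * 2 * (MP_0c2883_lc.gs (size x) + 1) + 1) + 1 := by
      have b1 : MP_0c2883_lc.clip x.1 ≤ size x * size x * (size x + 1) * 2 := by
        unfold MP_0c2883_lc.clip
        exact Nat.mul_le_mul_right 2 (Nat.mul_le_mul (Nat.mul_le_mul h5 h5)
          (Nat.add_le_add_right h5 1))
      have b2 := Nat.mul_le_mul b1 (Nat.add_le_add_right (gs_mono h5) 1)
      omega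
    have key : ∀ (l : List ℕ) (s : Bool × List Rel),
        size s ≤ size x + (3 + (size x * size x * (size x + 1) * 2 *
          (MP_0c2883_lc.gs (size x) + 1) + 1) + 1) →
        size (l.foldl (fun s m => MP_0c2883_lc.elimStep x.1 s m) s) ≤
          size x + (3 + (size x * size x * (size x + 1) * 2 *
          (MP_0c2883_lc.gs (size x) + 1) + 1) + 1) := by
      intro l
      induction l with
      | nil => intro s hs; exact hs
      | cons m l ih =>
        intro s hs
        rw [List.foldl_cons]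
        apply ih
        rcases elimStep_size x.1 s m with h | h
        · rw [h]; exact hs
        · omega
    exact key l' x.2 (by omega)
  exact base.comp (hf.pair hg)

theorem PT.spTest {f : α → Env} {g : α → Rel} (hf : PT f) (hg : PT g) :
    PT (fun a => MP_0c2883_lc.spTest (f a) (g a)) :=
  (PT.elim hf (PT.ins hf (PT.const (true, [])) hg)).fst'

end Pool.Agent.Lib.MP_0c2883_lc
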