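import Pool.Agent.Lib.MP_0c2883_lc.Red
import Pool.Agent.Lib.MP_0c2883_lc.Crit

/-!
# The decision procedure for primitivity and its correctness
-/

namespace Pool.Agent.Lib.MP_0c2883_lc

open List Pool.Agent.Lib.PolyTime FreeGroup

/-! ### Cyclic reduction -/

theorem half_lt {w : List Letter} (hw : IsReduced w) (hne : w ≠ []) {c : ℕ} (hc : Can w w c) :
    2 * c < w.length := by
  by_contra hcon
  have hm : 0 < w.length := List.length_pos_iff.2 hne
  set h := w.length / 2 with hh
  have h1 : Can w w h := hc.mono (by omega)
  obtain ⟨a1, a2, a3⟩ := h1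
  rw [part_invRev a2, part_true_eq] at a3
  rcases Nat.even_or_odd' w.length with ⟨k, hk | hk⟩
  · have hk' : w.length - h = h := by omega
    rw [hk'] at a3
    have e : (mk w : F2) = 1 := by
      have e1 : (mk w : F2) = mk (w.take h) * mk (w.drop h) := by
        rw [mul_mk, List.take_append_drop]
      rw [e1, a3, ← inv_mk, mul_inv_cancel]
    have e2 := congrArg FreeGroup.toWord e
    rw [toWord_mk, hw.reduce_eq, toWord_one] at e2
    exact hne e2
  · have h2 : Can w w (h + 1) := hc.mono (by omega)
    obtain ⟨b1, b2, b3⟩ := h2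
    rw [part_invRev b2, part_true_eq] at b3
    have hlt : h < w.length := by omega
    have e1 : w.length - (h + 1) = h := by omega
    rw [e1, List.drop_eq_getElem_cons hlt, List.take_succ_eq_append_getElem hlt] at b3
    simp only [invRev, List.map_append, List.map_cons, List.map_nil, List.reverse_append,
      List.reverse_cons, List.reverse_nil, List.nil_append, List.cons_append,
      List.singleton_append, List.cons.injEq] at b3
    exact linv_ne _ b3.1.symm

theorem cyc_reduce {w : List Letter} (hw : IsReduced w) {c : ℕ} (h1 : Can w w c)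
    (h2 : ¬ Can w w (c + 1)) :
    IsCyclicallyReduced ((w.take (w.length - c)).drop c) ∧
      (Prim (mk ((w.take (w.length - c)).drop c)) ↔ Prim (mk w)) := by
  rcases eq_or_ne w [] with rfl | hne
  · simp
  have hlt := half_lt hw hne h1
  have hr := (reduced_product hw hw h1 h2).1
  set L := (w.take (w.length - c)).drop c with hL
  have hLlen : L.length = w.length - c - c := by
    rw [hL, List.length_drop, List.length_take]; omega
  have hLne : L ≠ [] := by
    intro h; rw [h] at hLlen; simp at hLlen; omega
  have e1 : w.take (w.length - c) = w.take c ++ L := by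
    rw [hL]
    have : w.take c = (w.take (w.length - c)).take c := by
      rw [List.take_take]; congr 1; omega
    rw [this, List.take_append_drop]
  have e2 : w.drop c = L ++ w.drop (w.length - c) := by
    have : L = (w.drop c).take (w.length - c - c) := by
      rw [hL, List.drop_take]
    rw [this]
    have h3 : w.drop (w.length - c) = (w.drop c).drop (w.length - c - c) := by
      rw [List.drop_drop]; congr 1; omega
    rw [h3, List.take_append_drop]
  refine ⟨⟨?_, ?_⟩, ?_⟩
  · exact red_of_sub hw (((List.drop_suffix _ _).isInfix).trans (List.take_prefix _ _).isInfix)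
  · intro a ha b hb
    rw [FreeGroup.IsReduced, isChain_append] at hr
    refine hr.2.2 a ?_ b ?_
    · rw [e1, Option.mem_def, List.getLast?_append, Option.mem_def.1 ha]; rfl
    · rw [e2, Option.mem_def, List.head?_append, Option.mem_def.1 hb]; rfl
  · obtain ⟨a1, a2, a3⟩ := h1
    rw [part_invRev a2, part_true_eq] at a3
    have e3 : (mk w : F2) = mk (w.take c) * mk L * (mk (w.take c))⁻¹ := by
      conv_lhs => rw [← List.take_append_drop (w.length - c) w]
      rw [e1, a3, inv_mk, mul_mk, mul_mk]
    rw [e3, prim_conj]

/-! ### The final test -/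

/-- counting letters -/
def numStep (p : Letter → Bool) (t : List BNz) (r : GRule) : BNz :=
  match r with
  | none => ⟨0⟩
  | some (Sum.inl x) => if p x then ⟨1⟩ else ⟨0⟩
  | some (Sum.inr q) => ⟨(t[q.1]?.getD ⟨0⟩).val + (t[q.2]?.getD ⟨0⟩).val⟩

/-- number of letters with property `p` -/
def num (G : Gram) (i : ℕ) (p : Letter → Bool) : BNz := (tab (numStep p) G)[i]?.getD ⟨0⟩

theorem num_eq (G : Gram) (i : ℕ) (p : Letter → Bool) : (num G i p).val = (V G i).countP p := by
  have h1 := tab_map ruleVal (step' := numStep p) (h := fun v : List Letter => BNz.mk (v.countP p))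
    (by
    intro t r
    rcases r with _ | x | ⟨a, b⟩
    · rfl
    · simp only [ruleVal, numStep]
      cases h : p x <;> simp [h]
    · have ea : ((t.map (fun v : List Letter => BNz.mk (v.countP p)))[a]?.getD ⟨0⟩) =
          ⟨(t[a]?.getD []).countP p⟩ :=
        (getD_map (fun v : List Letter => BNz.mk (v.countP p)) t a []).symm
      have eb : ((t.map (fun v : List Letter => BNz.mk (v.countP p)))[b]?.getD ⟨0⟩) =
          ⟨(t[b]?.getD []).countP p⟩ :=
        (getD_map (fun v : List Letter => BNz.mk (v.countP p)) t b []).symm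
      simp only [ruleVal, numStep, List.countP_append, ea, eb]) G
  unfold num
  rw [← h1]
  have := getD_map (fun v : List Letter => BNz.mk (v.countP p)) (tab ruleVal G) i []
  have h2 : ((tab ruleVal G).map (fun v : List Letter => BNz.mk (v.countP p)))[i]?.getD ⟨0⟩ =
      ⟨(V G i).countP p⟩ := this.symm
  rw [h2]

/-- Entries of the table of prefix sums: positive part of the total, negative part of the total,
maximal prefix sum, minus the minimal prefix sum. -/
abbrev Ent := (BNz × BNz) × (BNz × BNz)

/-- the zero entry -/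
def ent0 : Ent := ((⟨0⟩, ⟨0⟩), (⟨0⟩, ⟨0⟩))

/-- combining entries -/
def entCat (A B : Ent) : Ent :=
  ((⟨A.1.1.val + B.1.1.val⟩, ⟨A.1.2.val + B.1.2.val⟩),
    (⟨max A.2.1.val ((A.1.1.val + B.2.1.val) - A.1.2.val)⟩,
      ⟨max A.2.2.val ((A.1.2.val + B.2.2.val) - A.1.1.val)⟩))

/-- the table of prefix sums -/
def rStep (ab : BNz × BNz) (t : List Ent) (r : GRule) : Ent :=
  match r with
  | none => ent0
  | some (Sum.inl x) =>
    if decide (x.1 = 0) then ((ab.2, ⟨0⟩), (ab.2, ⟨0⟩)) else ((⟨0⟩, ab.1), (⟨0⟩, ab.1))
  | some (Sum.inr q) => entCat (t[q.1]?.getD ent0) (t[q.2]?.getD ent0)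

/-- the entry of a word -/
noncomputable def entOf (α β : ℕ) (u : List Letter) : Ent :=
  ((⟨β * ca u⟩, ⟨α * cb u⟩), (⟨(up (wt α β) u).toNat⟩, ⟨(up (fun x => - wt α β x) u).toNat⟩))

theorem entOf_append (α β : ℕ) (u v : List Letter) :
    entOf α β (u ++ v) = entCat (entOf α β u) (entOf α β v) := by
  have h1 := up_nonneg (wt α β) u
  have h2 := up_nonneg (wt α β) v
  have h3 := up_nonneg (fun x => - wt α β x) u
  have h4 := up_nonneg (fun x => - wt α β x) v
  have h5 : tot (wt α β) u = ((β * ca u : ℕ) : ℤ) - ((α * cb u : ℕ) : ℤ) := by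
    rw [tot_wt]; push_cast; rfl
  unfold entOf entCat
  simp only [Prod.mk.injEq, BNz.mk.injEq]
  refine ⟨⟨?_, ?_⟩, ?_, ?_⟩
  · unfold ca; rw [List.countP_append]; ring
  · unfold cb; rw [List.countP_append]; ring
  · rw [up_append, h5]
    generalize β * ca u = P
    generalize α * cb u = Q
    omega
  · rw [up_append, tot_neg, h5]
    generalize β * ca u = P
    generalize α * cb u = Q
    omega

theorem rTab_eq (G : Gram) (i : ℕ) (α β : BNz) :
    (tab (rStep (α, β)) G)[i]?.getD ent0 = entOf α.val β.val (V G i) := by
  have h0 : entOf α.val β.val [] = ent0 := by simp [entOf, ent0, ca, cb, up]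
  have h1 := tab_map ruleVal (step' := rStep (α, β)) (h := entOf α.val β.val) (by
    intro t r
    rcases r with _ | x | ⟨a, b⟩
    · simp only [ruleVal, rStep]; exact h0
    · simp only [ruleVal, rStep]
      rcases x with ⟨j, s⟩
      fin_cases j
      · simp [entOf, ca, cb, up, wt]
      · simp [entOf, ca, cb, up, wt]
    · have ea : ((t.map (entOf α.val β.val))[a]?.getD ent0) = entOf α.val β.val (t[a]?.getD []) := by
        rw [← h0]; exact (getD_map (entOf α.val β.val) t a []).symm
      have eb : ((t.map (entOf α.val β.val))[b]?.getD ent0) = entOf α.val β.val (t[b]?.getD []) := by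
        rw [← h0]; exact (getD_map (entOf α.val β.val) t b []).symm
      simp only [ruleVal, rStep, entOf_append, ea, eb]) G
  rw [← h1, V, ← h0]
  exact (getD_map (entOf α.val β.val) _ i []).symm

/-- The final test. -/
def critTest (G : Gram) (i : ℕ) : Bool :=
  (decide ((num G i (fun x => decide (x = (0, true)))).val = 0) ||
    decide ((num G i (fun x => decide (x = (0, false)))).val = 0)) &&
  ((decide ((num G i (fun x => decide (x = (1, true)))).val = 0) ||
    decide ((num G i (fun x => decide (x = (1, false)))).val = 0)) &&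
  decide ((((tab (rStep (num G i (fun x => decide (x.1 = 0)), num G i (fun x => decide (x.1 = 1))))
      G)[i]?.getD ent0).2.1.val +
    ((tab (rStep (num G i (fun x => decide (x.1 = 0)), num G i (fun x => decide (x.1 = 1))))
      G)[i]?.getD ent0).2.2.val) + 1 =
    (num G i (fun x => decide (x.1 = 0))).val + (num G i (fun x => decide (x.1 = 1))).val))

theorem signConst_iff (L : List Letter) : SignConst L ↔
    ((L.countP (fun x => decide (x = (0, true))) = 0 ∨
      L.countP (fun x => decide (x = (0, false))) = 0) ∧
    (L.countP (fun x => decide (x = (1, true))) = 0 ∨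
      L.countP (fun x => decide (x = (1, false))) = 0)) := by
  have h : ∀ y : Letter, L.countP (fun x => decide (x = y)) = 0 ↔ y ∉ L := by
    intro y
    rw [List.countP_eq_zero]
    constructor
    · intro h hy; exact h y hy (by simp)
    · intro h x hx hxy
      rw [decide_eq_true_eq] at hxy
      subst hxy; exact h hx
  rw [h, h, h, h]
  constructor
  · intro hs
    constructor
    · by_contra hcon
      push Not at hcon
      have := hs _ hcon.1 _ hcon.2 rfl
      simp at this
    · by_contra hcon
      push Not at hcon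
      have := hs _ hcon.1 _ hcon.2 rfl
      simp at this
  · rintro ⟨h1, h2⟩ x hx y hy hxy
    rcases x with ⟨i, s⟩
    rcases y with ⟨j, t⟩
    simp only at hxy
    subst hxy
    fin_cases i
    · cases s <;> cases t <;> simp_all
    · cases s <;> cases t <;> simp_all

theorem critTest_spec (G : Gram) (i : ℕ) : critTest G i = true ↔ Crit (V G i) := by
  unfold critTest Crit
  rw [signConst_iff]
  simp only [Bool.and_eq_true, Bool.or_eq_true, decide_eq_true_eq, num_eq, rTab_eq]
  have h1 := up_nonneg (wt (ca (V G i)) (cb (V G i))) (V G i)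
  have h2 := up_nonneg (fun x => - wt (ca (V G i)) (cb (V G i)) x) (V G i)
  have h3 : (V G i).countP (fun x => decide (x.1 = 0)) = ca (V G i) := rfl
  have h4 : (V G i).countP (fun x => decide (x.1 = 1)) = cb (V G i) := rfl
  rw [h3, h4]
  have h5 : ((entOf (ca (V G i)) (cb (V G i)) (V G i)).2.1.val +
      (entOf (ca (V G i)) (cb (V G i)) (V G i)).2.2.val + 1 = ca (V G i) + cb (V G i)) ↔
      (rg (wt (ca (V G i)) (cb (V G i))) (V G i) + 1 = ca (V G i) + cb (V G i)) := by
    unfold entOf rg
    simp only
    omega
  rw [and_assoc, h5]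

/-! ### The decision procedure -/

/-- **The decision procedure for primitivity of compressed words in the free group of rank
two.** -/
def primTest (W : List SRule) : Bool :=
  let s := red W
  let i := s.2[W.length - 1]?.getD 0
  let c := cancel s.1 i i
  let A := cut' false s.1 i ⟨(len (mkEnv s.1) i).val - c.val⟩
  let B := cut' true A.1 A.2 ⟨(len (mkEnv A.1) A.2).val - c.val⟩
  critTest B.1 B.2

theorem eval_eq (W : List SRule) : eval W = (words W)[W.length - 1]?.getD [] := by
  unfold eval; rw [List.getLast?_eq_getElem?, length_words]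

theorem primTest_spec (W : List SRule) : primTest W = true ↔ Prim (mk (eval W)) := by
  obtain ⟨g1, g2, g3, g4, _, _⟩ := red_inv W
  unfold primTest
  simp only
  set s := red W with hs
  set i := s.2[W.length - 1]?.getD 0 with hi
  have hil : i < s.1.length := by
    rcases getD_mem_or s.2 (W.length - 1) 0 with h | h
    · exact g3 _ h
    · rw [hi, h]; exact g1.pos
  have hw : IsReduced (V s.1 i) ∧ (mk (V s.1 i) : F2) = mk (eval W) := by
    rw [eval_eq]
    by_cases hW : W.length - 1 < W.length
    · exact g4 _ hW
    · have h0 : W.length = 0 := by omega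
      have h1 : i = 0 := by
        rw [hi, List.getElem?_eq_none_iff.2 (by omega)]; rfl
      rw [h1, g1.V0, List.getElem?_eq_none_iff.2 (by simp; omega)]
      exact ⟨IsReduced.nil, rfl⟩
  obtain ⟨c1, c2⟩ := cancel_spec g1 hil hil
  set c := cancel s.1 i i with hc
  have hcle := c1.1
  obtain ⟨A', a1, a2, a3, a4, _, _⟩ := cut_spec (r := false) g1 hil
    (c := ⟨(len (mkEnv s.1) i).val - c.val⟩) (by rw [len_mk]; simp only; omega)
  set A := cut' false s.1 i ⟨(len (mkEnv s.1) i).val - c.val⟩ with hA
  rw [← a1] at a2 a3 a4
  rw [len_mk] at a4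
  simp only [part, Bool.false_eq_true, if_false] at a4
  obtain ⟨B', b1, b2, b3, b4, _, _⟩ := cut_spec (r := true) a2 a3
    (c := ⟨(len (mkEnv A.1) A.2).val - c.val⟩) (by rw [len_mk]; simp only; omega)
  set B := cut' true A.1 A.2 ⟨(len (mkEnv A.1) A.2).val - c.val⟩ with hB
  rw [← b1] at b4
  rw [critTest_spec]
  obtain ⟨r1, r2⟩ := cyc_reduce hw.1 c1 c2
  have hval : V B.1 B.2 = ((V s.1 i).take ((V s.1 i).length - c.val)).drop c.val := by
    rw [b4, len_mk, part_true_eq, a4]
    simp only
    rcases Nat.lt_or_ge c.val (((V s.1 i).take ((V s.1 i).length - c.val)).length) with h | h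
    · congr 1; omega
    · have h1 : ((V s.1 i).take ((V s.1 i).length - c.val)).length -
          (((V s.1 i).take ((V s.1 i).length - c.val)).length - c.val) =
          ((V s.1 i).take ((V s.1 i).length - c.val)).length := by omega
      rw [h1, List.drop_length, List.drop_eq_nil_iff.2 h]
  rw [hval, ← prim_iff_crit r1, r2, hw.2]

end Pool.Agent.Lib.MP_0c2883_lc
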