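import Pool.Agent.Lib.MP_0c2883_lc.Defs
import Mathlib.GroupTheory.FreeGroup.CyclicallyReduced
import Mathlib.Data.List.Rotate
import Mathlib.Tactic

/-!
# Cyclic words in the free group of rank two: adjacency, substitutions, range of prefix sums
-/

namespace Pool.Agent.Lib.MP_0c2883_lc

open List

/-- A factor of a reduced word is reduced. -/
theorem red_of_sub {u v : List Letter} (hv : FreeGroup.IsReduced v) (h : u <:+: v) :
    FreeGroup.IsReduced u := by
  obtain ⟨s, t, rfl⟩ := h
  rw [FreeGroup.IsReduced, isChain_append, isChain_append] at hv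
  exact hv.1.2.1

/-- The inverse letter. -/
def linv (x : Letter) : Letter := (x.1, !x.2)

@[simp] theorem linv_linv (x : Letter) : linv (linv x) = x := by
  rcases x with ⟨i, s⟩; simp [linv]

@[simp] theorem linv_fst (x : Letter) : (linv x).1 = x.1 := rfl

theorem linv_ne (x : Letter) : linv x ≠ x := by
  rcases x with ⟨i, s⟩; cases s <;> simp [linv]

theorem linv_inj {x y : Letter} : linv x = linv y ↔ x = y :=
  ⟨fun h => by rw [← linv_linv x, h, linv_linv], fun h => by rw [h]⟩

/-- `x` and `y` are cyclically adjacent (in this order) in the cyclic word `L`. -/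
def Adj (L : List Letter) (x y : Letter) : Prop :=
  ∃ v, L ~r (y :: v) ∧ (y :: v).getLast? = some x

theorem Adj.rot {L M : List Letter} {x y : Letter} (h : L ~r M) (hA : Adj L x y) : Adj M x y := by
  obtain ⟨v, h1, h2⟩ := hA
  exact ⟨v, h.symm.trans h1, h2⟩

theorem adj_rot {L M : List Letter} {x y : Letter} (h : L ~r M) : Adj L x y ↔ Adj M x y :=
  ⟨Adj.rot h, Adj.rot h.symm⟩

theorem Adj.mem_right {L : List Letter} {x y : Letter} (h : Adj L x y) : y ∈ L := by
  obtain ⟨v, h1, _⟩ := h
  rw [h1.mem_iff]; simp

theorem Adj.mem_left {L : List Letter} {x y : Letter} (h : Adj L x y) : x ∈ L := by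
  obtain ⟨v, h1, h2⟩ := h
  rw [h1.mem_iff]; exact List.mem_of_mem_getLast? h2

/-- Cyclic chains. -/
def Cyc (R : Letter → Letter → Prop) (L : List Letter) : Prop :=
  L.IsChain R ∧ ∀ x ∈ L.getLast?, ∀ y ∈ L.head?, R x y

theorem Cyc.append_comm {R : Letter → Letter → Prop} {u v : List Letter} (h : Cyc R (u ++ v)) :
    Cyc R (v ++ u) := by
  rcases eq_or_ne u [] with rfl | hu
  · simpa using h
  rcases eq_or_ne v [] with rfl | hv
  · simpa using h
  obtain ⟨h1, h2⟩ := h
  rw [isChain_append] at h1
  obtain ⟨a, u', rfl⟩ := List.exists_cons_of_ne_nil hu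
  obtain ⟨b, v', rfl⟩ := List.exists_cons_of_ne_nil hv
  refine ⟨?_, ?_⟩
  · rw [isChain_append]
    refine ⟨h1.2.1, h1.1, ?_⟩
    intro x hx y hy
    apply h2 x _ y _
    · rw [List.getLast?_append]; rw [Option.mem_def] at hx ⊢; rw [hx]; rfl
    · simpa using hy
  · intro x hx y hy
    apply h1.2.2 x _ y _
    · rw [Option.mem_def, List.getLast?_append] at hx
      rw [Option.mem_def]
      rcases h : (a :: u').getLast? with _ | z
      · simp at h
      · rw [h] at hx; simpa using hx
    · simpa using hy

theorem exists_append_of_isRotated {L M : List Letter} (h : L ~r M) :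
    ∃ u v, L = u ++ v ∧ M = v ++ u := by
  obtain ⟨n, hn, rfl⟩ := isRotated_iff_mod.1 h
  exact ⟨L.take n, L.drop n, (List.take_append_drop n L).symm, List.rotate_eq_drop_append_take hn⟩

theorem Cyc.rot {R : Letter → Letter → Prop} {L M : List Letter} (h : L ~r M) (hc : Cyc R L) :
    Cyc R M := by
  obtain ⟨u, v, rfl, rfl⟩ := exists_append_of_isRotated h
  exact hc.append_comm

theorem cyc_rot {R : Letter → Letter → Prop} {L M : List Letter} (h : L ~r M) :
    Cyc R L ↔ Cyc R M := ⟨Cyc.rot h, Cyc.rot h.symm⟩

theorem cyc_iff {R : Letter → Letter → Prop} {L : List Letter} :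
    Cyc R L ↔ ∀ x y, Adj L x y → R x y := by
  constructor
  · rintro h x y ⟨v, h1, h2⟩
    exact (h.rot h1).2 x h2 y (by simp)
  · intro h
    refine ⟨?_, ?_⟩
    · rw [isChain_iff_forall_rel_of_append_cons_cons]
      intro x y u v hL
      refine h x y ⟨v ++ (u ++ [x]), ?_, by simp [List.getLast?_cons, List.getLast?_append]⟩
      have : L = (u ++ [x]) ++ (y :: v) := by rw [hL]; simp
      rw [this, show y :: (v ++ (u ++ [x])) = (y :: v) ++ (u ++ [x]) by simp]
      exact isRotated_append
    · intro x hx y hy
      cases L with
      | nil => simp at hx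
      | cons z L =>
        rw [List.head?_cons, Option.mem_def, Option.some.injEq] at hy
        subst hy
        exact h x z ⟨L, IsRotated.refl _, hx⟩

theorem isCyclicallyReduced_iff_cyc {L : List Letter} :
    FreeGroup.IsCyclicallyReduced L ↔ Cyc (fun a b => a.1 = b.1 → a.2 = b.2) L := Iff.rfl

/-- If every predecessor of `e` is `e` then all letters are `e`. -/
theorem all_eq_of_pred {L : List Letter} {e : Letter} (he : e ∈ L)
    (h : ∀ x, Adj L x e → x = e) : ∀ z ∈ L, z = e := by
  obtain ⟨u, v, rfl⟩ := List.append_of_mem he
  have hr : (u ++ e :: v) ~r (e :: v ++ u) := isRotated_append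
  set M := e :: v ++ u with hM
  have hc : Cyc (fun a b => b = e → a = e) M :=
    cyc_iff.2 (fun x y hxy hy => by
      subst hy
      exact h x (hxy.rot hr.symm))
  have key : ∀ (K : List Letter), K.IsChain (fun a b => b = e → a = e) →
      (∀ x ∈ K.getLast?, x = e) → ∀ z ∈ K, z = e := by
    intro K
    induction K with
    | nil => simp
    | cons a K ih =>
      intro h1 h2 z hz
      cases K with
      | nil =>
        have h3 := h2 a (by simp)
        simp only [List.mem_singleton] at hz
        rw [hz]; exact h3
      | cons b K =>
        rw [isChain_cons_cons] at h1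
        have ih' := ih h1.2 (fun x hx => h2 x (by rw [List.getLast?_cons_cons]; exact hx))
        rcases List.mem_cons.1 hz with rfl | hz
        · exact h1.1 (ih' b (by simp))
        · exact ih' z hz
  intro z hz
  exact key M hc.1 (fun x hx => hc.2 x hx e (by simp [hM]) rfl) z (hr.mem_iff.1 hz)

/-- If every successor of `e` is `e` then all letters are `e`. -/
theorem all_eq_of_succ {L : List Letter} {e : Letter} (he : e ∈ L)
    (h : ∀ x, Adj L e x → x = e) : ∀ z ∈ L, z = e := by
  obtain ⟨u, v, rfl⟩ := List.append_of_mem he
  have hr : (u ++ e :: v) ~r (e :: v ++ u) := isRotated_append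
  set M := e :: v ++ u with hM
  have hc : Cyc (fun a b => a = e → b = e) M :=
    cyc_iff.2 (fun x y hxy hy => by
      subst hy
      exact h y (hxy.rot hr.symm))
  have key : ∀ (K : List Letter), K.IsChain (fun a b => a = e → b = e) →
      (∀ x ∈ K.head?, x = e) → ∀ z ∈ K, z = e := by
    intro K
    induction K with
    | nil => simp
    | cons a K ih =>
      intro h1 h2 z hz
      have h3 := h2 a (by simp)
      cases K with
      | nil =>
        simp only [List.mem_singleton] at hz
        rw [hz]; exact h3
      | cons b K =>
        rw [isChain_cons_cons] at h1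
        have ih' := ih h1.2 (fun x hx => by
          rw [List.head?_cons, Option.mem_def, Option.some.injEq] at hx
          rw [← hx]; exact h1.1 h3)
        rcases List.mem_cons.1 hz with rfl | hz
        · exact h3
        · exact ih' z hz
  intro z hz
  exact key M hc.1 (fun x hx => by simpa [hM, eq_comm] using hx) z (hr.mem_iff.1 hz)

/-! ### The substitution `e ↦ d e` -/

/-- The substitution `e ↦ d e`, `e⁻¹ ↦ e⁻¹ d⁻¹` on letters. -/
def sub1 (d e x : Letter) : List Letter :=
  if x = e then [d, e] else if x = linv e then [linv e, linv d] else [x]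

/-- The substitution `e ↦ d e`, `e⁻¹ ↦ e⁻¹ d⁻¹` on words. -/
def sub (d e : Letter) (L : List Letter) : List Letter := L.flatMap (sub1 d e)

@[simp] theorem sub_nil (d e : Letter) : sub d e [] = [] := rfl
@[simp] theorem sub_cons (d e x : Letter) (L : List Letter) :
    sub d e (x :: L) = sub1 d e x ++ sub d e L := rfl
@[simp] theorem sub_append (d e : Letter) (L M : List Letter) :
    sub d e (L ++ M) = sub d e L ++ sub d e M := by simp [sub]

theorem sub1_ne_nil (d e x : Letter) : sub1 d e x ≠ [] := by
  unfold sub1; split_ifs <;> simp

theorem sub_rot {d e : Letter} {L M : List Letter} (h : L ~r M) : sub d e L ~r sub d e M := by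
  obtain ⟨u, v, rfl, rfl⟩ := exists_append_of_isRotated h
  rw [sub_append, sub_append]; exact isRotated_append

theorem length_sub (d e : Letter) (L : List Letter) :
    (sub d e L).length = L.length + L.countP (fun x => decide (x = e ∨ x = linv e)) := by
  induction L with
  | nil => rfl
  | cons x L ih =>
    rw [sub_cons, List.length_append, ih, List.countP_cons]
    unfold sub1
    split_ifs <;> simp_all <;> omega

theorem adj_sub {d e : Letter} {L : List Letter} {x y : Letter} (h : Adj L x y) {x' y' : Letter}
    (hx : (sub1 d e x).getLast? = some x') (hy : (sub1 d e y).head? = some y') :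
    Adj (sub d e L) x' y' := by
  obtain ⟨v, h1, h2⟩ := h
  have h3 := sub_rot (d := d) (e := e) h1
  rw [sub_cons] at h3
  obtain ⟨t, ht⟩ : ∃ t, sub1 d e y = y' :: t := by
    cases h : sub1 d e y with
    | nil => exact absurd h (sub1_ne_nil _ _ _)
    | cons a t => rw [h] at hy; simp at hy; exact ⟨t, by rw [hy]⟩
  refine ⟨t ++ sub d e v, ?_, ?_⟩
  · rw [ht] at h3; exact h3
  · have h4 : (sub d e (y :: v)).getLast? = some x' := by
      have h5 : y :: v = (y :: v).dropLast ++ [x] := by
        rw [List.dropLast_append_getLast? ]
        exact h2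
      rw [h5, sub_append, List.getLast?_append]
      simp [hx]
    rw [sub_cons, ht] at h4
    exact h4

/-- The relation satisfied by adjacent letters when `e` is always preceded by `d` and `e⁻¹` is
always followed by `d⁻¹`. -/
def Pre (d e x y : Letter) : Prop := (y = e → x = d) ∧ (x = linv e → y = linv d)

theorem parse {d e : Letter} (hde : d.1 ≠ e.1) : ∀ (n : ℕ) (L : List Letter), L.length ≤ n →
    L.IsChain (Pre d e) → (∀ x ∈ L.head?, x ≠ e) → (∀ x ∈ L.getLast?, x ≠ linv e) →
    ∃ L', L = sub d e L' := by
  have h1 : e ≠ d := fun h => hde (by rw [h])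
  have h2 : linv d ≠ d := linv_ne d
  have h3 : linv e ≠ e := linv_ne e
  intro n
  induction n with
  | zero =>
    intro L hL _ _ _
    exact ⟨[], by simpa using hL⟩
  | succ n ih =>
    intro L hL hc hh hl
    cases L with
    | nil => exact ⟨[], rfl⟩
    | cons x L =>
      rw [List.length_cons] at hL
      have hx : x ≠ e := hh x (by simp)
      by_cases hxe : x = linv e
      · subst hxe
        cases L with
        | nil => exact absurd rfl (hl (linv e) (by simp))
        | cons y L =>
          rw [isChain_cons_cons] at hc
          have hy : y = linv d := hc.1.2 rfl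
          subst hy
          obtain ⟨L', hL'⟩ := ih L (by simp at hL; omega) hc.2.tail (by
            intro z hz hze
            subst hze
            cases L with
            | nil => simp at hz
            | cons w L =>
              simp at hz; subst hz
              have h4 := hc.2
              rw [isChain_cons_cons] at h4
              exact h2 (h4.1.1 rfl)) (by
            intro z hz
            cases L with
            | nil => simp at hz
            | cons w L => exact hl z (by simpa [List.getLast?_cons_cons] using hz))
          refine ⟨linv e :: L', ?_⟩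
          rw [sub_cons, ← hL']
          simp [sub1, h3]
      · cases L with
        | nil => exact ⟨[x], by simp [sub, sub1, hx, hxe]⟩
        | cons y L =>
          rw [isChain_cons_cons] at hc
          by_cases hy : y = e
          · subst hy
            have hxd : x = d := hc.1.1 rfl
            subst hxd
            obtain ⟨L', hL'⟩ := ih L (by simp at hL; omega) hc.2.tail (by
              intro z hz hze
              cases L with
              | nil => simp at hz
              | cons w L =>
                simp at hz; subst hz; subst hze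
                have h4 := hc.2
                rw [isChain_cons_cons] at h4
                exact h1 (h4.1.1 rfl)) (by
              intro z hz
              cases L with
              | nil => simp at hz
              | cons w L => exact hl z (by simpa [List.getLast?_cons_cons] using hz))
            refine ⟨y :: L', ?_⟩
            rw [sub_cons, ← hL']
            simp [sub1]
          · obtain ⟨L', hL'⟩ := ih (y :: L) (by omega) hc.2 (by
              intro z hz
              simp at hz; subst hz; exact hy) (by
              intro z hz
              exact hl z (by rw [List.getLast?_cons_cons]; exact hz))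
            refine ⟨x :: L', ?_⟩
            rw [sub_cons, ← hL']
            simp [sub1, hx, hxe]

theorem exists_sub {d e : Letter} (hde : d.1 ≠ e.1) {L : List Letter} (hc : Cyc (Pre d e) L) :
    ∃ L', L ~r sub d e L' := by
  have h1 : e ≠ d := fun h => hde (by rw [h])
  have h2 : linv d ≠ d := linv_ne d
  have h3 : linv e ≠ e := linv_ne e
  have h4 : linv d ≠ e := fun h => hde (by rw [← h]; rfl)
  have h5 : linv e ≠ d := fun h => hde (by rw [← h]; rfl)
  cases hL : L with
  | nil => exact ⟨[], by simp⟩
  | cons a M =>
    subst hL
    by_cases ha : a = e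
    · subst ha
      obtain ⟨z, hz⟩ : ∃ z, (a :: M).getLast? = some z := by
        cases h : (a :: M).getLast? with
        | none => simp at h
        | some z => exact ⟨z, rfl⟩
      have hzd : z = d := (hc.2 z hz a (by simp)).1 rfl
      subst hzd
      have hM : M ≠ [] := by
        rintro rfl
        simp at hz; exact h1 hz
      have e1 : a :: M = (a :: M.dropLast) ++ [z] := by
        have h6 : M.getLast? = some z := by
          cases M with
          | nil => exact absurd rfl hM
          | cons b M => rwa [List.getLast?_cons_cons] at hz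
        rw [List.cons_append, List.dropLast_append_getLast? _ h6]
      set K := a :: M.dropLast with hK
      have h7 : K.IsChain (Pre z a) ∧ ∀ x ∈ K.getLast?, Pre z a x z := by
        have := hc.1
        rw [e1, isChain_append] at this
        exact ⟨this.1, fun x hx => this.2.2 x hx z (by simp)⟩
      obtain ⟨L', hL'⟩ := parse hde (z :: K).length (z :: K) le_rfl (by
        rw [hK, isChain_cons_cons]
        exact ⟨⟨fun _ => rfl, fun h => absurd h.symm h5⟩, h7.1⟩) (by
        intro x hx; simp at hx; subst hx; exact fun h => h1 h.symm) (by
        intro x hx hxe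
        have hx' : x ∈ K.getLast? := by
          rw [hK] at hx ⊢; rwa [List.getLast?_cons_cons] at hx
        exact h2 ((h7.2 x hx').2 hxe).symm)
      refine ⟨L', ?_⟩
      rw [← hL', e1]
      exact isRotated_concat z K
    · by_cases hb : (a :: M).getLast? = some (linv e)
      · have had : a = linv d := (hc.2 (linv e) hb a (by simp)).2 rfl
        have hM : M ≠ [] := by
          rintro rfl
          simp at hb
          rw [had, linv_inj] at hb; exact h1 hb.symm
        obtain ⟨b, N, rfl⟩ := List.exists_cons_of_ne_nil hM
        rw [List.getLast?_cons_cons] at hb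
        have h6 := hc.1
        rw [isChain_cons_cons] at h6
        obtain ⟨L', hL'⟩ := parse hde (b :: N ++ [a]).length (b :: N ++ [a]) le_rfl (by
          rw [isChain_append]
          refine ⟨h6.2, isChain_singleton _, ?_⟩
          intro x hx y hy
          rw [Option.mem_def, hb, Option.some.injEq] at hx
          simp at hy
          subst hx; subst hy
          exact ⟨fun h => absurd h ha, fun _ => had⟩) (by
          intro x hx hxe
          simp at hx; subst hx; subst hxe
          have := h6.1.1 rfl
          rw [had] at this
          exact h2 this) (by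
          intro x hx
          rw [Option.mem_def, List.getLast?_append] at hx
          simp at hx
          subst hx
          rw [had]
          exact fun h => h1 (linv_inj.1 h).symm)
        refine ⟨L', ?_⟩
        rw [← hL']
        exact IsRotated.cons_append_singleton
      · obtain ⟨L', hL'⟩ := parse hde (a :: M).length (a :: M) le_rfl hc.1 (by
          intro x hx; simp at hx; subst hx; exact ha) (by
          intro x hx hxe; subst hxe; exact hb hx)
        exact ⟨L', by rw [← hL']⟩

/-! ### Range of prefix sums -/

/-- The largest prefix sum (including the empty prefix). -/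
def up (w : Letter → ℤ) : List Letter → ℤ
  | [] => 0
  | x :: L => max 0 (w x + up w L)

/-- The total weight. -/
def tot (w : Letter → ℤ) (L : List Letter) : ℤ := (L.map w).sum

/-- The range of the prefix sums. -/
def rg (w : Letter → ℤ) (L : List Letter) : ℤ := up w L + up (fun x => - w x) L

theorem up_nonneg (w : Letter → ℤ) (L : List Letter) : 0 ≤ up w L := by
  cases L <;> simp [up]

@[simp] theorem tot_nil (w : Letter → ℤ) : tot w [] = 0 := rfl
@[simp] theorem tot_cons (w : Letter → ℤ) (x : Letter) (L : List Letter) :
    tot w (x :: L) = w x + tot w L := by simp [tot]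
@[simp] theorem tot_append (w : Letter → ℤ) (L M : List Letter) :
    tot w (L ++ M) = tot w L + tot w M := by simp [tot]

theorem tot_neg (w : Letter → ℤ) (L : List Letter) : tot (fun x => - w x) L = - tot w L := by
  induction L with
  | nil => rfl
  | cons x L ih => rw [tot_cons, tot_cons, ih]; ring

theorem up_append (w : Letter → ℤ) (L M : List Letter) :
    up w (L ++ M) = max (up w L) (tot w L + up w M) := by
  induction L with
  | nil => have := up_nonneg w M; simp [up, this]
  | cons x L ih =>
    rw [List.cons_append]
    simp only [up, ih, tot_cons]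
    omega

theorem rg_append_comm {w : Letter → ℤ} {L M : List Letter} (h : tot w (L ++ M) = 0) :
    rg w (M ++ L) = rg w (L ++ M) := by
  unfold rg
  rw [up_append, up_append, up_append, up_append, tot_neg, tot_neg]
  rw [tot_append] at h
  omega

theorem tot_rot {w : Letter → ℤ} {L M : List Letter} (h : L ~r M) : tot w L = tot w M := by
  obtain ⟨u, v, rfl, rfl⟩ := exists_append_of_isRotated h
  rw [tot_append, tot_append]; ring

theorem rg_rot {w : Letter → ℤ} {L M : List Letter} (h : L ~r M) (h0 : tot w L = 0) :
    rg w M = rg w L := by
  obtain ⟨u, v, rfl, rfl⟩ := exists_append_of_isRotated h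
  exact rg_append_comm h0

theorem up_congr {w w' : Letter → ℤ} {L : List Letter} (h : ∀ x ∈ L, w x = w' x) :
    up w L = up w' L := by
  induction L with
  | nil => rfl
  | cons x L ih =>
    simp only [up]
    rw [ih (fun y hy => h y (List.mem_cons_of_mem _ hy)), h x (by simp)]

theorem rg_congr {w w' : Letter → ℤ} {L : List Letter} (h : ∀ x ∈ L, w x = w' x) :
    rg w L = rg w' L := by
  unfold rg
  rw [up_congr h, up_congr (w := fun x => - w x) (w' := fun x => - w' x)
    (fun x hx => by rw [h x hx])]

theorem tot_congr {w w' : Letter → ℤ} {L : List Letter} (h : ∀ x ∈ L, w x = w' x) :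
    tot w L = tot w' L := by
  unfold tot; rw [List.map_congr_left h]

theorem rg_neg (w : Letter → ℤ) (L : List Letter) : rg (fun x => - w x) L = rg w L := by
  unfold rg; simp only [neg_neg]; ring

/-- Some prefix attains the maximal prefix sum. -/
theorem exists_up (w : Letter → ℤ) (L : List Letter) : ∃ u v, L = u ++ v ∧ tot w u = up w L := by
  induction L with
  | nil => exact ⟨[], [], rfl, rfl⟩
  | cons x L ih =>
    obtain ⟨u, v, rfl, h⟩ := ih
    by_cases hx : 0 ≤ w x + up w (u ++ v)
    · exact ⟨x :: u, v, rfl, by rw [tot_cons, h]; simp only [up]; omega⟩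
    · exact ⟨[], x :: (u ++ v), rfl, by simp only [up, tot_nil]; omega⟩

/-- Some rotation has all prefix sums `≤ 0`. -/
theorem exists_rot_up_eq_zero {w : Letter → ℤ} {L : List Letter} (h0 : tot w L = 0) :
    ∃ M, L ~r M ∧ up w M = 0 := by
  obtain ⟨u, v, rfl, h⟩ := exists_up w L
  refine ⟨v ++ u, isRotated_append, ?_⟩
  rw [up_append] at h ⊢
  rw [tot_append] at h0
  have h1 := up_nonneg w v
  have h2 := up_nonneg w u
  omega

theorem rg_sub {f e : Letter} (hfe : f.1 ≠ e.1) {w w' : Letter → ℤ} {p q : ℤ} (hp : 0 ≤ p)
    (hq : 0 ≤ q) (h1 : w f = p) (h2 : w e = - q) (h3 : w' f = p) (h4 : w' e = - (p + q))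
    {L : List Letter} (hL : ∀ x ∈ L, x = e ∨ x = f) (hne : L ≠ []) (h0 : tot w L = 0) :
    tot w' (sub f e L) = 0 ∧ rg w' (sub f e L) = rg w L + p := by
  have hef : f ≠ e := fun h => hfe (by rw [h])
  have hfe' : f ≠ linv e := fun h => hfe (by rw [h]; rfl)
  have s1 : sub1 f e e = [f, e] := by simp [sub1]
  have s2 : sub1 f e f = [f] := by simp [sub1, hef, hfe']
  have k1 : ∀ M : List Letter, (∀ x ∈ M, x = e ∨ x = f) → tot w' (sub f e M) = tot w M := by
    intro M
    induction M with
    | nil => simp
    | cons x M ih =>
      intro hM
      have := ih (fun y hy => hM y (List.mem_cons_of_mem _ hy))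
      rcases hM x (by simp) with rfl | rfl
      · rw [sub_cons, s1, tot_append, this]; simp [h2, h3, h4]
      · rw [sub_cons, s2, tot_append, this]; simp [h1, h3]
  have k2 : ∀ M : List Letter, (∀ x ∈ M, x = e ∨ x = f) →
      up (fun x => - w' x) (sub f e M) = up (fun x => - w x) M := by
    intro M
    induction M with
    | nil => simp [up]
    | cons x M ih =>
      intro hM
      have h5 := ih (fun y hy => hM y (List.mem_cons_of_mem _ hy))
      have h6 := up_nonneg (fun x => - w x) M
      rcases hM x (by simp) with rfl | rfl
      · rw [sub_cons, s1]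
        simp only [List.cons_append, List.nil_append, up, h5, h2, h3, h4]
        omega
      · rw [sub_cons, s2]
        simp only [List.cons_append, List.nil_append, up, h5, h1, h3]
  have k3 : ∀ M : List Letter, (∀ x ∈ M, x = e ∨ x = f) →
      up w' (sub f e M) ≤ up w M + p := by
    intro M
    induction M with
    | nil => intro _; simpa [up] using hp
    | cons x M ih =>
      intro hM
      have h5 := ih (fun y hy => hM y (List.mem_cons_of_mem _ hy))
      rcases hM x (by simp) with rfl | rfl
      · rw [sub_cons, s1]
        simp only [List.cons_append, List.nil_append, up, h2, h3, h4]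
        omega
      · rw [sub_cons, s2]
        simp only [List.cons_append, List.nil_append, up, h1, h3]
        omega
  refine ⟨by rw [k1 L hL, h0], ?_⟩
  obtain ⟨M, hM1, hM2⟩ := exists_rot_up_eq_zero h0
  have hM3 : ∀ x ∈ M, x = e ∨ x = f := fun x hx => hL x (hM1.mem_iff.2 hx)
  have hM4 : M ≠ [] := by
    rintro rfl
    exact hne (isRotated_nil_iff.1 hM1)
  have k4 : p ≤ up w' (sub f e M) := by
    obtain ⟨x, N, rfl⟩ := List.exists_cons_of_ne_nil hM4
    have h6 := up_nonneg w' (sub f e N)
    rcases hM3 x (by simp) with rfl | rfl
    · rw [sub_cons, s1]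
      simp only [List.cons_append, List.nil_append, up, h3]
      omega
    · rw [sub_cons, s2]
      simp only [List.cons_append, List.nil_append, up, h3]
      omega
  have k5 := k3 M hM3
  rw [hM2] at k5
  have k6 := k2 M hM3
  rw [rg_rot (sub_rot hM1).symm (by rw [k1 M hM3, ← tot_rot hM1, h0]),
    rg_rot hM1.symm (by rw [← tot_rot hM1, h0])]
  unfold rg
  rw [k6, hM2]
  omega

end Pool.Agent.Lib.MP_0c2883_lc
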