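import Pool.Agent.Lib.MP_0c2883_lc.ElimPT
import Pool.Agent.Lib.MP_0c2883_lc.Final

/-!
# The decision procedure runs in polynomial time
-/

namespace Pool.Agent.Lib.MP_0c2883_lc

open List Pool.Agent.Lib.PolyTime

variable {α β γ τ : Type} [Enc α] [Enc β] [Enc γ] [Enc τ]

theorem size_env (e : Env) : size e.1 ≤ size e := by rw [size_prod (x := e)]; omega

theorem PT.condConst (r : Bool) {f g : α → β} (hf : PT f) (hg : PT g) :
    PT (fun a => cond r (f a) (g a)) := by cases r <;> assumption

theorem PT.dStep (r : Bool) {f : α → Env} {h : α → (ℕ × BNz) × List ℕ} (hf : PT f) (hh : PT h) :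
    PT (fun a => MP_0c2883_lc.dStep (f a) r (h a)) := by
  have hc : PT (fun a => MP_0c2883_lc.cat (f a) (h a).1.1) := PT.cat hf hh.fst'.fst'
  have z0 := PT.bnzEq hh.fst'.snd' (PT.const (BNz.mk 0))
  have z1 := PT.bnzEq hh.fst'.snd' (PT.len hf hh.fst'.fst')
  have b1 : PT (fun a => (((h a).1.1, BNz.mk 0), (h a).2 ++ [(h a).1.1])) :=
    (hh.fst'.fst'.pair (PT.const _)).pair (PT.append hh.snd' (PT.list1 hh.fst'.fst'))
  have key : PT (fun x : α × (ℕ × ℕ) =>
      if decide ((h x.1).1.2.val ≤ (MP_0c2883_lc.len (f x.1) (cond r x.2.2 x.2.1)).val)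
        then ((cond r x.2.2 x.2.1, (h x.1).1.2), (h x.1).2)
      else ((cond r x.2.1 x.2.2,
        BNz.mk ((h x.1).1.2.val - (MP_0c2883_lc.len (f x.1) (cond r x.2.2 x.2.1)).val)),
        (h x.1).2 ++ [cond r x.2.2 x.2.1])) := by
    have hf' := hf.comp (PT.fst (α := α) (β := ℕ × ℕ))
    have hh' := hh.comp (PT.fst (α := α) (β := ℕ × ℕ))
    have h1 : PT (fun x : α × (ℕ × ℕ) => x.2.1) := PT.snd.fst'
    have h2 : PT (fun x : α × (ℕ × ℕ) => x.2.2) := PT.snd.snd'
    have near := PT.condConst r h2 h1
    have far := PT.condConst r h1 h2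
    exact PT.cond (PT.bnzLe hh'.fst'.snd' (PT.len hf' near))
      ((near.pair hh'.fst'.snd').pair hh'.snd')
      ((far.pair (PT.bnzSub hh'.fst'.snd' (PT.len hf' near))).pair
        (PT.append hh'.snd' (PT.list1 near)))
  refine (PT.cond z0 hh (PT.cond z1 b1 (PT.optCasesP hc hh key))).congr (fun a => ?_)
  unfold MP_0c2883_lc.dStep
  cases MP_0c2883_lc.cat (f a) (h a).1.1 <;> rfl

theorem dIter_size (e : Env) (r : Bool) (i : ℕ) (c : BNz) (n : ℕ) :
    let s := (MP_0c2883_lc.dStep e r)^[n] ((i, c), [])
    size s.1.1 ≤ size e.1 + size i ∧ s.1.2.val ≤ c.val ∧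
      (∀ x ∈ s.2, size x ≤ size e.1 + size i) ∧ s.2.length ≤ n := by
  induction n with
  | zero => exact ⟨by simp, le_rfl, by simp, by simp⟩
  | succ n ih =>
    simp only at ih ⊢
    rw [Function.iterate_succ_apply']
    set t := (MP_0c2883_lc.dStep e r)^[n] ((i, c), []) with ht
    obtain ⟨i1, i2, i3, i4⟩ := ih
    unfold MP_0c2883_lc.dStep
    split_ifs with c1 c2
    · exact ⟨i1, i2, i3, by omega⟩
    · refine ⟨i1, by simp, ?_, by simp; omega⟩
      intro x hx
      rw [List.mem_append, List.mem_singleton] at hx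
      rcases hx with hx | rfl
      · exact i3 x hx
      · exact i1
    · rcases hc : MP_0c2883_lc.cat e t.1.1 with _ | ⟨a, b⟩
      · simp only
        exact ⟨i1, i2, i3, Nat.le_succ_of_le i4⟩
      · have h1 := size_cat_le hc
        rw [size_prod] at h1
        simp only at h1 ⊢
        have hn : size (cond r b a) ≤ size e.1 + size i := by cases r <;> simp only [cond] <;> omega
        have hf : size (cond r a b) ≤ size e.1 + size i := by cases r <;> simp only [cond] <;> omega
        split_ifs
        · exact ⟨hn, i2, i3, by simp only; omega⟩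
        · refine ⟨hf, by simp only; omega, ?_, by simp; omega⟩
          intro x hx
          rw [List.mem_append, List.mem_singleton] at hx
          rcases hx with hx | rfl
          · exact i3 x hx
          · exact hn

theorem PT.dec (r : Bool) {f : α → Env} {g : α → ℕ} {h : α → BNz} (hf : PT f) (hg : PT g)
    (hh : PT h) : PT (fun a => MP_0c2883_lc.dec (f a) r (g a) (h a)) := by
  have base : PT (fun x : Env × (ℕ × BNz) => MP_0c2883_lc.dec x.1 r x.2.1 x.2.2) := by
    have hit := PT.iterate (f := fun x : Env × (ℕ × BNz) => x.1.1.length + 1)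
      (init := fun x => ((x.2.1, x.2.2), ([] : List ℕ)))
      (step := fun x => MP_0c2883_lc.dStep x.1 r) PT.fst.fst'.length.succ
      ((PT.snd.fst'.pair PT.snd.snd').pair (PT.const _)) (PT.dStep r PT.fst.fst' PT.snd)
      (B := fun n => ((n + n) + (4 * n + 1) + 1) + ((n + 1) * (n + n + 1) + 1) + 1)
      (((((PB.id.add PB.id).add (((PB.const 4).mul PB.id).add (PB.const 1))).add
        (PB.const 1)).add (((PB.id.add (PB.const 1)).mul ((PB.id.add PB.id).add
        (PB.const 1))).add (PB.const 1))).add (PB.const 1))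
      (by
        intro x i hi
        obtain ⟨k1, k2, k3, k4⟩ := dIter_size x.1 r x.2.1 x.2.2 i
        have k5 := size_bn_mono k2
        rw [size_prod, size_prod]
        have t1 : size x = size x.1 + (size x.2.1 + size x.2.2 + 1) + 1 := by
          rw [size_prod, size_prod (x := x.2)]
        have t2 := size_env x.1
        have t3 := length_le_size x.1.1
        have k6 := size_list_le _ k3
        have k7 : ((MP_0c2883_lc.dStep x.1 r)^[i] ((x.2.1, x.2.2), [])).2.length ≤ size x + 1 := by
          omega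
        have k8 := Nat.mul_le_mul k7 (show size x.1.1 + size x.2.1 + 1 ≤ size x + size x + 1 by omega)
        omega)
    exact hit.snd'
  exact base.comp (hf.pair (hg.pair hh))

theorem size_concat (l : List β) (b : β) : size (l ++ [b]) = size l + size b + 1 := by
  have := size_append l [b]
  rw [size_cons, size_nil] at this
  omega

theorem size_catRule (p : ℕ × ℕ) : size (some (Sum.inr p) : GRule) = 2 * p.1 + 2 * p.2 + 9 := by
  rw [size_some, size_inr, size_prod, size_nat, size_nat]; omega

theorem chain_size (r : Bool) : ∀ (L : List ℕ) (G : Gram) (cur m : ℕ), cur ≤ G.length →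
    (∀ x ∈ L, x ≤ m) →
    size (L.foldl (cStep r) (G, cur)).1 ≤ size G +
      L.length * (2 * m + 2 * (G.length + L.length) + 10) ∧
    (L.foldl (cStep r) (G, cur)).2 ≤ G.length + L.length := by
  intro L
  induction L with
  | nil => intro G cur m h _; exact ⟨by simp, by simpa using h⟩
  | cons x L ih =>
    intro G cur m h hm
    rw [List.foldl_cons]
    have hx := hm x (by simp)
    obtain ⟨i1, i2⟩ := ih (cStep r (G, cur) x).1 (cStep r (G, cur) x).2 m (by
      simp [cStep]) (fun y hy => hm y (List.mem_cons_of_mem _ hy))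
    have e1 : (cStep r (G, cur) x).1.length = G.length + 1 := by simp [cStep]
    have e2 : size (cStep r (G, cur) x).1 ≤ size G + (2 * m + 2 * G.length + 10) := by
      unfold cStep
      simp only
      rw [size_concat, size_catRule]
      cases r <;> simp only [cond] <;> omega
    have e3 : (cStep r (G, cur) x) = ((cStep r (G, cur) x).1, (cStep r (G, cur) x).2) := rfl
    rw [← e3] at i1 i2
    rw [e1] at i1 i2
    have e4 : 2 * m + 2 * (G.length + 1 + L.length) + 10 =
        2 * m + 2 * (G.length + (L.length + 1)) + 10 := by ring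
    rw [e4] at i1
    have e5 : (L.length + 1) * (2 * m + 2 * (G.length + (L.length + 1)) + 10) =
      L.length * (2 * m + 2 * (G.length + (L.length + 1)) + 10) +
        (2 * m + 2 * (G.length + (L.length + 1)) + 10) := Nat.succ_mul _ _
    rw [List.length_cons]
    refine ⟨?_, by omega⟩
    rw [e5]
    omega

theorem PT.chain (r : Bool) {f : α → Gram} {g : α → List ℕ} (hf : PT f) (hg : PT g) :
    PT (fun a => MP_0c2883_lc.chain r (f a) (g a)) := by
  have base : PT (fun x : Gram × List ℕ => MP_0c2883_lc.chain r x.1 x.2) := by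
    refine PT.foldl (f := fun x : Gram × List ℕ => x.2.reverse) (init := fun x => (x.1, 0))
      (step := fun _ s y => cStep r s y) PT.snd.reverse (PT.fst.pair (PT.const 0))
      ?_ (B := fun n => (n + n * (2 * n + 2 * (n + n) + 10)) + (2 * (n + n) + 1) + 1)
      (((PB.id.add (PB.id.mul ((((PB.const 2).mul PB.id).add ((PB.const 2).mul
        (PB.id.add PB.id))).add (PB.const 10)))).add (((PB.const 2).mul
        (PB.id.add PB.id)).add (PB.const 1))).add (PB.const 1)) ?_
    · have h1 : PT (fun x : (Gram × List ℕ) × ((Gram × ℕ) × ℕ) => x.2.1.1) := PT.snd.fst'.fst'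
      have h2 : PT (fun x : (Gram × List ℕ) × ((Gram × ℕ) × ℕ) => x.2.1.2) := PT.snd.fst'.snd'
      have h3 : PT (fun x : (Gram × List ℕ) × ((Gram × ℕ) × ℕ) => x.2.2) := PT.snd.snd'
      exact (PT.append h1 (PT.list1 (PT.some (PT.inr (PT.condConst r (h2.pair h3)
        (h3.pair h2)))))).pair h1.length
    · rintro ⟨G, L⟩ l' hl'
      have h1 : ∀ x ∈ l', x ≤ size L := by
        intro x hx
        have h2 : x ∈ L := List.mem_reverse.1 (hl'.subset hx)
        have := size_mem_lt h2
        rw [size_nat] at this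
        omega
      obtain ⟨k1, k2⟩ := chain_size r l' G 0 (size L) (by omega) h1
      change size (l'.foldl (cStep r) (G, 0)) ≤ _
      have k3 := length_le_size G
      have k4 : l'.length ≤ size L := by
        have := hl'.length_le
        rw [List.length_reverse] at this
        exact this.trans (length_le_size L)
      rw [size_prod, size_nat]
      have k5 : size ((G, L) : Gram × List ℕ) = size G + size L + 1 := size_prod _
      have k6 := Nat.mul_le_mul (show l'.length ≤ size ((G, L) : Gram × List ℕ) by omega)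
        (show 2 * size L + 2 * (G.length + l'.length) + 10 ≤
          2 * size ((G, L) : Gram × List ℕ) + 2 * (size ((G, L) : Gram × List ℕ) +
            size ((G, L) : Gram × List ℕ)) + 10 by omega)
      omega
  exact base.comp (hf.pair hg)

theorem PT.cut' (r : Bool) {f : α → Gram} {g : α → ℕ} {h : α → BNz} (hf : PT f) (hg : PT g)
    (hh : PT h) : PT (fun a => MP_0c2883_lc.cut' r (f a) (g a) (h a)) :=
  PT.chain r hf (PT.dec r (PT.mkEnv hf) hg hh)

theorem PT.invG {f : α → Gram} (hf : PT f) : PT (fun a => MP_0c2883_lc.invG (f a)) := by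
  have h1 : PT (fun x : α × GRule => invRule (f x.1).length x.2) := by
    have hN : PT (fun x : α × GRule => (f x.1).length) := (hf.comp PT.fst).length
    refine (PT.ruleCases (f := fun x : α × GRule => x.2) (g := fun _ => (none : GRule))
      (h := fun _ y => (some (Sum.inl (linv y)) : GRule))
      (k := fun x p => (some (Sum.inr (p.2 + (f x.1).length, p.1 + (f x.1).length)) : GRule))
      PT.snd (PT.const _) (PT.some (PT.inl ((PT.ofFintype linv).comp PT.snd)))
      (PT.some (PT.inr ((PT.add PT.snd.snd' (hN.comp PT.fst)).pair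
        (PT.add PT.snd.fst' (hN.comp PT.fst)))))).congr (fun x => ?_)
    unfold invRule
    rcases x.2 with _ | y | p <;> rfl
  exact PT.append hf (PT.map (g := fun a y => invRule (f a).length y) hf h1)

theorem PT.canTest {f : α → Gram} {g k : α → ℕ} {h : α → BNz} (hf : PT f) (hg : PT g) (hk : PT k)
    (hh : PT h) : PT (fun a => MP_0c2883_lc.canTest (f a) (g a) (k a) (h a)) := by
  have hc := PT.cut' true (PT.invG hf) (PT.add hk hf.length) hh
  exact PT.spTest (PT.mkEnv hc.fst') ((hg.pair hc.snd').pair hh)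

theorem PT.bsStep {f : α → Gram} {g k t : α → ℕ} {h : α → BNz} (hf : PT f) (hg : PT g)
    (hk : PT k) (hh : PT h) (ht : PT t) :
    PT (fun a => MP_0c2883_lc.bsStep (f a) (g a) (k a) (h a) (t a)) := by
  have h4 : PT (fun a => BNz.mk ((h a).val + 2 ^ t a)) := PT.bnzAdd hh (PT.bnPow2 ht)
  have c1 := PT.bnzLe h4 (PT.len (PT.mkEnv hf) hg)
  have c2 := PT.bnzLe h4 (PT.len (PT.mkEnv hf) hk)
  have c3 := PT.canTest hf hg hk h4
  exact PT.cond (PT.and c1 (PT.and c2 c3)) h4 hh

theorem bs_fold_le (G : Gram) (g k : ℕ) : ∀ (l : List ℕ) (c : BNz),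
    c.val ≤ (MP_0c2883_lc.len (MP_0c2883_lc.mkEnv G) g).val →
    (l.foldl (fun c t => MP_0c2883_lc.bsStep G g k c t) c).val ≤
      (MP_0c2883_lc.len (MP_0c2883_lc.mkEnv G) g).val := by
  intro l
  induction l with
  | nil => intro c h; exact h
  | cons t l ih =>
    intro c h
    rw [List.foldl_cons]
    apply ih
    unfold MP_0c2883_lc.bsStep
    split_ifs with h1
    · rw [Bool.and_eq_true, decide_eq_true_eq] at h1
      exact h1.1
    · exact h

theorem PT.cancel1 :  PT (fun x : Gram × (ℕ × ℕ) => (List.range (Nat.size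
        (MP_0c2883_lc.len (MP_0c2883_lc.mkEnv x.1) x.2.1).val)).reverse) := by
    have hlen : PT (fun x : Gram × (ℕ × ℕ) => MP_0c2883_lc.len (MP_0c2883_lc.mkEnv x.1) x.2.1) :=
      PT.len (PT.mkEnv PT.fst) PT.snd.fst'
    exact (PT.reverse (PT.range hlen.bnzSize))

theorem PT.cancel2 : PT (fun x : (Gram × (ℕ × ℕ)) × (BNz × ℕ) =>
    MP_0c2883_lc.bsStep x.1.1 x.1.2.1 x.1.2.2 x.2.1 x.2.2) :=
  PT.bsStep PT.fst.fst' PT.fst.snd'.fst' PT.fst.snd'.snd' PT.snd.fst' PT.snd.snd'

theorem PT.cancel3 : PT (fun x : Gram × (ℕ × ℕ) => (List.range (Nat.size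
        (MP_0c2883_lc.len (MP_0c2883_lc.mkEnv x.1) x.2.1).val)).reverse.foldl
        (fun c t => MP_0c2883_lc.bsStep x.1 x.2.1 x.2.2 c t) (BNz.mk 0)) := by
    have hlen : PT (fun x : Gram × (ℕ × ℕ) => MP_0c2883_lc.len (MP_0c2883_lc.mkEnv x.1) x.2.1) :=
      PT.len (PT.mkEnv PT.fst) PT.snd.fst'
    obtain ⟨q, hq⟩ := hlen.size_le
    refine PT.foldl (f := fun x : Gram × (ℕ × ℕ) => (List.range (Nat.size
        (MP_0c2883_lc.len (MP_0c2883_lc.mkEnv x.1) x.2.1).val)).reverse)
      (init := fun _ => BNz.mk 0) (step := fun x c t => MP_0c2883_lc.bsStep x.1 x.2.1 x.2.2 c t)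
      PT.cancel1 (PT.const _) PT.cancel2
      (B := fun n => 4 * q.eval n + 1) (((PB.const 4).mul (PB.poly q)).add (PB.const 1)) ?_
    intro x l' _
    have h1 := bs_fold_le x.1 x.2.1 x.2.2 l' ⟨0⟩ (Nat.zero_le _)
    have h2 := size_bn_mono h1
    have h3 := hq x
    exact h2.trans (by omega)

theorem PT.cancel4 : PT (fun x : Gram × (ℕ × ℕ) => MP_0c2883_lc.cancel x.1 x.2.1 x.2.2) := by
  unfold MP_0c2883_lc.cancel
  exact PT.cancel3

theorem PT.cancelT {f : α → Gram} {g k : α → ℕ} (hf : PT f) (hg : PT g) (hk : PT k) :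
    PT (fun a => MP_0c2883_lc.cancel (f a) (g a) (k a)) := by
  have h : PT (fun a => (f a, (g a, k a))) := hf.pair (hg.pair hk)
  have h2 := PT.comp (g := fun x : Gram × (ℕ × ℕ) => MP_0c2883_lc.cancel x.1 x.2.1 x.2.2)
    PT.cancel4 h
  exact h2

theorem PT.addProd {f : α → Gram} {g k : α → ℕ} (hf : PT f) (hg : PT g) (hk : PT k) :
    PT (fun a => MP_0c2883_lc.addProd (f a) (g a) (k a)) := by
  have hc := PT.cancelT hf hg hk
  have hA := PT.cut' false hf hg (PT.bnzSub (PT.len (PT.mkEnv hf) hg) hc)
  have hB := PT.cut' true hA.fst' hk (PT.bnzSub (PT.len (PT.mkEnv hf) hk) hc)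
  exact (PT.append hB.fst' (PT.list1 (PT.some (PT.inr (hA.snd'.pair hB.snd'))))).pair
    hB.fst'.length

theorem size_letter_le (x : Letter) : size x ≤ 10 := by
  have : ∀ x : Letter, size x ≤ 10 := by decide
  exact this x

theorem size_valid {G : Gram} (hG : Valid G) : ∀ r ∈ G, size r ≤ 4 * G.length + 20 := by
  intro r hr
  obtain ⟨i, hi, h⟩ := List.mem_iff_getElem.1 hr
  have hi' : G[i]? = some r := by rw [List.getElem?_eq_getElem hi, h]
  rcases r with _ | x | ⟨a, b⟩
  · have : size (none : GRule) = 1 := rfl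
    omega
  · rw [size_some, size_inl]
    have := size_letter_le x
    omega
  · have := hG i a b hi'
    rw [size_catRule]
    simp only
    omega

theorem PT.red {f : α → List SRule} (hf : PT f) : PT (fun a => MP_0c2883_lc.red (f a)) := by
  have base : PT (fun W : List SRule => MP_0c2883_lc.red W) := by
    let N : ℕ → ℕ := fun n => 1 + n * (4 * n + 3)
    have hN : PB N := (PB.const 1).add (PB.id.mul (((PB.const 4).mul PB.id).add (PB.const 3)))
    have hNm : ∀ {m n : ℕ}, m ≤ n → N m ≤ N n := by
      intro m n h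
      exact Nat.add_le_add_left (Nat.mul_le_mul h (by omega)) 1
    refine PT.foldl (f := fun W : List SRule => W) (init := fun _ => (([none], []) : Gram × List ℕ))
      (step := fun _ s r => redStep s r) PT.id (PT.const _) ?_
      (B := fun n => (N n * ((4 * N n + 20) + 1) + 1) + (n * ((2 * N n + 1) + 1) + 1) + 1)
      ((((hN.mul ((((PB.const 4).mul hN).add (PB.const 20)).add (PB.const 1))).add
        (PB.const 1)).add ((PB.id.mul ((((PB.const 2).mul hN).add (PB.const 1)).add
        (PB.const 1))).add (PB.const 1))).add (PB.const 1)) ?_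
    · have h1 : PT (fun x : List SRule × ((Gram × List ℕ) × SRule) => x.2.1.1) := PT.snd.fst'.fst'
      have h2 : PT (fun x : List SRule × ((Gram × List ℕ) × SRule) => x.2.1.2) := PT.snd.fst'.snd'
      have h3 : PT (fun x : List SRule × ((Gram × List ℕ) × SRule) => x.2.2) := PT.snd.snd'
      have c1 : PT (fun x : (List SRule × ((Gram × List ℕ) × SRule)) × Letter =>
          (x.1.2.1.1 ++ [(some (Sum.inl x.2) : GRule)], x.1.2.1.2 ++ [x.1.2.1.1.length])) :=
        (PT.append (h1.comp PT.fst) (PT.list1 (PT.some (PT.inl PT.snd)))).pair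
          (PT.append (h2.comp PT.fst) (PT.list1 (h1.comp PT.fst).length))
      have c2 : PT (fun x : (List SRule × ((Gram × List ℕ) × SRule)) × (ℕ × ℕ) =>
          ((MP_0c2883_lc.addProd x.1.2.1.1 (x.1.2.1.2[x.2.1]?.getD 0)
            (x.1.2.1.2[x.2.2]?.getD 0)).1, x.1.2.1.2 ++ [(MP_0c2883_lc.addProd x.1.2.1.1
            (x.1.2.1.2[x.2.1]?.getD 0) (x.1.2.1.2[x.2.2]?.getD 0)).2])) := by
        have h1' := h1.comp (PT.fst (α := List SRule × ((Gram × List ℕ) × SRule)) (β := ℕ × ℕ))
        have h2' := h2.comp (PT.fst (α := List SRule × ((Gram × List ℕ) × SRule)) (β := ℕ × ℕ))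
        have p := PT.addProd h1' (PT.getDv PT.snd.fst' h2' 0) (PT.getDv PT.snd.snd' h2' 0)
        exact p.fst'.pair (PT.append h2' (PT.list1 p.snd'))
      refine (PT.sumCases (f := fun x : List SRule × ((Gram × List ℕ) × SRule) => x.2.2)
        (g := fun x y => (x.2.1.1 ++ [(some (Sum.inl y) : GRule)], x.2.1.2 ++ [x.2.1.1.length]))
        (h := fun x p => ((MP_0c2883_lc.addProd x.2.1.1 (x.2.1.2[p.1]?.getD 0)
            (x.2.1.2[p.2]?.getD 0)).1, x.2.1.2 ++ [(MP_0c2883_lc.addProd x.2.1.1
            (x.2.1.2[p.1]?.getD 0) (x.2.1.2[p.2]?.getD 0)).2])) h3 c1 c2).congr (fun x => ?_)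
      rcases x with ⟨W, s, y | p⟩ <;> rfl
    · intro W l' hl'
      have hinv := red_inv l'
      change size (MP_0c2883_lc.red l') ≤ _
      have hn : l'.length ≤ size W := hl'.length_le.trans (length_le_size W)
      have h1 := size_valid hinv.good.1
      have h2 : (MP_0c2883_lc.red l').1.length ≤ N (size W) := hinv.size.trans (hNm hn)
      have h3 := size_list_le (S := 4 * N (size W) + 20) (MP_0c2883_lc.red l').1 (fun r hr => by
        have := h1 r hr; omega)
      have h4 := size_list_le (S := 2 * N (size W) + 1) (MP_0c2883_lc.red l').2 (fun x hx => by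
        rw [size_nat]
        have := hinv.lt x hx
        omega)
      have h5 := Nat.mul_le_mul_right (4 * N (size W) + 20 + 1) h2
      have h6 := Nat.mul_le_mul_right (2 * N (size W) + 1 + 1)
        (show (MP_0c2883_lc.red l').2.length ≤ size W by rw [hinv.len]; exact hn)
      rw [size_prod]
      omega
  exact base.comp hf

theorem PT.tabP {f : α → Gram} (hf : PT f) {step : α → List τ → GRule → τ}
    (hs : PT (fun x : α × (List τ × GRule) => step x.1 x.2.1 x.2.2)) (P : Polynomial ℕ)
    (hB : ∀ a, ∀ b ∈ MP_0c2883_lc.tab (step a) (f a), size b ≤ P.eval (size a)) :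
    PT (fun a => MP_0c2883_lc.tab (step a) (f a)) := by
  obtain ⟨p, hp⟩ := hf.size_le
  refine PT.foldl (f := f) (init := fun _ => ([] : List τ))
    (step := fun a t r => t ++ [step a t r])
    hf (PT.const _) (PT.append PT.snd.fst' (PT.list1 hs))
    (B := fun n => p.eval n * (P.eval n + 1) + 1)
    (((PB.poly p).mul ((PB.poly P).add (PB.const 1))).add (PB.const 1)) ?_
  rintro a l' ⟨t, ht⟩
  have h1 : ∀ b ∈ MP_0c2883_lc.tab (step a) l', size b ≤ P.eval (size a) := by
    intro b hb
    have h2 : b ∈ MP_0c2883_lc.tab (step a) (f a) := by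
      rw [← ht]; exact (tab_prefix (step a) l' t).subset hb
    exact hB _ b h2
  have h3 := size_list_le _ h1
  rw [length_tab] at h3
  refine h3.trans ?_
  have h4 : l'.length ≤ p.eval (size a) := by
    have := length_le_size (f a)
    rw [← ht, List.length_append] at this
    have := hp a
    rw [← ht] at this
    omega
  have := Nat.mul_le_mul_right (P.eval (size a) + 1) h4
  omega

theorem PT.num (p : Letter → Bool) {f : α → Gram} {g : α → ℕ} (hf : PT f) (hg : PT g) :
    PT (fun a => MP_0c2883_lc.num (f a) (g a) p) := by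
  refine PT.getDv hg ?_ _
  refine PT.tab hf ?_ (Polynomial.C 4 * Polynomial.X + 5) ?_
  · refine (PT.ruleCases (f := fun x : List BNz × GRule => x.2) (g := fun _ => BNz.mk 0)
      (h := fun _ y => if p y then BNz.mk 1 else BNz.mk 0)
      (k := fun x q => BNz.mk ((x.1[q.1]?.getD ⟨0⟩).val + (x.1[q.2]?.getD ⟨0⟩).val))
      PT.snd (PT.const _) ((PT.ofFintype (fun y : Letter => if p y then BNz.mk 1 else
      BNz.mk 0)).comp PT.snd) (PT.bnzAdd
      (PT.getDv PT.snd.fst' PT.fst.fst' _) (PT.getDv PT.snd.snd' PT.fst.fst' _))).congr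
      (fun x => ?_)
    unfold numStep
    rcases x.2 with _ | y | q <;> rfl
  · intro G b hb
    have key : ∀ G : Gram, ∀ b ∈ MP_0c2883_lc.tab (numStep p) G, b.val ≤ 2 ^ G.length := by
      intro G
      induction G using List.reverseRecOn with
      | nil => simp
      | append_singleton G r ih =>
        intro b hb
        have hget : ∀ i : ℕ, ((MP_0c2883_lc.tab (numStep p) G)[i]?.getD ⟨0⟩).val ≤
            2 ^ G.length := by
          intro i
          rcases h : (MP_0c2883_lc.tab (numStep p) G)[i]? with _ | c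
          · simp
          · exact ih c (List.mem_of_getElem? h)
        rw [tab_concat, List.mem_append, List.mem_singleton] at hb
        rw [List.length_append, List.length_singleton, pow_succ]
        rcases hb with hb | rfl
        · have := ih b hb; omega
        · have := Nat.one_le_two_pow (n := G.length)
          rcases r with _ | x | q
          · simp [numStep]
          · simp only [numStep]; split_ifs <;> simp only <;> omega
          · simp only [numStep]
            have h1 := hget q.1
            have h2 := hget q.2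
            omega
    have h1 := key G b hb
    have h2 : Nat.size b.val ≤ G.length + 1 := by
      rw [Nat.size_le]
      have := Nat.one_le_two_pow (n := G.length)
      rw [pow_succ]; omega
    have h3 := size_bn_le b
    have h4 := length_le_size G
    simp only [Polynomial.eval_add, Polynomial.eval_mul, Polynomial.eval_C, Polynomial.eval_X,
      Polynomial.eval_ofNat]
    omega

theorem PT.entCat {f g : α → Ent} (hf : PT f) (hg : PT g) :
    PT (fun a => MP_0c2883_lc.entCat (f a) (g a)) :=
  ((PT.bnzAdd hf.fst'.fst' hg.fst'.fst').pair (PT.bnzAdd hf.fst'.snd' hg.fst'.snd')).pair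
    ((PT.bnzMax hf.snd'.fst' (PT.bnzSub (PT.bnzAdd hf.fst'.fst' hg.snd'.fst') hf.fst'.snd')).pair
      (PT.bnzMax hf.snd'.snd' (PT.bnzSub (PT.bnzAdd hf.fst'.snd' hg.snd'.snd') hf.fst'.fst')))

/-- all components are at most `K` -/
def EB (K : ℕ) (E : Ent) : Prop :=
  E.1.1.val ≤ K ∧ E.1.2.val ≤ K ∧ E.2.1.val ≤ K ∧ E.2.2.val ≤ K

theorem rTab_bound (ab : BNz × BNz) (G : Gram) :
    ∀ E ∈ MP_0c2883_lc.tab (rStep ab) G, EB ((ab.1.val + ab.2.val) * 2 ^ G.length) E := by
  induction G using List.reverseRecOn with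
  | nil => simp
  | append_singleton G r ih =>
    intro E hE
    have hget : ∀ i : ℕ, EB ((ab.1.val + ab.2.val) * 2 ^ G.length)
        ((MP_0c2883_lc.tab (rStep ab) G)[i]?.getD ent0) := by
      intro i
      rcases h : (MP_0c2883_lc.tab (rStep ab) G)[i]? with _ | c
      · simp [EB, ent0]
      · exact ih c (List.mem_of_getElem? h)
    rw [tab_concat, List.mem_append, List.mem_singleton] at hE
    have hK : (ab.1.val + ab.2.val) * 2 ^ (G ++ [r]).length =
        2 * ((ab.1.val + ab.2.val) * 2 ^ G.length) := by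
      rw [List.length_append, List.length_singleton, pow_succ]; ring
    have h0 : ab.1.val + ab.2.val ≤ (ab.1.val + ab.2.val) * 2 ^ G.length :=
      Nat.le_mul_of_pos_right _ (by positivity)
    rw [hK]
    generalize (ab.1.val + ab.2.val) * 2 ^ G.length = K at *
    rcases hE with hE | rfl
    · obtain ⟨a1, a2, a3, a4⟩ := ih E hE
      unfold EB; omega
    · rcases r with _ | x | q
      · simp [rStep, EB, ent0]
      · simp only [rStep]
        split_ifs
        · unfold EB; simp only; omega
        · unfold EB; simp only; omega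
      · simp only [rStep]
        obtain ⟨a1, a2, a3, a4⟩ := hget q.1
        obtain ⟨b1, b2, b3, b4⟩ := hget q.2
        unfold EB MP_0c2883_lc.entCat
        simp only
        omega

theorem PT.rTab {f : α → BNz × BNz} {g : α → Gram} (hf : PT f) (hg : PT g) :
    PT (fun a => MP_0c2883_lc.tab (rStep (f a)) (g a)) := by
  have base : PT (fun x : (BNz × BNz) × Gram => MP_0c2883_lc.tab (rStep x.1) x.2) := by
    refine PT.tabP (f := fun x : (BNz × BNz) × Gram => x.2) (step := fun x => rStep x.1) PT.snd ?_
      (Polynomial.C 64 * Polynomial.X + 64) ?_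
    · have k1 : PT (fun x : ((BNz × BNz) × Gram) × (List Ent × GRule) => x.1.1.1) := PT.fst.fst'.fst'
      have k2 : PT (fun x : ((BNz × BNz) × Gram) × (List Ent × GRule) => x.1.1.2) := PT.fst.fst'.snd'
      have k3 : PT (fun x : ((BNz × BNz) × Gram) × (List Ent × GRule) => x.2.1) := PT.snd.fst'
      have k4 : PT (fun x : ((BNz × BNz) × Gram) × (List Ent × GRule) => x.2.2) := PT.snd.snd'
      have z : PT (fun _ : (((BNz × BNz) × Gram) × (List Ent × GRule)) × Letter => BNz.mk 0) :=
        PT.const _
      have hl : PT (fun x : (((BNz × BNz) × Gram) × (List Ent × GRule)) × Letter =>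
          if decide (x.2.1 = 0) then ((x.1.1.1.2, BNz.mk 0), (x.1.1.1.2, BNz.mk 0))
            else ((BNz.mk 0, x.1.1.1.1), (BNz.mk 0, x.1.1.1.1))) :=
        PT.cond (PT.eq PT.snd.fst' (PT.const (0 : Fin 2)))
          (((k2.comp PT.fst).pair z).pair ((k2.comp PT.fst).pair z))
          ((z.pair (k1.comp PT.fst)).pair (z.pair (k1.comp PT.fst)))
      have hcat : PT (fun x : (((BNz × BNz) × Gram) × (List Ent × GRule)) × (ℕ × ℕ) =>
          MP_0c2883_lc.entCat (x.1.2.1[x.2.1]?.getD ent0) (x.1.2.1[x.2.2]?.getD ent0)) :=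
        PT.entCat (PT.getDv PT.snd.fst' (k3.comp PT.fst) _)
          (PT.getDv PT.snd.snd' (k3.comp PT.fst) _)
      refine (PT.ruleCases (f := fun x : ((BNz × BNz) × Gram) × (List Ent × GRule) => x.2.2)
        (g := fun _ => ent0)
        (h := fun x y => if decide (y.1 = 0) then ((x.1.1.2, BNz.mk 0), (x.1.1.2, BNz.mk 0))
            else ((BNz.mk 0, x.1.1.1), (BNz.mk 0, x.1.1.1)))
        (k := fun x q => MP_0c2883_lc.entCat (x.2.1[q.1]?.getD ent0) (x.2.1[q.2]?.getD ent0))
        k4 (PT.const _) hl hcat).congr (fun x => ?_)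
      unfold rStep
      rcases x.2.2 with _ | y | q <;> rfl
    · intro x E hE
      obtain ⟨a1, a2, a3, a4⟩ := rTab_bound x.1 x.2 E hE
      have hs : ∀ y : BNz, y.val ≤ (x.1.1.val + x.1.2.val) * 2 ^ x.2.length →
          size y ≤ 4 * (2 * size x + 2) + 1 := by
        intro y hy
        have h1 := size_bn_le y
        have h2 : Nat.size y.val ≤ 2 * size x + 2 := by
          rw [Nat.size_le]
          have h3 := Nat.lt_size_self x.1.1.val
          have h4 := Nat.lt_size_self x.1.2.val
          have h5 := natSize_le_size x.1.1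
          have h6 := natSize_le_size x.1.2
          have h7 := length_le_size x.2
          have h8 : size x = (size x.1.1 + size x.1.2 + 1) + size x.2 + 1 := by
            rw [size_prod, size_prod (x := x.1)]
          have h9 : x.1.1.val < 2 ^ size x :=
            h3.trans_le (Nat.pow_le_pow_right (by norm_num) (by omega))
          have h10 : x.1.2.val < 2 ^ size x :=
            h4.trans_le (Nat.pow_le_pow_right (by norm_num) (by omega))
          have h11 : x.1.1.val + x.1.2.val < 2 ^ (size x + 1) := by rw [pow_succ]; omega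
          have h12 : (2 : ℕ) ^ x.2.length ≤ 2 ^ size x :=
            Nat.pow_le_pow_right (by norm_num) (by omega)
          calc y.val ≤ (x.1.1.val + x.1.2.val) * 2 ^ x.2.length := hy
            _ ≤ (x.1.1.val + x.1.2.val) * 2 ^ size x := Nat.mul_le_mul_left _ h12
            _ < 2 ^ (size x + 1) * 2 ^ size x := Nat.mul_lt_mul_of_pos_right h11 (by positivity)
            _ = 2 ^ (2 * size x + 1) := by rw [← pow_add]; congr 1; omega
            _ ≤ 2 ^ (2 * size x + 2) := Nat.pow_le_pow_right (by norm_num) (by omega)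
        omega
      have e1 : size E = ((size E.1.1 + size E.1.2 + 1) + (size E.2.1 + size E.2.2 + 1) + 1) := by
        rw [size_prod, size_prod (x := E.1), size_prod (x := E.2)]
      have b1 := hs _ a1
      have b2 := hs _ a2
      have b3 := hs _ a3
      have b4 := hs _ a4
      simp only [Polynomial.eval_add, Polynomial.eval_mul, Polynomial.eval_C, Polynomial.eval_X,
        Polynomial.eval_ofNat]
      omega
  exact base.comp (hf.pair hg)

theorem PT.critTest {f : α → Gram} {g : α → ℕ} (hf : PT f) (hg : PT g) :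
    PT (fun a => MP_0c2883_lc.critTest (f a) (g a)) := by
  have z := PT.const (α := α) (BNz.mk 0)
  have n0 := PT.num (fun x => decide (x.1 = 0)) hf hg
  have n1 := PT.num (fun x => decide (x.1 = 1)) hf hg
  have e := PT.getDv hg (PT.rTab (n0.pair n1) hf) ent0
  exact PT.and (PT.or (PT.bnzEq (PT.num (fun x => decide (x = (0, true))) hf hg) z)
      (PT.bnzEq (PT.num (fun x => decide (x = (0, false))) hf hg) z))
    (PT.and (PT.or (PT.bnzEq (PT.num (fun x => decide (x = (1, true))) hf hg) z)
      (PT.bnzEq (PT.num (fun x => decide (x = (1, false))) hf hg) z))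
      (PT.bnzEq (PT.bnzAdd (PT.bnzAdd e.snd'.fst' e.snd'.snd') (PT.const (BNz.mk 1)))
        (PT.bnzAdd n0 n1)))

/-- **The decision procedure runs in polynomial time.** -/
theorem PT.primTest : PT (fun W : List SRule => MP_0c2883_lc.primTest W) := by
  have hs : PT (fun W : List SRule => MP_0c2883_lc.red W) := PT.red PT.id
  have hi : PT (fun W : List SRule => (MP_0c2883_lc.red W).2[W.length - 1]?.getD 0) :=
    PT.getDv (PT.pred PT.id.length) hs.snd' 0
  have hc := PT.cancelT hs.fst' hi hi
  have hA := PT.cut' false hs.fst' hi (PT.bnzSub (PT.len (PT.mkEnv hs.fst') hi) hc)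
  have hB := PT.cut' true hA.fst' hA.snd' (PT.bnzSub (PT.len (PT.mkEnv hA.fst') hA.snd') hc)
  exact PT.critTest hB.fst' hB.snd'

end Pool.Agent.Lib.MP_0c2883_lc
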